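import Pool.Agent.R774.BW.Stm

/-! # Project BW: basic lemmas -/

set_option autoImplicit false

open scoped BigOperators ContDiff Topology
open Filter Set

namespace Pool.Agent.R774.BW

variable {n : ℕ}

/-- smooth away from the origin -/
def Sm (f : (Fin n → ℝ) → ℝ) : Prop := ∀ y, y ≠ 0 → ContDiffAt ℝ ∞ f y

theorem isOpen_ne0 : IsOpen {y : Fin n → ℝ | y ≠ 0} := isOpen_ne_fun continuous_id continuous_const

theorem MN.sm {Q : (Fin n → ℝ) → ℝ} (h : MN Q) : Sm Q := fun y hy =>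
  (h.smooth).contDiffAt (isOpen_ne0.mem_nhds hy)

theorem Sm.diff {f : (Fin n → ℝ) → ℝ} (h : Sm f) {y : Fin n → ℝ} (hy : y ≠ 0) :
    DifferentiableAt ℝ f y := (h y hy).differentiableAt (by simp)

theorem Sm.pd {f : (Fin n → ℝ) → ℝ} (h : Sm f) (k : Fin n) : Sm (pd k f) := by
  intro y hy
  have h1 : ContDiffAt ℝ ∞ (fderiv ℝ f) y := (h y hy).fderiv_right (m := ∞) (by simp)
  exact h1.clm_apply contDiffAt_const

theorem Sm.add {f g : (Fin n → ℝ) → ℝ} (hf : Sm f) (hg : Sm g) : Sm (fun y => f y + g y) :=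
  fun y hy => (hf y hy).add (hg y hy)

theorem Sm.sub {f g : (Fin n → ℝ) → ℝ} (hf : Sm f) (hg : Sm g) : Sm (fun y => f y - g y) :=
  fun y hy => (hf y hy).sub (hg y hy)

theorem Sm.mul {f g : (Fin n → ℝ) → ℝ} (hf : Sm f) (hg : Sm g) : Sm (fun y => f y * g y) :=
  fun y hy => (hf y hy).mul (hg y hy)

theorem Sm.neg {f : (Fin n → ℝ) → ℝ} (hf : Sm f) : Sm (fun y => - f y) :=
  fun y hy => (hf y hy).neg

theorem Sm.sum {ι : Type*} {s : Finset ι} {f : ι → (Fin n → ℝ) → ℝ} (hf : ∀ i ∈ s, Sm (f i)) :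
    Sm (fun y => ∑ i ∈ s, f i y) := fun y hy => ContDiffAt.sum fun i hi => hf i hi y hy

theorem sm_const (c : ℝ) : Sm (fun _ : Fin n → ℝ => c) := fun _ _ => contDiffAt_const

theorem sm_coord (i : Fin n) : Sm (fun y : Fin n → ℝ => y i) := fun _ _ =>
  (contDiff_apply ℝ ℝ i).contDiffAt

theorem pd_add {f g : (Fin n → ℝ) → ℝ} (hf : Sm f) (hg : Sm g) (k : Fin n) {y : Fin n → ℝ}
    (hy : y ≠ 0) : pd k (fun y => f y + g y) y = pd k f y + pd k g y := by
  unfold BW.pd
  rw [fderiv_fun_add (hf.diff hy) (hg.diff hy)]; rfl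

theorem pd_sub {f g : (Fin n → ℝ) → ℝ} (hf : Sm f) (hg : Sm g) (k : Fin n) {y : Fin n → ℝ}
    (hy : y ≠ 0) : pd k (fun y => f y - g y) y = pd k f y - pd k g y := by
  unfold BW.pd
  rw [fderiv_fun_sub (hf.diff hy) (hg.diff hy)]; rfl

theorem pd_neg {f : (Fin n → ℝ) → ℝ} (k : Fin n) {y : Fin n → ℝ} :
    pd k (fun y => - f y) y = - pd k f y := by
  unfold BW.pd
  rw [fderiv_fun_neg]; rfl

theorem pd_mul {f g : (Fin n → ℝ) → ℝ} (hf : Sm f) (hg : Sm g) (k : Fin n) {y : Fin n → ℝ}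
    (hy : y ≠ 0) : pd k (fun y => f y * g y) y = pd k f y * g y + f y * pd k g y := by
  unfold BW.pd
  rw [fderiv_fun_mul (hf.diff hy) (hg.diff hy)]
  simp only [_root_.add_apply, _root_.smul_apply, smul_eq_mul]
  ring

theorem pd_const_mul {f : (Fin n → ℝ) → ℝ} (hf : Sm f) (c : ℝ) (k : Fin n) {y : Fin n → ℝ}
    (hy : y ≠ 0) : pd k (fun y => c * f y) y = c * pd k f y := by
  unfold BW.pd
  rw [fderiv_const_mul (hf.diff hy)]; rfl

theorem pd_mul_const {f : (Fin n → ℝ) → ℝ} (hf : Sm f) (c : ℝ) (k : Fin n) {y : Fin n → ℝ}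
    (hy : y ≠ 0) : pd k (fun y => f y * c) y = pd k f y * c := by
  unfold BW.pd
  rw [fderiv_mul_const (hf.diff hy)]
  simp only [_root_.smul_apply, smul_eq_mul]
  ring

theorem pd_sum {ι : Type*} {s : Finset ι} {f : ι → (Fin n → ℝ) → ℝ} (hf : ∀ i ∈ s, Sm (f i))
    (k : Fin n) {y : Fin n → ℝ} (hy : y ≠ 0) :
    pd k (fun y => ∑ i ∈ s, f i y) y = ∑ i ∈ s, pd k (f i) y := by
  unfold BW.pd
  rw [fderiv_fun_sum fun i hi => (hf i hi).diff hy]
  simp

theorem pd_const (c : ℝ) (k : Fin n) (y : Fin n → ℝ) : pd k (fun _ => c) y = 0 := by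
  unfold BW.pd; simp

theorem pd_coord (i k : Fin n) (y : Fin n → ℝ) :
    pd k (fun y => y i) y = if i = k then 1 else 0 := by
  unfold BW.pd
  have : HasFDerivAt (fun y : Fin n → ℝ => y i) (ContinuousLinearMap.proj (R := ℝ) (φ := fun _ : Fin n => ℝ) i) y :=
    hasFDerivAt_apply i y
  rw [this.fderiv]
  simp [Pi.single_apply]

/-- the partial derivatives only depend on the values away from `0` -/
theorem pd_congr {f g : (Fin n → ℝ) → ℝ} (h : ∀ y, y ≠ 0 → f y = g y) (k : Fin n)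
    {y : Fin n → ℝ} (hy : y ≠ 0) : pd k f y = pd k g y := by
  have : f =ᶠ[𝓝 y] g := by
    filter_upwards [isOpen_ne0.mem_nhds hy] with z hz using h z hz
  unfold BW.pd
  rw [this.fderiv_eq]

theorem Sm.congr {f g : (Fin n → ℝ) → ℝ} (hf : Sm f) (h : ∀ y, y ≠ 0 → g y = f y) : Sm g := by
  intro y hy
  refine (hf y hy).congr_of_eventuallyEq ?_
  filter_upwards [isOpen_ne0.mem_nhds hy] with z hz using h z hz

theorem pd_comm {f : (Fin n → ℝ) → ℝ} (hf : Sm f) (i j : Fin n) {y : Fin n → ℝ} (hy : y ≠ 0) :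
    pd i (pd j f) y = pd j (pd i f) y := by
  have hs : IsSymmSndFDerivAt ℝ f y := (hf y hy).isSymmSndFDerivAt (by
    simp only [minSmoothness_of_isRCLikeNormedField]
    exact WithTop.coe_le_coe.2 (by exact le_top))
  have hd : DifferentiableAt ℝ (fderiv ℝ f) y :=
    ((hf y hy).fderiv_right (m := ∞) (by simp)).differentiableAt (by simp)
  have e : ∀ a b : Fin n, pd a (pd b f) y =
      fderiv ℝ (fderiv ℝ f) y (Pi.single a (1:ℝ)) (Pi.single b (1:ℝ)) := by
    intro a b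
    unfold BW.pd
    rw [fderiv_clm_apply hd (differentiableAt_const _)]
    simp
  rw [e, e, hs]

/-- the derivative in a direction as a sum -/
theorem fderiv_eq_sum (f : (Fin n → ℝ) → ℝ) (y z : Fin n → ℝ) :
    fderiv ℝ f y z = ∑ k, z k * pd k f y := by
  unfold BW.pd
  have hz : z = ∑ k, z k • (Pi.single k (1:ℝ) : Fin n → ℝ) := by
    ext i
    simp [Pi.single_apply]
  conv_lhs => rw [hz]
  rw [map_sum]
  refine Finset.sum_congr rfl fun k _ => ?_
  rw [map_smul, smul_eq_mul]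

/-- homogeneous of degree `m` -/
def Hom (m : ℤ) (f : (Fin n → ℝ) → ℝ) : Prop :=
  ∀ y, y ≠ 0 → ∀ t : ℝ, 0 < t → f (t • y) = t ^ m * f y

theorem Hom.pd {m : ℤ} {f : (Fin n → ℝ) → ℝ} (h : Hom m f) (hf : Sm f) (k : Fin n) :
    Hom (m - 1) (pd k f) := by
  intro y hy t ht
  have hty : t • y ≠ 0 := smul_ne_zero ht.ne' hy
  have h1 : HasFDerivAt f (fderiv ℝ f (t • y)) (t • y) := (hf.diff hty).hasFDerivAt
  have h2 : HasFDerivAt (fun z : Fin n → ℝ => t • z) (t • ContinuousLinearMap.id ℝ (Fin n → ℝ)) y :=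
    (hasFDerivAt_id y).const_smul t
  have h3 := (show HasFDerivAt f (fderiv ℝ f (t • y)) ((fun z : Fin n → ℝ => t • z) y) from h1).comp y h2
  have h4 : HasFDerivAt (fun z => t ^ m * f z) (t ^ m • fderiv ℝ f y) y := by
    simpa [smul_eq_mul] using (hf.diff hy).hasFDerivAt.const_mul (t ^ m)
  have h5 : (f ∘ fun z : Fin n → ℝ => t • z) =ᶠ[𝓝 y] fun z => t ^ m * f z := by
    filter_upwards [isOpen_ne0.mem_nhds hy] with z hz using h z hz t ht
  have h6 := (h4.congr_of_eventuallyEq h5).unique h3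
  have h7 := congrArg (fun L : (Fin n → ℝ) →L[ℝ] ℝ => L (Pi.single k (1:ℝ))) h6
  simp only [_root_.smul_apply, ContinuousLinearMap.comp_apply,
    ContinuousLinearMap.id_apply, smul_eq_mul, map_smul] at h7
  unfold BW.pd
  rw [zpow_sub_one₀ ht.ne']
  field_simp
  linarith [h7]

theorem Hom.euler {m : ℤ} {f : (Fin n → ℝ) → ℝ} (h : Hom m f) (hf : Sm f) {y : Fin n → ℝ}
    (hy : y ≠ 0) : ∑ k, y k * BW.pd k f y = m * f y := by
  rw [← fderiv_eq_sum]
  have h1 : HasDerivAt (fun t : ℝ => f (t • y)) (fderiv ℝ f y y) 1 := by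
    have ha : HasFDerivAt f (fderiv ℝ f y) ((fun t : ℝ => t • y) 1) := by
      simpa using (hf.diff hy).hasFDerivAt
    have hb : HasDerivAt (fun t : ℝ => t • y) y 1 := by
      simpa using (hasDerivAt_id (1:ℝ)).smul_const y
    exact ha.comp_hasDerivAt (1:ℝ) hb
  have h2 : HasDerivAt (fun t : ℝ => t ^ m * f y) ((m : ℝ) * (1:ℝ) ^ (m - 1) * f y) 1 :=
    (hasDerivAt_zpow m (1:ℝ) (Or.inl one_ne_zero)).mul_const (f y)
  have h3 : (fun t : ℝ => f (t • y)) =ᶠ[𝓝 1] fun t => t ^ m * f y := by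
    filter_upwards [lt_mem_nhds (show (0:ℝ) < 1 by norm_num)] with t ht using h y hy t ht
  have h4 := (h2.congr_of_eventuallyEq h3).unique h1
  rw [← h4]; simp

theorem MN.hom2 {Q : (Fin n → ℝ) → ℝ} (h : MN Q) : Hom 2 Q := by
  intro y hy t ht
  rw [h.hom y hy t ht]; norm_cast

section
variable {Q : (Fin n → ℝ) → ℝ} (hQ : MN Q)
include hQ

/-- Euler: `Σ y_i Q_i = 2 Q` -/
theorem euler1 {y : Fin n → ℝ} (hy : y ≠ 0) : ∑ i, y i * pd i Q y = 2 * Q y := by
  have := hQ.hom2.euler hQ.sm hy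
  simpa using this

theorem hom_pd1 (i : Fin n) : Hom 1 (pd i Q) := by
  have := hQ.hom2.pd hQ.sm i
  norm_num at this
  exact this

theorem hom_pd2 (i j : Fin n) : Hom 0 (pd i (pd j Q)) := by
  have := (hom_pd1 hQ j).pd (hQ.sm.pd j) i
  norm_num at this
  exact this

theorem hom_pd3 (i j k : Fin n) : Hom (-1) (pd i (pd j (pd k Q))) := by
  have := (hom_pd2 hQ j k).pd ((hQ.sm.pd k).pd j) i
  norm_num at this
  exact this

theorem euler2 (j : Fin n) {y : Fin n → ℝ} (hy : y ≠ 0) :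
    ∑ i, y i * pd i (pd j Q) y = pd j Q y := by
  have := (hom_pd1 hQ j).euler (hQ.sm.pd j) hy
  simpa using this

theorem euler3 (i j : Fin n) {y : Fin n → ℝ} (hy : y ≠ 0) :
    ∑ k, y k * pd k (pd i (pd j Q)) y = 0 := by
  have := (hom_pd2 hQ i j).euler ((hQ.sm.pd j).pd i) hy
  simpa using this

theorem pd2_symm (i j : Fin n) {y : Fin n → ℝ} (hy : y ≠ 0) :
    pd i (pd j Q) y = pd j (pd i Q) y := pd_comm hQ.sm i j hy

theorem pd3_symm1 (i j k : Fin n) {y : Fin n → ℝ} (hy : y ≠ 0) :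
    pd i (pd j (pd k Q)) y = pd j (pd i (pd k Q)) y := pd_comm (hQ.sm.pd k) i j hy

theorem pd3_symm2 (i j k : Fin n) {y : Fin n → ℝ} (hy : y ≠ 0) :
    pd i (pd j (pd k Q)) y = pd i (pd k (pd j Q)) y :=
  pd_congr (fun _ hz => pd_comm hQ.sm j k hz) i hy

theorem A_symm {y : Fin n → ℝ} (hy : y ≠ 0) : (A Q y).transpose = A Q y := by
  ext i j
  exact pd_comm hQ.sm j i hy

theorem A_posDef {y : Fin n → ℝ} (hy : y ≠ 0) : (A Q y).PosDef := by
  refine Matrix.PosDef.of_dotProduct_mulVec_pos ?_ ?_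
  · ext i j
    simpa [A, Matrix.conjTranspose_apply] using pd_comm hQ.sm j i hy
  · intro v hv
    have := hQ.conv y hy v hv
    simp only [star_trivial, dotProduct, Matrix.mulVec, A, Matrix.of_apply]
    refine lt_of_lt_of_eq this (Finset.sum_congr rfl fun i _ => ?_)
    rw [Finset.mul_sum]
    exact Finset.sum_congr rfl fun j _ => by ring

theorem A_det_pos {y : Fin n → ℝ} (hy : y ≠ 0) : 0 < (A Q y).det := (A_posDef hQ hy).det_pos

theorem P_mul_A {y : Fin n → ℝ} (hy : y ≠ 0) (i l : Fin n) :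
    ∑ j, P Q i j y * pd j (pd l Q) y = if i = l then 1 else 0 := by
  have h := Matrix.nonsing_inv_mul (A Q y) (isUnit_iff_ne_zero.2 (A_det_pos hQ hy).ne')
  have h2 := congrFun (congrFun h i) l
  rw [Matrix.mul_apply, Matrix.one_apply] at h2
  exact h2

theorem P_symm {y : Fin n → ℝ} (hy : y ≠ 0) (i j : Fin n) : P Q i j y = P Q j i y := by
  unfold P
  have h : ((A Q y)⁻¹).transpose = (A Q y)⁻¹ := by
    rw [Matrix.transpose_nonsing_inv, A_symm hQ hy]
  exact (congrFun (congrFun h i) j).symm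

theorem P_mul_A' {y : Fin n → ℝ} (hy : y ≠ 0) (i l : Fin n) :
    ∑ j, P Q j i y * pd j (pd l Q) y = if i = l then 1 else 0 := by
  rw [← P_mul_A hQ hy i l]
  exact Finset.sum_congr rfl fun j _ => by rw [P_symm hQ hy]

theorem P_sm (i j : Fin n) : Sm (P Q i j) := by
  intro y hy
  have hdet : ContDiffAt ℝ ∞ (fun z => (A Q z).det) y := by
    simp only [Matrix.det_apply']
    refine ContDiffAt.sum fun s _ => ?_
    refine contDiffAt_const.mul ?_
    exact contDiffAt_prod fun k _ => ((hQ.sm.pd _).pd _) y hy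
  have hadj : ContDiffAt ℝ ∞ (fun z => (A Q z).adjugate i j) y := by
    simp only [Matrix.adjugate_apply, Matrix.det_apply']
    refine ContDiffAt.sum fun s _ => ?_
    refine contDiffAt_const.mul ?_
    refine contDiffAt_prod fun k _ => ?_
    by_cases hk : s k = j
    · simp only [hk, Matrix.updateRow_self]
      exact contDiffAt_const
    · simp only [Matrix.updateRow_ne hk]
      exact ((hQ.sm.pd _).pd _) y hy
  have h2 : (P Q i j) = fun z => ((A Q z).det)⁻¹ * (A Q z).adjugate i j := by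
    ext z
    simp [P, Matrix.inv_def, Ring.inverse_eq_inv']
  rw [h2]
  exact (hdet.inv (A_det_pos hQ hy).ne').mul hadj

theorem P_hom (i j : Fin n) : Hom 0 (P Q i j) := by
  intro y hy t ht
  have : A Q (t • y) = A Q y := by
    ext a b
    have := hom_pd2 hQ a b y hy t ht
    simpa [A] using this
  simp [P, this]

theorem P_posDef {y : Fin n → ℝ} (hy : y ≠ 0) : ((A Q y)⁻¹).PosDef := (A_posDef hQ hy).inv

/-- derivative of the inverse matrix -/
theorem pd_P (k i j : Fin n) {y : Fin n → ℝ} (hy : y ≠ 0) :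
    pd k (P Q i j) y = - ∑ a, ∑ b, P Q i a y * pd k (pd a (pd b Q)) y * P Q b j y := by
  have h1 : ∀ l, ∑ a, pd k (P Q i a) y * pd a (pd l Q) y =
      - ∑ a, P Q i a y * pd k (pd a (pd l Q)) y := by
    intro l
    have e := pd_congr (f := fun z => ∑ a, P Q i a z * pd a (pd l Q) z)
      (g := fun _ => if i = l then (1:ℝ) else 0) (fun z hz => P_mul_A hQ hz i l) k hy
    rw [pd_const, pd_sum (fun a _ => (P_sm hQ i a).mul ((hQ.sm.pd l).pd a)) k hy] at e
    rw [eq_neg_iff_add_eq_zero, ← Finset.sum_add_distrib, ← e]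
    exact Finset.sum_congr rfl fun a _ => (pd_mul (P_sm hQ i a) ((hQ.sm.pd l).pd a) k hy).symm
  have h2 : pd k (P Q i j) y =
      ∑ l, (∑ a, pd k (P Q i a) y * pd a (pd l Q) y) * P Q l j y := by
    simp only [Finset.sum_mul]
    rw [Finset.sum_comm]
    have h3 : ∀ a, ∑ l, pd k (P Q i a) y * pd a (pd l Q) y * P Q l j y =
        pd k (P Q i a) y * if a = j then 1 else 0 := by
      intro a
      have := P_mul_A hQ hy j a
      rw [show (if a = j then (1:ℝ) else 0) = if j = a then 1 else 0 by simp [eq_comm], ← this,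
        Finset.mul_sum]
      refine Finset.sum_congr rfl fun l _ => ?_
      rw [P_symm hQ hy j l, pd_comm hQ.sm a l hy]; ring
    simp [h3]
  rw [h2]
  simp only [h1]
  rw [Finset.sum_comm (f := fun a b => P Q i a y * pd k (pd a (pd b Q)) y * P Q b j y)]
  rw [← Finset.sum_neg_distrib]
  refine Finset.sum_congr rfl fun l _ => ?_
  rw [neg_mul, Finset.sum_mul]

end

end Pool.Agent.R774.BW
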