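import Pool.Agent.R774.BW.Fins

/-! # Project BW: two conformally related weakly Landsberg metrics -/

set_option autoImplicit false

open scoped BigOperators ContDiff Topology Matrix
open Filter Set

namespace Pool.Agent.R774.BW

variable {n : ℕ}

/-- smoothness in `y` of the `x`-derivatives -/
theorem sm_x {f : (Fin n → ℝ) → (Fin n → ℝ) → ℝ} {x : Fin n → ℝ}
    (h : ∀ y, y ≠ 0 → ContDiffAt ℝ ∞ (fun p : (Fin n → ℝ) × (Fin n → ℝ) => f p.1 p.2) (x, y))
    (b : Fin n → ℝ) : Sm (fun u => fderiv ℝ (fun z => f z u) x b) := by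
  intro y hy
  set Ψ : (Fin n → ℝ) × (Fin n → ℝ) → ℝ := fun p => f p.1 p.2 with hΨ
  have e : (fun u => fderiv ℝ (fun z => f z u) x b) =ᶠ[𝓝 y]
      fun u => fderiv ℝ Ψ (x, u) (b, 0) := by
    filter_upwards [isOpen_ne0.mem_nhds hy] with u hu
    have hd : DifferentiableAt ℝ Ψ (x, u) := (h u hu).differentiableAt (by simp)
    have h2 : HasFDerivAt (fun z : Fin n → ℝ => (z, u))
        ((ContinuousLinearMap.id ℝ (Fin n → ℝ)).prod (0 : (Fin n → ℝ) →L[ℝ] (Fin n → ℝ))) x :=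
      (hasFDerivAt_id x).prodMk (hasFDerivAt_const u x)
    have h3 := (show HasFDerivAt Ψ (fderiv ℝ Ψ (x, u)) ((fun z : Fin n → ℝ => (z, u)) x) from
      hd.hasFDerivAt).comp x h2
    have h4 : fderiv ℝ (fun z => f z u) x = _ := h3.fderiv
    rw [h4]; simp
  refine ContDiffAt.congr_of_eventuallyEq ?_ e
  have h5 : ContDiffAt ℝ ∞ (fderiv ℝ Ψ) (x, y) := (h y hy).fderiv_right (m := ∞) (by simp)
  have h6 : ContDiffAt ℝ ∞ (fun u : Fin n → ℝ => (x, u)) y := (contDiff_prodMk_right x).contDiffAt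
  exact ((show ContDiffAt ℝ ∞ (fderiv ℝ Ψ) ((fun u : Fin n → ℝ => (x, u)) y) from h5).comp y
    h6).clm_apply contDiffAt_const

/-- differentiability in `x` of the `y`-derivatives -/
theorem diff_x {f : (Fin n → ℝ) → (Fin n → ℝ) → ℝ} {x y : Fin n → ℝ}
    (h : ContDiffAt ℝ ∞ (fun p : (Fin n → ℝ) × (Fin n → ℝ) => f p.1 p.2) (x, y))
    (a : Fin n → ℝ) : DifferentiableAt ℝ (fun z => fderiv ℝ (fun u => f z u) y a) x := by
  set Ψ : (Fin n → ℝ) × (Fin n → ℝ) → ℝ := fun p => f p.1 p.2 with hΨ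
  have hev : ∀ᶠ p in 𝓝 (x, y), DifferentiableAt ℝ Ψ p := by
    have h1 : ContDiffAt ℝ 1 Ψ (x, y) := h.of_le (by exact_mod_cast le_top)
    filter_upwards [h1.eventually (by simp)] with p hp using hp.differentiableAt one_ne_zero
  have hd : DifferentiableAt ℝ (fderiv ℝ Ψ) (x, y) :=
    (h.fderiv_right (m := ∞) (by simp)).differentiableAt (by simp)
  have e1 : (fun z => fderiv ℝ (fun u => f z u) y a) =ᶠ[𝓝 x] fun z => fderiv ℝ Ψ (z, y) (0, a) := by
    have ht : Tendsto (fun z : Fin n → ℝ => (z, y)) (𝓝 x) (𝓝 (x, y)) :=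
      (Continuous.prodMk_left y).tendsto x
    filter_upwards [ht.eventually hev] with z hz
    have h2 : HasFDerivAt (fun u : Fin n → ℝ => (z, u))
        ((0 : (Fin n → ℝ) →L[ℝ] (Fin n → ℝ)).prod (ContinuousLinearMap.id ℝ (Fin n → ℝ))) y :=
      (hasFDerivAt_const z y).prodMk (hasFDerivAt_id y)
    have h3 := (show HasFDerivAt Ψ (fderiv ℝ Ψ (z, y)) ((fun u : Fin n → ℝ => (z, u)) y) from
      hz.hasFDerivAt).comp y h2
    have h4 : fderiv ℝ (fun u => f z u) y = _ := h3.fderiv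
    rw [h4]; simp
  refine DifferentiableAt.congr_of_eventuallyEq ?_ e1
  have h2' : DifferentiableAt ℝ (fun z : Fin n → ℝ => (z, y)) x :=
    differentiableAt_id.prodMk (differentiableAt_const y)
  exact ((show DifferentiableAt ℝ (fderiv ℝ Ψ) ((fun z : Fin n → ℝ => (z, y)) x) from hd).comp x
    h2').clm_apply (differentiableAt_const _)

theorem IsFinsler.cd {U : Set (Fin n → ℝ)} {F : (Fin n → ℝ) → (Fin n → ℝ) → ℝ}
    (hF : IsFinsler U F) {x : Fin n → ℝ} (hx : x ∈ U) {z : Fin n → ℝ} (hz : z ≠ 0) :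
    ContDiffAt ℝ ∞ (fun p : (Fin n → ℝ) × (Fin n → ℝ) => F p.1 p.2 ^ 2) (x, z) := by
  have : U ×ˢ {y : Fin n → ℝ | y ≠ 0} ∈ 𝓝 (x, z) :=
    prod_mem_nhds (hF.isOpen.mem_nhds hx) (isOpen_ne0.mem_nhds hz)
  exact (hF.smooth.contDiffAt this).pow 2

/-- the spray coefficients are smooth in `y` -/
theorem spray_sm {U : Set (Fin n → ℝ)} {F : (Fin n → ℝ) → (Fin n → ℝ) → ℝ}
    {G : (Fin n → ℝ) → (Fin n → ℝ) → (Fin n → ℝ)} (hF : IsFinsler U F) (hG : IsSpray U F G)
    {x : Fin n → ℝ} (hx : x ∈ U) (i : Fin n) : Sm (fun z => G x z i) := by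
  set Q : (Fin n → ℝ) → ℝ := fun u => F x u ^ 2 with hQdef
  have hQ : MN Q := hF.mn hx
  set R : Fin n → (Fin n → ℝ) → ℝ := fun l y =>
    (∑ k : Fin n, pd l (fun u => fderiv ℝ (fun z => F z u ^ 2) x
      (Pi.single k (1 : ℝ) : Fin n → ℝ)) y * y k)
        - fderiv ℝ (fun z => F z y ^ 2) x (Pi.single l (1 : ℝ) : Fin n → ℝ) with hR
  have hRs : ∀ l, Sm (R l) := fun l =>
    (Sm.sum fun k _ => ((sm_x (f := fun z u => F z u ^ 2)
      (fun y hy => hF.cd hx hy) _).pd l).mul (sm_coord k)).sub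
      (sm_x (f := fun z u => F z u ^ 2) (fun y hy => hF.cd hx hy) _)
  have hs : Sm (fun y => ∑ l, P Q i l y * ((1 / 2 : ℝ) * R l y)) :=
    Sm.sum fun l _ => (P_sm hQ i l).mul ((sm_const _).mul (hRs l))
  refine Sm.congr hs fun y hy => ?_
  have h1 : A Q y *ᵥ (fun m => G x y m) = fun l => (1 / 2 : ℝ) * R l y := by
    ext l
    have hsp := hG x hx y hy l
    simp only [mixed (f := fun z u => F z u ^ 2) (hF.cd hx hy)] at hsp
    simp only [Matrix.mulVec, dotProduct, A, Matrix.of_apply]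
    have e3 : ∑ i, pd l (pd i Q) y * G x y i = 2 * ∑ i : Fin n,
          (1 / 2 : ℝ) * fderiv ℝ (fun w => fderiv ℝ (fun u => F x u ^ 2) w
              (Pi.single i (1 : ℝ) : Fin n → ℝ)) y (Pi.single l (1 : ℝ) : Fin n → ℝ)
            * G x y i := by
      rw [Finset.mul_sum]
      refine Finset.sum_congr rfl fun i _ => ?_
      unfold pd
      ring
    rw [e3, hsp, hR]
    unfold pd
    ring
  have h5 := congrArg (fun v => (A Q y)⁻¹ *ᵥ v) h1
  simp only [Matrix.mulVec_mulVec,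
    Matrix.nonsing_inv_mul (A Q y) (isUnit_iff_ne_zero.2 (A_det_pos hQ hy).ne'),
    Matrix.one_mulVec] at h5
  have h6 := congrFun h5 i
  rw [h6]
  simp only [Matrix.mulVec, dotProduct, P]

theorem pd_scale {f : (Fin n → ℝ) → ℝ} (hf : Sm f) (c : ℝ) (k : Fin n) {y : Fin n → ℝ}
    (hy : y ≠ 0) : pd k (fun y => c * f y) y = c * pd k f y := pd_const_mul hf c k hy

theorem P_scale {Q : (Fin n → ℝ) → ℝ} (hQ : MN Q) {c : ℝ} (hc : c ≠ 0) {y : Fin n → ℝ}
    (hy : y ≠ 0) (i j : Fin n) : P (fun u => c * Q u) i j y = c⁻¹ * P Q i j y := by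
  have h1 : A (fun u => c * Q u) y = c • A Q y := by
    ext a b
    simp only [A, Matrix.of_apply, Matrix.smul_apply, smul_eq_mul]
    rw [pd_congr (fun z hz => pd_scale hQ.sm c b hz) a hy, pd_scale (hQ.sm.pd b) c a hy]
  have hd := (A_det_pos hQ hy).ne'
  have h2 : (A (fun u => c * Q u) y)⁻¹ = c⁻¹ • (A Q y)⁻¹ := by
    apply Matrix.inv_eq_left_inv
    rw [h1, Matrix.smul_mul, Matrix.mul_smul,
      Matrix.nonsing_inv_mul _ (isUnit_iff_ne_zero.2 hd), smul_smul, inv_mul_cancel₀ hc, one_smul]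
  unfold P
  rw [h2]; rfl

theorem main_conf (hleg : S_leg) (hjac : S_jac) (hdei : S_dei)
    {U : Set (Fin n → ℝ)} {F Fh : (Fin n → ℝ) → (Fin n → ℝ) → ℝ}
    {G Gh : (Fin n → ℝ) → (Fin n → ℝ) → (Fin n → ℝ)} {σ : (Fin n → ℝ) → ℝ}
    (hF : IsFinsler U F) (hFh : IsFinsler U Fh) (hG : IsSpray U F G) (hGh : IsSpray U Fh Gh)
    (hσ : ∀ x ∈ U, DifferentiableAt ℝ σ x)
    (hc : ∀ x ∈ U, ∀ y, F x y = Real.exp (σ x) * Fh x y)
    (hJ : ∀ x ∈ U, ∀ y : Fin n → ℝ, y ≠ 0 → ∀ l, meanLandsberg F G x y l = 0)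
    (hJh : ∀ x ∈ U, ∀ y : Fin n → ℝ, y ≠ 0 → ∀ l, meanLandsberg Fh Gh x y l = 0)
    {x : Fin n → ℝ} (hx : x ∈ U) {y : Fin n → ℝ} (hy : y ≠ 0) :
    (∀ i j k l, berwald G x y i j k l = berwald Gh x y i j k l) ∧
    (fderiv ℝ σ x ≠ 0 → ∀ i j k, pd k (pd i (pd j (fun u => F x u ^ 2))) y = 0) := by
  set Q : (Fin n → ℝ) → ℝ := fun u => Fh x u ^ 2 with hQdef
  have hQ : MN Q := hFh.mn hx
  set s : Fin n → ℝ := fun k => fderiv ℝ σ x (Pi.single k (1 : ℝ)) with hs
  set c : ℝ := Real.exp (σ x) ^ 2 with hcdef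
  have hc0 : c ≠ 0 := by positivity
  have hFQ : (fun u => F x u ^ 2) = fun u => c * Q u := by
    ext u; rw [hc x hx u, hcdef, hQdef]; ring
  set quad : Fin n → (Fin n → ℝ) → ℝ := fun i z =>
    ∑ k, ∑ j, (s k * (if i = j then 1 else 0)) * z k * z j with hquad
  have hquad_sm : ∀ i, Sm (quad i) := fun i => Sm.sum fun k _ => Sm.sum fun j _ =>
    ((sm_const _).mul (sm_coord k)).mul (sm_coord j)
  have hquad_eq : ∀ i z, quad i z = (∑ k, s k * z k) * z i := by
    intro i z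
    rw [hquad]
    simp only [Finset.sum_mul]
    refine Finset.sum_congr rfl fun k _ => ?_
    have b2 : ∀ j, s k * (if i = j then 1 else 0) * z k * z j =
        (if i = j then 1 else 0) * (s k * z k * z j) := by intro j; ring
    simp only [b2]
    simp
  set Z : Fin n → (Fin n → ℝ) → ℝ := fun i z => quad i z + Gh x z i - G x z i with hZdef
  have hGs : ∀ i, Sm (fun z => G x z i) := fun i => spray_sm hF hG hx i
  have hGhs : ∀ i, Sm (fun z => Gh x z i) := fun i => spray_sm hFh hGh hx i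
  have hZs : ∀ i, Sm (Z i) := fun i => ((hquad_sm i).add (hGhs i)).sub (hGs i)
  have hA : ∀ z, z ≠ 0 → ∀ l, ∑ i, pd i (pd l Q) z * Z i z = Q z * s l := by
    intro z hz l
    have hsp := hG x hx z hz l
    have hsph := hGh x hx z hz l
    -- x-derivatives of `F²`
    have hE : DifferentiableAt ℝ (fun z' => Real.exp (σ z') ^ 2) x :=
      ((hσ x hx).exp).pow 2
    have hE' : ∀ b, fderiv ℝ (fun z' => Real.exp (σ z') ^ 2) x b = 2 * c * fderiv ℝ σ x b := by
      intro b
      have h1 : HasFDerivAt (fun z' => Real.exp (σ z')) (Real.exp (σ x) • fderiv ℝ σ x) x :=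
        (hσ x hx).hasFDerivAt.exp
      have h2 := h1.pow 2
      have h3 : fderiv ℝ (fun z' => Real.exp (σ z') ^ 2) x = _ := h2.fderiv
      rw [h3]
      simp only [_root_.smul_apply, smul_eq_mul, hcdef]
      norm_num
      ring
    have hUx : ∀ᶠ z' in 𝓝 x, z' ∈ U := hF.isOpen.mem_nhds hx
    have e0 : ∀ b, fderiv ℝ (fun z' => F z' z ^ 2) x b =
        2 * c * fderiv ℝ σ x b * Q z + c * fderiv ℝ (fun z' => Fh z' z ^ 2) x b := by
      intro b
      have h1 : (fun z' => F z' z ^ 2) =ᶠ[𝓝 x] fun z' => Real.exp (σ z') ^ 2 * Fh z' z ^ 2 := by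
        filter_upwards [hUx] with z' hz'
        rw [hc z' hz' z]; ring
      have h2 : DifferentiableAt ℝ (fun z' => Fh z' z ^ 2) x := by
        have ha : DifferentiableAt ℝ (fun p : (Fin n → ℝ) × (Fin n → ℝ) => Fh p.1 p.2 ^ 2)
            (x, z) := (hFh.cd hx hz).differentiableAt (by simp)
        have hb : DifferentiableAt ℝ (fun z' : Fin n → ℝ => (z', z)) x :=
          differentiableAt_id.prodMk (differentiableAt_const z)
        exact (show DifferentiableAt ℝ (fun p : (Fin n → ℝ) × (Fin n → ℝ) => Fh p.1 p.2 ^ 2)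
            ((fun z' : Fin n → ℝ => (z', z)) x) from ha).comp x hb
      rw [h1.fderiv_eq, fderiv_fun_mul hE h2]
      simp only [_root_.add_apply, _root_.smul_apply, smul_eq_mul, hE', hQdef]
      ring
    have e1 : ∀ a b, fderiv ℝ (fun z' => fderiv ℝ (fun u => F z' u ^ 2) z a) x b =
        2 * c * fderiv ℝ σ x b * fderiv ℝ Q z a +
          c * fderiv ℝ (fun z' => fderiv ℝ (fun u => Fh z' u ^ 2) z a) x b := by
      intro a b
      have h1 : (fun z' => fderiv ℝ (fun u => F z' u ^ 2) z a) =ᶠ[𝓝 x]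
          fun z' => Real.exp (σ z') ^ 2 * fderiv ℝ (fun u => Fh z' u ^ 2) z a := by
        filter_upwards [hUx] with z' hz'
        have h2 : (fun u => F z' u ^ 2) = fun u => Real.exp (σ z') ^ 2 * Fh z' u ^ 2 := by
          ext u; rw [hc z' hz' u]; ring
        rw [h2, fderiv_const_mul ((hFh.mn hz').sm.diff hz)]
        rfl
      rw [h1.fderiv_eq, fderiv_fun_mul hE (diff_x (f := fun z u => Fh z u ^ 2) (hFh.cd hx hz) a)]
      simp only [_root_.add_apply, _root_.smul_apply, smul_eq_mul, hE', hQdef]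
      ring
    -- rewrite the two spray equations
    have k1 : ∑ i, pd i (pd l Q) z * Gh x z i = (1 / 2 : ℝ) * ((∑ k : Fin n,
          fderiv ℝ (fun z' => fderiv ℝ (fun u => Fh z' u ^ 2) z
            (Pi.single l (1 : ℝ) : Fin n → ℝ)) x (Pi.single k (1 : ℝ) : Fin n → ℝ) * z k)
        - fderiv ℝ (fun z' => Fh z' z ^ 2) x (Pi.single l (1 : ℝ) : Fin n → ℝ)) := by
      have e3 : ∑ i, pd i (pd l Q) z * Gh x z i = 2 * ∑ i : Fin n,
          (1 / 2 : ℝ) * fderiv ℝ (fun w => fderiv ℝ (fun u => Fh x u ^ 2) w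
              (Pi.single i (1 : ℝ) : Fin n → ℝ)) z (Pi.single l (1 : ℝ) : Fin n → ℝ)
            * Gh x z i := by
        rw [Finset.mul_sum]
        refine Finset.sum_congr rfl fun i _ => ?_
        rw [pd2_symm hQ i l hz]
        unfold pd
        ring
      rw [e3, hsph]; ring
    have k2 : c * ∑ i, pd i (pd l Q) z * G x z i = (1 / 2 : ℝ) * ((∑ k : Fin n,
          fderiv ℝ (fun z' => fderiv ℝ (fun u => F z' u ^ 2) z
            (Pi.single l (1 : ℝ) : Fin n → ℝ)) x (Pi.single k (1 : ℝ) : Fin n → ℝ) * z k)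
        - fderiv ℝ (fun z' => F z' z ^ 2) x (Pi.single l (1 : ℝ) : Fin n → ℝ)) := by
      have e3 : c * ∑ i, pd i (pd l Q) z * G x z i = 2 * ∑ i : Fin n,
          (1 / 2 : ℝ) * fderiv ℝ (fun w => fderiv ℝ (fun u => F x u ^ 2) w
              (Pi.single i (1 : ℝ) : Fin n → ℝ)) z (Pi.single l (1 : ℝ) : Fin n → ℝ)
            * G x z i := by
        rw [Finset.mul_sum, Finset.mul_sum]
        refine Finset.sum_congr rfl fun i _ => ?_
        rw [hFQ]
        have h7 : fderiv ℝ (fun w => fderiv ℝ (fun u => c * Q u) w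
              (Pi.single i (1 : ℝ) : Fin n → ℝ)) z (Pi.single l (1 : ℝ) : Fin n → ℝ) =
            c * pd l (pd i Q) z := by
          have h8 := pd_congr (fun z hz => pd_scale hQ.sm c i hz) l hz
          rw [pd_scale (hQ.sm.pd i) c l hz] at h8
          exact h8
        rw [h7, pd2_symm hQ i l hz]
        ring
      rw [e3, hsp]; ring
    simp only [e1, e0] at k2
    have k3 : (∑ k, (2 * c * fderiv ℝ σ x (Pi.single k (1 : ℝ)) *
          fderiv ℝ Q z (Pi.single l (1 : ℝ)) +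
          c * fderiv ℝ (fun z' => fderiv ℝ (fun u => Fh z' u ^ 2) z
            (Pi.single l (1 : ℝ) : Fin n → ℝ)) x (Pi.single k (1 : ℝ) : Fin n → ℝ)) * z k) =
        2 * c * (∑ k, s k * z k) * pd l Q z + c * ∑ k : Fin n,
          fderiv ℝ (fun z' => fderiv ℝ (fun u => Fh z' u ^ 2) z
            (Pi.single l (1 : ℝ) : Fin n → ℝ)) x (Pi.single k (1 : ℝ) : Fin n → ℝ) * z k := by
      rw [Finset.mul_sum, Finset.sum_mul, Finset.mul_sum, ← Finset.sum_add_distrib]
      refine Finset.sum_congr rfl fun k _ => ?_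
      simp only [hs, pd]
      ring
    rw [k3] at k2
    have k4 : ∑ i, pd i (pd l Q) z * quad i z = (∑ k, s k * z k) * pd l Q z := by
      simp only [hquad_eq]
      rw [← euler2 hQ l hz, Finset.mul_sum]
      exact Finset.sum_congr rfl fun i _ => by ring
    have k5 : ∑ i, pd i (pd l Q) z * Z i z = ∑ i, pd i (pd l Q) z * quad i z +
        ∑ i, pd i (pd l Q) z * Gh x z i - ∑ i, pd i (pd l Q) z * G x z i := by
      rw [← Finset.sum_add_distrib, ← Finset.sum_sub_distrib]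
      exact Finset.sum_congr rfl fun i _ => by rw [hZdef]; ring
    have k6 : ∑ i, pd i (pd l Q) z * G x z i = (∑ k, s k * z k) * pd l Q z +
        ∑ i, pd i (pd l Q) z * Gh x z i - s l * Q z := by
      apply mul_left_cancel₀ hc0
      rw [k2, k1]
      simp only [hs]
      ring
    rw [k5, k4, k6]; ring
  have h3 : ∀ z, z ≠ 0 → ∀ i j k l, pd j (pd k (pd l (Z i))) z =
      berwald Gh x z i j k l - berwald G x z i j k l := by
    intro z hz i j k l
    have c1 : ∀ u : Fin n → ℝ, u ≠ 0 → pd l (Z i) u =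
        pd l (quad i) u + pd l (fun z => Gh x z i) u - pd l (fun z => G x z i) u := fun u hu => by
      rw [hZdef]
      simp only
      rw [pd_sub ((hquad_sm i).add (hGhs i)) (hGs i) l hu, pd_add (hquad_sm i) (hGhs i) l hu]
    have c2 : ∀ u : Fin n → ℝ, u ≠ 0 → pd k (pd l (Z i)) u =
        pd k (pd l (quad i)) u + pd k (pd l (fun z => Gh x z i)) u -
          pd k (pd l (fun z => G x z i)) u := fun u hu => by
      rw [pd_congr c1 k hu, pd_sub (((hquad_sm i).pd l).add ((hGhs i).pd l)) ((hGs i).pd l) k hu,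
        pd_add ((hquad_sm i).pd l) ((hGhs i).pd l) k hu]
    have c3 : pd j (pd k (pd l (Z i))) z =
        pd j (pd k (pd l (quad i))) z + pd j (pd k (pd l (fun z => Gh x z i))) z -
          pd j (pd k (pd l (fun z => G x z i))) z := by
      rw [pd_congr c2 j hz, pd_sub ((((hquad_sm i).pd l).pd k).add (((hGhs i).pd l).pd k))
        (((hGs i).pd l).pd k) j hz, pd_add (((hquad_sm i).pd l).pd k) (((hGhs i).pd l).pd k) j hz]
    have c4 : pd j (pd k (pd l (quad i))) z = 0 := pd3_quad _ j k l hz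
    rw [c3, c4, zero_add]
    rfl
  have hL : ∀ z, z ≠ 0 → ∀ l, ∑ j, ∑ k, P Q j k z *
      ∑ i, pd i Q z * pd l (pd k (pd j (Z i))) z = 0 := by
    intro z hz l
    have hFmn : MN (fun u => F x u ^ 2) := hF.mn hx
    have m1 := mean_iff x z hFmn hz l (hJ x hx z hz l)
    have m2 := mean_iff x z hQ hz l (hJh x hx z hz l)
    rw [hFQ] at m1
    have m3 : ∑ j, ∑ k, P Q j k z * ∑ i, pd i Q z * berwald G x z i j k l = 0 := by
      rw [← m1]
      refine Finset.sum_congr rfl fun j _ => Finset.sum_congr rfl fun k _ => ?_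
      rw [P_scale hQ hc0 hz]
      have : ∑ i, pd i (fun u => c * Q u) z * berwald G x z i j k l =
          c * ∑ i, pd i Q z * berwald G x z i j k l := by
        rw [Finset.mul_sum]
        refine Finset.sum_congr rfl fun i _ => ?_
        rw [pd_scale hQ.sm c i hz]; ring
      rw [this]
      field_simp
    have m4 : ∑ j, ∑ k, P Q j k z * ∑ i, pd i Q z * pd l (pd k (pd j (Z i))) z =
        ∑ j, ∑ k, P Q j k z * ∑ i, pd i Q z * berwald Gh x z i j k l -
        ∑ j, ∑ k, P Q j k z * ∑ i, pd i Q z * berwald G x z i j k l := by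
      rw [← Finset.sum_sub_distrib]
      refine Finset.sum_congr rfl fun j _ => ?_
      rw [← Finset.sum_sub_distrib]
      refine Finset.sum_congr rfl fun k _ => ?_
      rw [← mul_sub, ← Finset.sum_sub_distrib]
      congr 1
      refine Finset.sum_congr rfl fun i _ => ?_
      rw [← mul_sub, ← h3 z hz i j k l]
      congr 1
      rw [pd_comm ((hZs i).pd j) l k hz, pd_congr (fun u hu => pd_comm (hZs i) l j hu) k hz,
        pd_comm ((hZs i).pd l) k j hz]
    rw [m4, m3, sub_zero]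
    exact m2
  refine ⟨fun i j k l => ?_, fun hne i j k => ?_⟩
  · have := h3 y hy i j k l
    rw [Z3 hleg hjac hdei hQ s Z hA hL hy i j k l] at this
    linarith
  · have hs0 : s ≠ 0 := by
      intro h0
      apply hne
      ext v
      rw [fderiv_eq_sum]
      have : ∀ k, pd k σ x = 0 := fun k => congrFun h0 k
      simp [this]
    rw [hFQ, pd_congr (fun z hz => pd_congr (fun z hz => pd_scale hQ.sm c j hz) i hz) k hy,
      pd_congr (fun z hz => pd_scale (hQ.sm.pd j) c i hz) k hy,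
      pd_scale ((hQ.sm.pd j).pd i) c k hy,
      fibre hQ s Z hZs hA hL hleg hjac hdei hs0 hy i j k, mul_zero]

end Pool.Agent.R774.BW
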