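import Pool.Agent.R774.BW.DeiMat

/-! # Project BW, BW-DEI: Deicke's theorem by integration -/

set_option autoImplicit false

open scoped BigOperators ContDiff Topology
open Filter Set

namespace Pool.Agent.R774.BW.X

variable {n : ℕ} {Q : (Fin n → ℝ) → ℝ}

theorem c3 {f : (Fin n → ℝ) → ℝ} (hf : Sm f) (v i j : Fin n) {y : Fin n → ℝ} (hy : y ≠ 0) :
    pd v (pd i (pd j f)) y = pd i (pd j (pd v f)) y := by
  rw [pd_comm (hf.pd j) v i hy]
  exact pd_congr (fun z hz => pd_comm hf v j hz) i hy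

theorem c4 (hQ : MN Q) (v i j : Fin n) {y : Fin n → ℝ} (hy : y ≠ 0) :
    pd v (pd v (pd i (pd j Q))) y = pd i (pd j (pd v (pd v Q))) y := by
  rw [pd_congr (fun z hz => c3 hQ.sm v i j hz) v hy]
  exact c3 (hQ.sm.pd v) v i j hy

/-- the rows of `P` are divergence free -/
theorem div0 (hQ : MN Q) (ht : ∀ y, y ≠ 0 → ∀ k, th Q k y = 0) (j : Fin n) {y : Fin n → ℝ}
    (hy : y ≠ 0) : ∑ i, pd i (P Q i j) y = 0 := by
  have h1 : ∀ b, ∑ i, ∑ a, P Q i a y * pd i (pd a (pd b Q)) y = 0 := by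
    intro b
    rw [← ht y hy b]
    unfold th
    refine Finset.sum_congr rfl fun i _ => Finset.sum_congr rfl fun a _ => ?_
    rw [c3 hQ.sm b i a hy]
  have h2 : ∀ i, pd i (P Q i j) y =
      - ∑ b, (∑ a, P Q i a y * pd i (pd a (pd b Q)) y) * P Q b j y := by
    intro i
    rw [pd_P hQ i i j hy, Finset.sum_comm]
    congr 1
    exact Finset.sum_congr rfl fun b _ => by rw [Finset.sum_mul]
  simp only [h2]
  rw [Finset.sum_neg_distrib, Finset.sum_comm, neg_eq_zero]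
  refine Finset.sum_eq_zero fun b _ => ?_
  rw [← Finset.sum_mul, h1 b, zero_mul]

/-- the quadratic form in the Cartan tensor -/
noncomputable def N (Q : (Fin n → ℝ) → ℝ) (v : Fin n) (y : Fin n → ℝ) : ℝ :=
  ∑ i, ∑ j, (∑ a, ∑ b, P Q i a y * pd v (pd a (pd b Q)) y * P Q b j y) * pd v (pd i (pd j Q)) y

theorem tr0 (hQ : MN Q) (ht : ∀ y, y ≠ 0 → ∀ k, th Q k y = 0) (v : Fin n) {y : Fin n → ℝ}
    (hy : y ≠ 0) : ∑ i, ∑ j, P Q i j y * pd i (pd j (pd v (pd v Q))) y = N Q v y := by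
  have hB : ∀ i j, Sm (pd v (pd i (pd j Q))) := fun i j => ((hQ.sm.pd j).pd i).pd v
  have h0 : pd v (th Q v) y = 0 := by
    rw [pd_congr (g := fun _ => (0 : ℝ)) (fun z hz => ht z hz v) v hy, pd_const]
  have h1 : pd v (th Q v) y = ∑ i, ∑ j, (pd v (P Q i j) y * pd v (pd i (pd j Q)) y +
      P Q i j y * pd v (pd v (pd i (pd j Q))) y) := by
    unfold th
    rw [pd_sum (fun i _ => Sm.sum fun j _ => (P_sm hQ i j).mul (hB i j)) v hy]
    refine Finset.sum_congr rfl fun i _ => ?_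
    rw [pd_sum (fun j _ => (P_sm hQ i j).mul (hB i j)) v hy]
    exact Finset.sum_congr rfl fun j _ => pd_mul (P_sm hQ i j) (hB i j) v hy
  rw [h0] at h1
  have h2 : ∀ i j, pd v (P Q i j) y * pd v (pd i (pd j Q)) y +
      P Q i j y * pd v (pd v (pd i (pd j Q))) y =
      P Q i j y * pd i (pd j (pd v (pd v Q))) y -
      (∑ a, ∑ b, P Q i a y * pd v (pd a (pd b Q)) y * P Q b j y) * pd v (pd i (pd j Q)) y := by
    intro i j
    rw [pd_P hQ v i j hy, c4 hQ v i j hy]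
    ring
  simp only [h2, Finset.sum_sub_distrib] at h1
  unfold N
  linarith

/-- the vector field -/
noncomputable def V (Q : (Fin n → ℝ) → ℝ) (v i : Fin n) (y : Fin n → ℝ) : ℝ :=
  ∑ j, P Q i j y * pd j (pd v (pd v Q)) y

theorem V_sm (hQ : MN Q) (v i : Fin n) : Sm (V Q v i) :=
  Sm.sum fun j _ => (P_sm hQ i j).mul (((hQ.sm.pd v).pd v).pd j)

theorem divV (hQ : MN Q) (ht : ∀ y, y ≠ 0 → ∀ k, th Q k y = 0) (v : Fin n) {y : Fin n → ℝ}
    (hy : y ≠ 0) : ∑ i, pd i (V Q v i) y = N Q v y := by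
  have hu : ∀ j, Sm (pd j (pd v (pd v Q))) := fun j => ((hQ.sm.pd v).pd v).pd j
  have h1 : ∀ i, pd i (V Q v i) y = ∑ j, (pd i (P Q i j) y * pd j (pd v (pd v Q)) y +
      P Q i j y * pd i (pd j (pd v (pd v Q))) y) := by
    intro i
    unfold V
    rw [pd_sum (fun j _ => (P_sm hQ i j).mul (hu j)) i hy]
    exact Finset.sum_congr rfl fun j _ => pd_mul (P_sm hQ i j) (hu j) i hy
  simp only [h1, Finset.sum_add_distrib]
  rw [tr0 hQ ht v hy, Finset.sum_comm]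
  rw [Finset.sum_eq_zero (fun j _ => ?_), zero_add]
  rw [← Finset.sum_mul, div0 hQ ht j hy, zero_mul]

theorem gradV (hQ : MN Q) (v : Fin n) {y : Fin n → ℝ} (hy : y ≠ 0) :
    ∑ i, pd i Q y * V Q v i y = 0 := by
  have h1 : ∀ j, ∑ i, pd i Q y * P Q i j y = y j := by
    intro j
    have h2 : ∀ i, pd i Q y * P Q i j y = ∑ k, y k * (P Q j i y * pd i (pd k Q) y) := by
      intro i
      rw [← euler2 hQ i hy, Finset.sum_mul]
      refine Finset.sum_congr rfl fun k _ => ?_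
      rw [P_symm hQ hy i j, pd_comm hQ.sm k i hy]
      ring
    simp only [h2]
    rw [Finset.sum_comm]
    have h3 : ∀ k, ∑ i, y k * (P Q j i y * pd i (pd k Q) y) = y k * if j = k then 1 else 0 := by
      intro k
      rw [← Finset.mul_sum, P_mul_A hQ hy j k]
    simp [h3]
  have h4 : ∑ i, pd i Q y * V Q v i y = ∑ j, y j * pd j (pd v (pd v Q)) y := by
    unfold V
    simp only [Finset.mul_sum]
    rw [Finset.sum_comm]
    refine Finset.sum_congr rfl fun j _ => ?_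
    rw [← h1 j, Finset.sum_mul]
    exact Finset.sum_congr rfl fun i _ => by ring
  rw [h4]
  exact euler3 hQ v v hy

theorem pd_comp (hQ : MN Q) {χ : ℝ → ℝ} (hχ : ContDiff ℝ ∞ χ) (i : Fin n) {y : Fin n → ℝ}
    (hy : y ≠ 0) : pd i (fun y => χ (Q y)) y = deriv χ (Q y) * pd i Q y := by
  have h1 : HasFDerivAt (fun y => χ (Q y)) (deriv χ (Q y) • fderiv ℝ Q y) y :=
    ((hχ.differentiable (by simp)) (Q y)).hasDerivAt.comp_hasFDerivAt y
      (hQ.sm.diff hy).hasFDerivAt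
  unfold pd
  rw [h1.fderiv]
  rfl

theorem sm_comp (hQ : MN Q) {χ : ℝ → ℝ} (hχ : ContDiff ℝ ∞ χ) : Sm (fun y => χ (Q y)) :=
  fun y hy => (hχ.contDiffAt).comp y (hQ.sm y hy)

theorem divG (hQ : MN Q) (ht : ∀ y, y ≠ 0 → ∀ k, th Q k y = 0) {χ : ℝ → ℝ}
    (hχ : ContDiff ℝ ∞ χ) (v : Fin n) {y : Fin n → ℝ} (hy : y ≠ 0) :
    ∑ i, pd i (fun y => χ (Q y) * V Q v i y) y = χ (Q y) * N Q v y := by
  have h1 : ∀ i, pd i (fun y => χ (Q y) * V Q v i y) y =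
      deriv χ (Q y) * (pd i Q y * V Q v i y) + χ (Q y) * pd i (V Q v i) y := by
    intro i
    rw [pd_mul (sm_comp hQ hχ) (V_sm hQ v i) i hy, pd_comp hQ hχ i hy]
    ring
  simp only [h1]
  rw [Finset.sum_add_distrib, ← Finset.mul_sum, ← Finset.mul_sum, gradV hQ v hy, divV hQ ht v hy]
  ring

/-- bounds for `Q` -/
theorem bounds (hQ : MN Q) : ∃ M : ℝ, 0 < M ∧ ∀ y, y ≠ 0 → Q y ≤ M * ‖y‖ ^ 2 ∧
    ‖y‖ ^ 2 ≤ M * Q y := by
  have hc : IsCompact (Metric.sphere (0 : Fin n → ℝ) 1) := isCompact_sphere _ _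
  have h0 : ∀ y ∈ Metric.sphere (0 : Fin n → ℝ) 1, y ≠ 0 := by
    rintro y hy rfl
    simp at hy
  have hcont : ContinuousOn Q (Metric.sphere (0 : Fin n → ℝ) 1) := fun y hy =>
    (hQ.sm y (h0 y hy)).continuousAt.continuousWithinAt
  obtain ⟨C1, h1⟩ := hc.exists_bound_of_continuousOn hcont
  obtain ⟨C2, h2⟩ := hc.exists_bound_of_continuousOn
    (hcont.inv₀ fun y hy => (hQ.pos y (h0 y hy)).ne')
  refine ⟨max 1 (max C1 C2), lt_max_of_lt_left one_pos, fun y hy => ?_⟩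
  have hn : 0 < ‖y‖ := norm_pos_iff.2 hy
  have hs : ‖y‖⁻¹ • y ∈ Metric.sphere (0 : Fin n → ℝ) 1 := by
    rw [mem_sphere_zero_iff_norm, norm_smul, norm_inv, norm_norm, inv_mul_cancel₀ hn.ne']
  have e : Q y = ‖y‖ ^ 2 * Q (‖y‖⁻¹ • y) := by
    rw [← hQ.hom _ (h0 _ hs) _ hn, smul_smul, mul_inv_cancel₀ hn.ne', one_smul]
  have hp := hQ.pos _ (h0 _ hs)
  have h3 := h1 _ hs
  have h4 := h2 _ hs
  rw [Real.norm_eq_abs, abs_of_pos hp] at h3
  rw [Pi.inv_apply, Real.norm_eq_abs, abs_of_pos (inv_pos.2 hp)] at h4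
  have h5 : C1 ≤ max 1 (max C1 C2) := (le_max_left _ _).trans (le_max_right _ _)
  have h6 : C2 ≤ max 1 (max C1 C2) := (le_max_right _ _).trans (le_max_right _ _)
  generalize max 1 (max C1 C2) = M at *
  constructor
  · rw [e, mul_comm M]
    exact mul_le_mul_of_nonneg_left (h3.trans h5) (by positivity)
  · rw [e]
    have h7 : 1 ≤ M * Q (‖y‖⁻¹ • y) := by
      have := mul_le_mul_of_nonneg_right (h4.trans h6) hp.le
      rwa [inv_mul_cancel₀ hp.ne'] at this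
    have h8 := mul_le_mul_of_nonneg_left h7 (by positivity : 0 ≤ ‖y‖ ^ 2)
    linarith

/-- the cut off field -/
noncomputable def Y (Q : (Fin n → ℝ) → ℝ) (χ : ℝ → ℝ) (v i : Fin n) (y : Fin n → ℝ) : ℝ :=
  open Classical in if y = 0 then 0 else χ (Q y) * V Q v i y

theorem Y_ne (χ : ℝ → ℝ) (v i : Fin n) {y : Fin n → ℝ} (hy : y ≠ 0) :
    Y Q χ v i y = χ (Q y) * V Q v i y := by
  unfold Y
  rw [if_neg hy]

theorem Y_ev0 (hQ : MN Q) {χ : ℝ → ℝ} {α : ℝ} (hα : 0 < α) (h : ∀ t, t < α → χ t = 0)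
    (v i : Fin n) : Y Q χ v i =ᶠ[𝓝 0] fun _ => 0 := by
  obtain ⟨M, hM, hb⟩ := bounds hQ
  have h1 : Tendsto (fun y : Fin n → ℝ => M * ‖y‖ ^ 2) (𝓝 0) (𝓝 (M * ‖(0 : Fin n → ℝ)‖ ^ 2)) :=
    Continuous.tendsto (by fun_prop) 0
  rw [norm_zero] at h1
  have h2 : M * (0 : ℝ) ^ 2 < α := by
    rw [zero_pow two_ne_zero, mul_zero]
    exact hα
  filter_upwards [h1.eventually (gt_mem_nhds h2)] with y hy
  by_cases h0 : y = 0
  · unfold Y
    rw [if_pos h0]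
  · rw [Y_ne χ v i h0, h _ ((hb y h0).1.trans_lt hy), zero_mul]

theorem Y_sm (hQ : MN Q) {χ : ℝ → ℝ} (hχ : ContDiff ℝ ∞ χ) {α : ℝ} (hα : 0 < α)
    (h : ∀ t, t < α → χ t = 0) (v i : Fin n) : ContDiff ℝ ∞ (Y Q χ v i) := by
  rw [contDiff_iff_contDiffAt]
  intro y
  by_cases h0 : y = 0
  · rw [h0]
    exact contDiffAt_const.congr_of_eventuallyEq (Y_ev0 hQ hα h v i)
  · exact ((sm_comp hQ hχ).mul (V_sm hQ v i)).congr (fun z hz => Y_ne χ v i hz) y h0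

theorem Y_cpt (hQ : MN Q) {χ : ℝ → ℝ} {β : ℝ} (h : ∀ t, β < t → χ t = 0) (v i : Fin n) :
    HasCompactSupport (Y Q χ v i) := by
  obtain ⟨M, hM, hb⟩ := bounds hQ
  refine HasCompactSupport.intro (isCompact_closedBall (0 : Fin n → ℝ) (M * |β| + 1)) ?_
  intro y hy
  rw [mem_closedBall_zero_iff, not_le] at hy
  have h1 : 0 ≤ M * |β| := by positivity
  have h0 : y ≠ 0 := by
    rintro rfl
    rw [norm_zero] at hy
    linarith
  rw [Y_ne χ v i h0, h, zero_mul]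
  have h2 := (hb y h0).2
  have h3 : ‖y‖ ≤ ‖y‖ ^ 2 := by nlinarith
  have h4 : M * |β| < M * Q y := by linarith
  exact (le_abs_self β).trans_lt (lt_of_mul_lt_mul_left h4 hM.le)

theorem pd_Y_ne {χ : ℝ → ℝ} (v i : Fin n) {y : Fin n → ℝ} (hy : y ≠ 0) :
    pd i (Y Q χ v i) y = pd i (fun y => χ (Q y) * V Q v i y) y :=
  pd_congr (fun _ hz => Y_ne χ v i hz) i hy

theorem pd_Y_0 (hQ : MN Q) {χ : ℝ → ℝ} {α : ℝ} (hα : 0 < α) (h : ∀ t, t < α → χ t = 0)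
    (v i : Fin n) : pd i (Y Q χ v i) 0 = 0 := by
  unfold pd
  rw [(Y_ev0 hQ hα h v i).fderiv_eq, fderiv_fun_const]
  rfl

theorem N_eq (hQ : MN Q) (v : Fin n) {y : Fin n → ℝ} (hy : y ≠ 0) :
    N Q v y = ((A Q y)⁻¹ * Matrix.of (fun i j => pd v (pd i (pd j Q)) y) * (A Q y)⁻¹ *
      Matrix.of (fun i j => pd v (pd i (pd j Q)) y)).trace := by
  unfold N Matrix.trace
  refine Finset.sum_congr rfl fun i _ => ?_
  rw [Matrix.diag_apply, Matrix.mul_apply]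
  refine Finset.sum_congr rfl fun j _ => ?_
  rw [Matrix.of_apply, pd3_symm2 hQ v j i hy]
  congr 1
  rw [Matrix.mul_apply, Finset.sum_comm]
  refine Finset.sum_congr rfl fun b _ => ?_
  rw [Matrix.mul_apply, Finset.sum_mul]
  rfl

theorem N_all (hQ : MN Q) (v : Fin n) {y : Fin n → ℝ} (hy : y ≠ 0) :
    0 ≤ N Q v y ∧ (N Q v y = 0 → ∀ i j, pd v (pd i (pd j Q)) y = 0) := by
  have h := mat (A Q y)⁻¹ (Matrix.of (fun i j => pd v (pd i (pd j Q)) y)) (P_posDef hQ hy) (by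
    ext i j
    exact pd3_symm2 hQ v j i hy)
  rw [← N_eq hQ v hy] at h
  refine ⟨h.1, fun h0 i j => ?_⟩
  exact congrFun (congrFun (h.2 h0) i) j

end Pool.Agent.R774.BW.X

namespace Pool.Agent.R774.BW

open X in
theorem t_dei : S_dei := by
  intro n Q hQ ht y₀ hy₀ i₀ j₀ v
  have hp := hQ.pos y₀ hy₀
  obtain ⟨χ, hs, -, hχ, hr, h1⟩ := exists_contDiff_tsupport_subset (n := ⊤)
    (Ioo_mem_nhds (by linarith : Q y₀ / 2 < Q y₀) (by linarith : Q y₀ < 2 * Q y₀))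
  have hz : ∀ t, t ∉ Ioo (Q y₀ / 2) (2 * Q y₀) → χ t = 0 := fun t ht => by
    by_contra hne
    exact ht (hs (subset_tsupport _ hne))
  have hlo : ∀ t, t < Q y₀ / 2 → χ t = 0 := fun t ht => hz t fun h => absurd h.1 (not_lt.2 ht.le)
  have hhi : ∀ t, 2 * Q y₀ < t → χ t = 0 := fun t ht => hz t fun h => absurd h.2 (not_lt.2 ht.le)
  have hnn : ∀ t, 0 ≤ χ t := fun t => (hr (mem_range_self t)).1
  have hα : 0 < Q y₀ / 2 := by linarith
  have hd : ∀ y, y ≠ 0 → ∑ i, pd i (Y Q χ v i) y = χ (Q y) * N Q v y := fun y hy => by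
    rw [← divG hQ ht hχ v hy]
    exact Finset.sum_congr rfl fun i _ => pd_Y_ne v i hy
  have key := int_div (Y Q χ v) (fun i => Y_sm hQ hχ hα hlo v i) (fun i => Y_cpt hQ hhi v i)
    (fun y => by
      by_cases h0 : y = 0
      · rw [h0, Finset.sum_eq_zero fun i _ => pd_Y_0 hQ hα hlo v i]
      · rw [hd y h0]
        exact mul_nonneg (hnn _) (N_all hQ v h0).1) y₀
  rw [hd y₀ hy₀, h1, one_mul] at key
  exact (N_all hQ v hy₀).2 key i₀ j₀

end Pool.Agent.R774.BW
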