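import Pool.Agent.R774.BW.Base

/-! # Project BW, BW-DEI: the matrix lemma and the integral lemma -/

set_option autoImplicit false

open scoped BigOperators ContDiff Topology
open Filter Set

namespace Pool.Agent.R774.BW.X

section mat
open scoped MatrixOrder

theorem mat {n : ℕ} (P M : Matrix (Fin n) (Fin n) ℝ) (hP : P.PosDef) (hM : M.transpose = M) :
    0 ≤ (P * M * P * M).trace ∧ ((P * M * P * M).trace = 0 → M = 0) := by
  obtain ⟨y, hy, rfl⟩ := CStarAlgebra.isStrictlyPositive_iff_eq_star_mul_self.mp
    hP.isStrictlyPositive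
  have hM' : star M = M := by
    rw [Matrix.star_eq_conjTranspose, Matrix.conjTranspose_eq_transpose_of_trivial, hM]
  have e : (star y * y * M * (star y * y) * M).trace =
      ((y * M * star y).conjTranspose * (y * M * star y)).trace := by
    have h1 : (y * M * star y).conjTranspose = y * M * star y := by
      rw [← Matrix.star_eq_conjTranspose, star_mul, star_mul, star_star, hM', mul_assoc]
    have h2 : star y * y * M * (star y * y) * M = star y * (y * M * star y * (y * M)) := by
      simp only [mul_assoc]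
    rw [h1, h2, Matrix.trace_mul_comm]
    congr 1
    simp only [mul_assoc]
  rw [e]
  refine ⟨(Matrix.posSemidef_conjTranspose_mul_self _).trace_nonneg, fun h => ?_⟩
  rw [Matrix.trace_conjTranspose_mul_self_eq_zero_iff] at h
  rw [hy.star.mul_left_eq_zero, hy.mul_right_eq_zero] at h
  exact h

end mat

open MeasureTheory in
theorem int_pd {n : ℕ} (k : Fin n) (f : (Fin n → ℝ) → ℝ) (hf : ContDiff ℝ ∞ f)
    (hc : HasCompactSupport f) : ∫ y, pd k f y = 0 := by
  have h1 : Continuous (fun y => fderiv ℝ f y (Pi.single k (1 : ℝ))) :=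
    (hf.continuous_fderiv (by simp)).clm_apply continuous_const
  have h2 : Integrable (fun y => fderiv ℝ f y (Pi.single k (1 : ℝ))) :=
    h1.integrable_of_hasCompactSupport (hc.fderiv_apply (𝕜 := ℝ) _)
  have h3 := integral_mul_fderiv_eq_neg_fderiv_mul_of_integrable
    (f := fun _ : Fin n → ℝ => (1 : ℝ)) (g := f) (v := (Pi.single k (1 : ℝ) : Fin n → ℝ))
    (μ := volume) (by simp) (by simpa using h2)
    (by simpa using hf.continuous.integrable_of_hasCompactSupport hc)
    (fun x _ => differentiableAt_const _)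
    (fun x _ => hf.differentiable (by simp) x)
  simpa [pd] using h3

open MeasureTheory in
theorem int_div {n : ℕ} (Y : Fin n → (Fin n → ℝ) → ℝ) (hY : ∀ i, ContDiff ℝ ∞ (Y i))
    (hc : ∀ i, HasCompactSupport (Y i)) (h0 : ∀ y, 0 ≤ ∑ i, pd i (Y i) y) (y : Fin n → ℝ) :
    ∑ i, pd i (Y i) y = 0 := by
  by_contra hne
  have h1 : ∀ i, Continuous (pd i (Y i)) := fun i =>
    ((hY i).continuous_fderiv (by simp)).clm_apply continuous_const
  have h2 : ∀ i, HasCompactSupport (pd i (Y i)) := fun i => (hc i).fderiv_apply (𝕜 := ℝ) _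
  have h3 : ∀ i, Integrable (pd i (Y i)) := fun i =>
    (h1 i).integrable_of_hasCompactSupport (h2 i)
  have h4 : Integrable (fun y => ∑ i, pd i (Y i) y) := integrable_finsetSum _ fun i _ => h3 i
  have h5 : 0 < ∫ y, ∑ i, pd i (Y i) y :=
    integral_pos_of_integrable_nonneg_nonzero (continuous_finsetSum _ fun i _ => h1 i) h4
      (fun y => h0 y) hne
  rw [integral_finsetSum _ fun i _ => h3 i] at h5
  rw [Finset.sum_eq_zero fun i _ => int_pd i (Y i) (hY i) (hc i)] at h5
  exact lt_irrefl _ h5

end Pool.Agent.R774.BW.X
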