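import Pool.Agent.R774.BW.Conf

/-! # Project BW: generalized Berwald metrics of arbitrary torsion whose indicatrices have few
infinitesimal isometries -/

set_option autoImplicit false

open scoped BigOperators ContDiff Topology Matrix
open Filter Set

namespace Pool.Agent.R774.BW

variable {n : ℕ}

/-- `K` is an infinitesimal isometry of the norm `F(x,·)`: a vector field on `ℝ^n \ {0}` which is
smooth, positively homogeneous of degree one, and is a Killing field of the Hessian metric of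
`F(x,·)^2`: `Σ_m (K^m ∂_m Q_ij + Q_mj ∂_i K^m + Q_mi ∂_j K^m) = 0`, `Q = F(x,·)^2`. -/
def IsKilling (F : (Fin n → ℝ) → (Fin n → ℝ) → ℝ) (x : Fin n → ℝ)
    (K : (Fin n → ℝ) → Fin n → ℝ) : Prop :=
  (∀ m, ∀ y : Fin n → ℝ, y ≠ 0 → ContDiffAt ℝ ∞ (fun y => K y m) y) ∧
  (∀ y : Fin n → ℝ, y ≠ 0 → ∀ t : ℝ, 0 < t → K (t • y) = t • K y) ∧
  ∀ y : Fin n → ℝ, y ≠ 0 → ∀ i j : Fin n,
    ∑ m, (K y m * pd m (pd i (pd j (fun u => F x u ^ 2))) y +
      pd m (pd j (fun u => F x u ^ 2)) y * pd i (fun y => K y m) y +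
      pd m (pd i (fun u => F x u ^ 2)) y * pd j (fun y => K y m) y) = 0

theorem comm4 {f : (Fin n → ℝ) → ℝ} (hf : Sm f) (w i j v : Fin n) {y : Fin n → ℝ} (hy : y ≠ 0) :
    pd w (pd i (pd j (pd v f))) y = pd v (pd i (pd j (pd w f))) y := by
  have a1 : pd w (pd i (pd j (pd v f))) y = pd w (pd i (pd v (pd j f))) y :=
    pd_congr (fun z hz => pd_congr (fun z hz => pd_comm hf j v hz) i hz) w hy
  have a2 : pd w (pd i (pd v (pd j f))) y = pd w (pd v (pd i (pd j f))) y :=
    pd_congr (fun z hz => pd_comm (hf.pd j) i v hz) w hy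
  have a3 : pd w (pd v (pd i (pd j f))) y = pd v (pd w (pd i (pd j f))) y :=
    pd_comm ((hf.pd j).pd i) w v hy
  have a4 : pd v (pd w (pd i (pd j f))) y = pd v (pd i (pd w (pd j f))) y :=
    pd_congr (fun z hz => pd_comm (hf.pd j) w i hz) v hy
  have a5 : pd v (pd i (pd w (pd j f))) y = pd v (pd i (pd j (pd w f))) y :=
    pd_congr (fun z hz => pd_congr (fun z hz => pd_comm hf w j hz) i hz) v hy
  rw [a1, a2, a3, a4, a5]

/-- a `(-1)`-homogeneous function which is constant in a direction vanishes -/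
theorem null_dir (hn : 2 ≤ n) {b : (Fin n → ℝ) → ℝ} (hb : Sm b) (hh : Hom (-1) b)
    {c : Fin n → ℝ} (hc : c ≠ 0) (hd : ∀ y, y ≠ 0 → ∑ a, c a * pd a b y = 0)
    {y : Fin n → ℝ} (hy : y ≠ 0) : b y = 0 := by
  -- off the line spanned by `c`
  have h1 : ∀ y : Fin n → ℝ, (∀ t : ℝ, y + t • c ≠ 0) → b y = 0 := by
    intro y hy
    have hcst : ∀ t : ℝ, b (y + t • c) = b y := by
      have hder : ∀ t : ℝ, HasDerivAt (fun t : ℝ => b (y + t • c)) 0 t := by
        intro t
        have ha : HasFDerivAt b (fderiv ℝ b (y + t • c)) ((fun t : ℝ => y + t • c) t) :=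
          (hb.diff (hy t)).hasFDerivAt
        have hb' : HasDerivAt (fun t : ℝ => y + t • c) c t := by
          simpa using ((hasDerivAt_id t).smul_const c).const_add y
        have := ha.comp_hasDerivAt t hb'
        rw [fderiv_eq_sum, hd _ (hy t)] at this
        exact this
      intro t
      have := is_const_of_deriv_eq_zero (f := fun t : ℝ => b (y + t • c))
        (fun t => (hder t).differentiableAt) (fun t => (hder t).deriv) t 0
      simpa using this
    have hlim : Tendsto (fun t : ℝ => t⁻¹ * b (t⁻¹ • y + c)) atTop (𝓝 (0 * b c)) := by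
      have hi : Tendsto (fun t : ℝ => t⁻¹) atTop (𝓝 0) := tendsto_inv_atTop_zero
      refine hi.mul ?_
      have h2 : Tendsto (fun t : ℝ => t⁻¹ • y + c) atTop (𝓝 ((0:ℝ) • y + c)) :=
        (hi.smul_const y).add_const c
      rw [zero_smul, zero_add] at h2
      exact ((hb c hc).continuousAt.tendsto).comp h2
    rw [zero_mul] at hlim
    have hev : (fun t : ℝ => t⁻¹ * b (t⁻¹ • y + c)) =ᶠ[atTop] fun _ => b y := by
      filter_upwards [eventually_gt_atTop (0:ℝ)] with t ht
      have hne : t⁻¹ • y + c ≠ 0 := by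
        intro h0
        apply hy t
        have : t • (t⁻¹ • y + c) = y + t • c := by
          rw [smul_add, smul_smul, mul_inv_cancel₀ ht.ne', one_smul]
        rw [← this, h0, smul_zero]
      have h3 := hh _ hne t ht
      have h4 : t • (t⁻¹ • y + c) = y + t • c := by
        rw [smul_add, smul_smul, mul_inv_cancel₀ ht.ne', one_smul]
      rw [h4, hcst t] at h3
      rw [h3, zpow_neg, zpow_one]
    exact tendsto_nhds_unique (tendsto_const_nhds.congr' hev.symm) hlim
  by_cases hyc : ∀ t : ℝ, y + t • c ≠ 0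
  · exact h1 y hyc
  · push Not at hyc
    obtain ⟨t0, ht0⟩ := hyc
    have hyc' : y = (-t0) • c := by
      rw [neg_smul]; exact eq_neg_of_add_eq_zero_left ht0
    -- a vector outside the line
    obtain ⟨a, ha⟩ : ∃ a, c a ≠ 0 := by
      by_contra h; push Not at h; exact hc (funext h)
    obtain ⟨a', ha'⟩ : ∃ a' : Fin n, a' ≠ a := by
      haveI : Nontrivial (Fin n) := Fin.nontrivial_iff_two_le.2 hn
      exact exists_ne a
    set q : Fin n → ℝ := Pi.single a' (1:ℝ) with hq
    have hqc : ∀ e : ℝ, e ≠ 0 → ∀ s : ℝ, s • c + e • q ≠ 0 := by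
      intro e he s h0
      have e1 := congrFun h0 a
      have e2 := congrFun h0 a'
      simp only [Pi.add_apply, Pi.smul_apply, smul_eq_mul, hq, Pi.zero_apply,
        Pi.single_eq_of_ne ha'.symm, mul_zero, add_zero, Pi.single_eq_same, mul_one] at e1 e2
      have hs : s = 0 := (mul_eq_zero.1 e1).resolve_right ha
      rw [hs] at e2
      simp at e2
      exact he e2
    have h5 : ∀ e : ℝ, e ≠ 0 → b (y + e • q) = 0 := by
      intro e he
      apply h1
      intro t h0
      apply hqc e he (-t0 + t)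
      rw [← h0, hyc', add_smul]
      abel
    have h6 : Tendsto (fun e : ℝ => b (y + e • q)) (𝓝[≠] 0) (𝓝 (b y)) := by
      have h7 : Tendsto (fun e : ℝ => y + e • q) (𝓝 0) (𝓝 (y + (0:ℝ) • q)) :=
        (tendsto_id.smul_const q).const_add y
      rw [zero_smul, add_zero] at h7
      exact ((hb y hy).continuousAt.tendsto.comp h7).mono_left nhdsWithin_le_nhds
    have h8 : Tendsto (fun e : ℝ => b (y + e • q)) (𝓝[≠] 0) (𝓝 0) := by
      refine tendsto_const_nhds.congr' ?_
      filter_upwards [self_mem_nhdsWithin] with e he using (h5 e he).symm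
    exact tendsto_nhds_unique h6 h8

theorem main_few {U : Set (Fin n → ℝ)} {F : (Fin n → ℝ) → (Fin n → ℝ) → ℝ}
    {G : (Fin n → ℝ) → (Fin n → ℝ) → (Fin n → ℝ)}
    {Γ : (Fin n → ℝ) → Fin n → Fin n → Fin n → ℝ}
    (hF : IsFinsler U F) (hG : IsSpray U F G) (hΓ : Compatible U F Γ)
    {x : Fin n → ℝ} (hx : x ∈ U)
    (hK : ∀ K : Fin n → (Fin n → ℝ) → Fin n → ℝ, (∀ a, IsKilling F x (K a)) →
      ∃ c : Fin n → ℝ, c ≠ 0 ∧ ∀ y, y ≠ 0 → ∀ m, ∑ a, c a * K a y m = 0)
    (hL : ∀ y : Fin n → ℝ, y ≠ 0 → ∀ j k l, landsberg F G x y j k l = 0)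
    {y : Fin n → ℝ} (hy : y ≠ 0) (i j k l : Fin n) : berwald G x y i j k l = 0 := by
  set Q : (Fin n → ℝ) → ℝ := fun u => F x u ^ 2 with hQdef
  have hQ : MN Q := hF.mn hx
  set quad : Fin n → (Fin n → ℝ) → ℝ := fun i z =>
    ∑ k, ∑ j, Γ x k j i * z k * z j with hquad
  have hquad_sm : ∀ i, Sm (quad i) := fun i => Sm.sum fun k _ => Sm.sum fun j _ =>
    ((sm_const _).mul (sm_coord k)).mul (sm_coord j)
  have hGs : ∀ i, Sm (fun z => G x z i) := fun i => spray_sm hF hG hx i
  set H : Fin n → (Fin n → ℝ) → ℝ := fun i z => 2 * G x z i - quad i z with hHdef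
  have hHs : ∀ i, Sm (H i) := fun i => ((sm_const 2).mul (hGs i)).sub (hquad_sm i)
  set T : Fin n → Fin n → (Fin n → ℝ) → ℝ := fun v m z =>
    ∑ k, (Γ x k v m - Γ x v k m) * z k with hT
  have hTs : ∀ v m, Sm (T v m) := fun v m => lin_sm _
  -- the defining equation of `H`
  have hA : ∀ z, z ≠ 0 → ∀ l, ∑ i, pd i (pd l Q) z * H i z = ∑ m, T l m z * pd m Q z := by
    intro z hz l
    have hsp := hG x hx z hz l
    have hmix : ∀ k, fderiv ℝ (fun z' => fderiv ℝ (fun u => F z' u ^ 2) z
            (Pi.single l (1 : ℝ) : Fin n → ℝ)) x (Pi.single k (1 : ℝ) : Fin n → ℝ) =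
        ∑ m, Γ x k l m * pd m Q z + ∑ m, ∑ j, Γ x k j m * z j * pd l (pd m Q) z := by
      intro k
      rw [mixed (f := fun z u => F z u ^ 2) (hF.cd hx hz)]
      have e1 : fderiv ℝ (fun u => fderiv ℝ (fun z' => F z' u ^ 2) x
          (Pi.single k (1 : ℝ) : Fin n → ℝ)) z (Pi.single l (1 : ℝ) : Fin n → ℝ) =
          pd l (fun u => ∑ m, ∑ j, Γ x k j m * u j * pd m Q u) z :=
        pd_congr (fun u hu => hΓ x hx u hu k) l hz
      rw [e1, pd_sum (fun m _ => Sm.sum fun j _ =>
        ((sm_const _).mul (sm_coord j)).mul (hQ.sm.pd m)) l hz, ← Finset.sum_add_distrib]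
      refine Finset.sum_congr rfl fun m _ => ?_
      rw [pd_sum (fun j _ => ((sm_const _).mul (sm_coord j)).mul (hQ.sm.pd m)) l hz]
      have e2 : ∀ j, pd l (fun u => Γ x k j m * u j * pd m Q u) z =
          Γ x k j m * (if j = l then 1 else 0) * pd m Q z +
            Γ x k j m * z j * pd l (pd m Q) z := by
        intro j
        rw [pd_mul ((sm_const _).mul (sm_coord j)) (hQ.sm.pd m) l hz,
          pd_const_mul (sm_coord j) _ l hz, pd_coord]
      simp only [e2, Finset.sum_add_distrib]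
      simp
    have hx1 : fderiv ℝ (fun z' => F z' z ^ 2) x (Pi.single l (1 : ℝ) : Fin n → ℝ) =
        ∑ m, ∑ j, Γ x l j m * z j * pd m Q z := hΓ x hx z hz l
    simp only [hmix] at hsp
    rw [hx1] at hsp
    have hsp2 : 2 * ∑ i, pd i (pd l Q) z * G x z i =
        ((∑ k, (∑ m, Γ x k l m * pd m Q z + ∑ m, ∑ j, Γ x k j m * z j * pd l (pd m Q) z) * z k) -
          ∑ m, ∑ j, Γ x l j m * z j * pd m Q z) := by
      have e3 : ∑ i, pd i (pd l Q) z * G x z i = 2 * ∑ i : Fin n,
          (1 / 2 : ℝ) * fderiv ℝ (fun w => fderiv ℝ (fun u => F x u ^ 2) w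
              (Pi.single i (1 : ℝ) : Fin n → ℝ)) z (Pi.single l (1 : ℝ) : Fin n → ℝ)
            * G x z i := by
        rw [Finset.mul_sum]
        refine Finset.sum_congr rfl fun i _ => ?_
        rw [pd2_symm hQ i l hz]
        unfold pd
        ring
      rw [e3, hsp]; ring
    have h1 : (∑ k, (∑ m, Γ x k l m * pd m Q z) * z k) - ∑ m, ∑ j, Γ x l j m * z j * pd m Q z =
        ∑ m, T l m z * pd m Q z := by
      have a1 : (∑ k, (∑ m, Γ x k l m * pd m Q z) * z k) =
          ∑ m, ∑ k, Γ x k l m * z k * pd m Q z := by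
        simp only [Finset.sum_mul]
        rw [Finset.sum_comm]
        exact Finset.sum_congr rfl fun m _ => Finset.sum_congr rfl fun k _ => by ring
      rw [a1, ← Finset.sum_sub_distrib]
      refine Finset.sum_congr rfl fun m _ => ?_
      rw [← Finset.sum_sub_distrib, hT, Finset.sum_mul]
      exact Finset.sum_congr rfl fun k _ => by ring
    have h2 : (∑ k, (∑ m, ∑ j, Γ x k j m * z j * pd l (pd m Q) z) * z k) =
        ∑ m, pd m (pd l Q) z * quad m z := by
      rw [hquad]
      simp only [Finset.sum_mul, Finset.mul_sum]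
      rw [Finset.sum_comm]
      refine Finset.sum_congr rfl fun m _ => Finset.sum_congr rfl fun k _ =>
        Finset.sum_congr rfl fun j _ => ?_
      rw [pd2_symm hQ l m hz]; ring
    have h4 : ∑ i, pd i (pd l Q) z * H i z =
        2 * ∑ i, pd i (pd l Q) z * G x z i - ∑ i, pd i (pd l Q) z * quad i z := by
      rw [Finset.mul_sum, ← Finset.sum_sub_distrib]
      exact Finset.sum_congr rfl fun i _ => by rw [hHdef]; ring
    have h5 : (∑ k, (∑ m, Γ x k l m * pd m Q z +
        ∑ m, ∑ j, Γ x k j m * z j * pd l (pd m Q) z) * z k) =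
        (∑ k, (∑ m, Γ x k l m * pd m Q z) * z k) +
          ∑ k, (∑ m, ∑ j, Γ x k j m * z j * pd l (pd m Q) z) * z k := by
      rw [← Finset.sum_add_distrib]
      exact Finset.sum_congr rfl fun k _ => by ring
    rw [h4, hsp2, h5, h2, ← h1]
    ring
  -- homogeneity of `H`
  have hHP : ∀ z, z ≠ 0 → ∀ i, H i z = ∑ l, P Q i l z * ∑ m, T l m z * pd m Q z := by
    intro z hz i
    have h1 : A Q z *ᵥ (fun m => H m z) = fun l => ∑ m, T l m z * pd m Q z := by
      ext l
      simp only [Matrix.mulVec, dotProduct, A, Matrix.of_apply]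
      rw [← hA z hz l]
      exact Finset.sum_congr rfl fun i _ => by rw [pd2_symm hQ l i hz]
    have h5 := congrArg (fun v => (A Q z)⁻¹ *ᵥ v) h1
    simp only [Matrix.mulVec_mulVec,
      Matrix.nonsing_inv_mul (A Q z) (isUnit_iff_ne_zero.2 (A_det_pos hQ hz).ne'),
      Matrix.one_mulVec] at h5
    have h6 := congrFun h5 i
    rw [h6]
    simp only [Matrix.mulVec, dotProduct, P]
  have hT1 : ∀ v m (t : ℝ) (z : Fin n → ℝ), T v m (t • z) = t * T v m z := by
    intro v m t z
    rw [hT]
    simp only [Pi.smul_apply, smul_eq_mul, Finset.mul_sum]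
    exact Finset.sum_congr rfl fun k _ => by ring
  have hHh : ∀ i, Hom 2 (H i) := by
    intro i z hz t ht
    have htz : t • z ≠ 0 := smul_ne_zero ht.ne' hz
    rw [hHP _ htz i, hHP z hz i, Finset.mul_sum]
    refine Finset.sum_congr rfl fun l _ => ?_
    rw [P_hom hQ i l z hz t ht, Finset.mul_sum, Finset.mul_sum, Finset.mul_sum]
    refine Finset.sum_congr rfl fun m _ => ?_
    rw [hT1, hom_pd1 hQ m z hz t ht]
    simp only [zpow_zero, zpow_one]
    have : (t : ℝ) ^ (2 : ℤ) = t * t := by norm_cast; ring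
    rw [this]; ring
  -- `Σ Q_i H^i = 0`
  have hA0 : ∀ z, z ≠ 0 → ∑ i, pd i Q z * H i z = 0 := by
    intro z hz
    have h1 : ∑ i, pd i Q z * H i z = ∑ l, z l * ∑ i, pd i (pd l Q) z * H i z := by
      have : ∀ i, pd i Q z * H i z = ∑ l, z l * (pd i (pd l Q) z * H i z) := fun i => by
        rw [← euler2 hQ i hz, Finset.sum_mul]
        exact Finset.sum_congr rfl fun a _ => by rw [pd2_symm hQ a i hz, mul_assoc]
      simp only [this]
      rw [Finset.sum_comm]
      exact Finset.sum_congr rfl fun l _ => by rw [Finset.mul_sum]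
    rw [h1]
    have h2 : ∑ l, z l * ∑ i, pd i (pd l Q) z * H i z =
        ∑ m, (∑ l, ∑ k, (Γ x k l m - Γ x l k m) * z k * z l) * pd m Q z := by
      simp only [hA z hz, hT, Finset.mul_sum, Finset.sum_mul]
      rw [Finset.sum_comm]
      exact Finset.sum_congr rfl fun m _ => Finset.sum_congr rfl fun l _ =>
        Finset.sum_congr rfl fun k _ => by ring
    rw [h2]
    refine Finset.sum_eq_zero fun m _ => ?_
    have h3 : ∑ l, ∑ k, (Γ x k l m - Γ x l k m) * z k * z l = 0 := by
      have h4 : ∑ l, ∑ k, (Γ x k l m - Γ x l k m) * z k * z l =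
          - ∑ l, ∑ k, (Γ x k l m - Γ x l k m) * z k * z l := by
        conv_lhs => rw [Finset.sum_comm]
        rw [← Finset.sum_neg_distrib]
        refine Finset.sum_congr rfl fun l _ => ?_
        rw [← Finset.sum_neg_distrib]
        exact Finset.sum_congr rfl fun k _ => by ring
      linarith
    rw [h3, zero_mul]
  -- the fields `Y v`
  set Y : Fin n → Fin n → (Fin n → ℝ) → ℝ := fun v m z => pd v (H m) z + T v m z with hY
  have hYs : ∀ v m, Sm (Y v m) := fun v m => ((hHs m).pd v).add (hTs v m)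
  have hY0 : ∀ v, ∀ z, z ≠ 0 → ∑ m, pd m Q z * Y v m z = 0 := by
    intro v z hz
    have e := pd_congr (g := fun _ => (0:ℝ)) (fun z hz => hA0 z hz) v hz
    rw [pd_const, pd_sum (fun i _ => (hQ.sm.pd i).mul (hHs i)) v hz] at e
    have e2 : ∑ i, pd v (fun y => pd i Q y * H i y) z =
        ∑ i, pd i (pd v Q) z * H i z + ∑ i, pd i Q z * pd v (H i) z := by
      rw [← Finset.sum_add_distrib]
      refine Finset.sum_congr rfl fun i _ => ?_
      rw [pd_mul (hQ.sm.pd i) (hHs i) v hz, pd2_symm hQ v i hz]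
    rw [e2, hA z hz v] at e
    rw [← e, ← Finset.sum_add_distrib]
    exact Finset.sum_congr rfl fun m _ => by rw [hY]; ring
  have hY1 : ∀ v j, ∀ z, z ≠ 0 →
      ∑ m, (pd j (pd m Q) z * Y v m z + pd m Q z * pd j (Y v m) z) = 0 := by
    intro v j z hz
    have e := pd_congr (g := fun _ => (0:ℝ)) (fun z hz => hY0 v z hz) j hz
    rw [pd_const, pd_sum (fun m _ => (hQ.sm.pd m).mul (hYs v m)) j hz] at e
    rw [← e]
    exact Finset.sum_congr rfl fun m _ => (pd_mul (hQ.sm.pd m) (hYs v m) j hz).symm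
  have hB3 : ∀ z, z ≠ 0 → ∀ m i j v, pd i (pd j (pd v (H m))) z = 2 * berwald G x z m i j v := by
    intro z hz m i j v
    have c1 : ∀ u : Fin n → ℝ, u ≠ 0 → pd v (H m) u =
        2 * pd v (fun z => G x z m) u - pd v (quad m) u := fun u hu => by
      rw [hHdef]
      simp only
      rw [pd_sub ((sm_const 2).mul (hGs m)) (hquad_sm m) v hu, pd_const_mul (hGs m) 2 v hu]
    have c2 : ∀ u : Fin n → ℝ, u ≠ 0 → pd j (pd v (H m)) u =
        2 * pd j (pd v (fun z => G x z m)) u - pd j (pd v (quad m)) u := fun u hu => by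
      rw [pd_congr c1 j hu, pd_sub ((sm_const 2).mul ((hGs m).pd v)) ((hquad_sm m).pd v) j hu,
        pd_const_mul ((hGs m).pd v) 2 j hu]
    have c3 : pd i (pd j (pd v (H m))) z =
        2 * pd i (pd j (pd v (fun z => G x z m))) z - pd i (pd j (pd v (quad m))) z := by
      rw [pd_congr c2 i hz, pd_sub ((sm_const 2).mul (((hGs m).pd v).pd j))
        (((hquad_sm m).pd v).pd j) i hz, pd_const_mul (((hGs m).pd v).pd j) 2 i hz]
    have c4 : pd i (pd j (pd v (quad m))) z = 0 := pd3_quad _ i j v hz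
    rw [c3, c4, sub_zero]
    rfl
  have hYpd : ∀ z, z ≠ 0 → ∀ v m j, pd j (Y v m) z =
      pd j (pd v (H m)) z + (Γ x j v m - Γ x v j m) := by
    intro z hz v m j
    rw [hY]
    simp only
    rw [pd_add ((hHs m).pd v) (hTs v m) j hz, hT]
    simp only
    rw [pd_lin (fun k => Γ x k v m - Γ x v k m) j hz]
  have hYpd2 : ∀ z, z ≠ 0 → ∀ v m i j, pd i (pd j (Y v m)) z = 2 * berwald G x z m i j v := by
    intro z hz v m i j
    rw [pd_congr (fun u hu => hYpd u hu v m j) i hz, pd_add (((hHs m).pd v).pd j) (sm_const _) i hz,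
      pd_const, add_zero, hB3 z hz]
  -- the fields are Killing
  have hkill : ∀ v, IsKilling F x (fun z m => Y v m z) := by
    intro v
    refine ⟨fun m z hz => hYs v m z hz, fun z hz t ht => ?_, fun z hz i j => ?_⟩
    · ext m
      have h1 := ((hHh m).pd (hHs m) v) z hz t ht
      norm_num at h1
      simp only [hY, Pi.smul_apply, smul_eq_mul]
      rw [h1, hT1]; ring
    · have e := pd_congr (g := fun _ => (0:ℝ)) (fun z hz => hY1 v j z hz) i hz
      rw [pd_const, pd_sum (fun m _ => (((hQ.sm.pd m).pd j).mul (hYs v m)).add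
        ((hQ.sm.pd m).mul ((hYs v m).pd j))) i hz] at e
      have e2 : ∀ m, pd i (fun y => pd j (pd m Q) y * Y v m y + pd m Q y * pd j (Y v m) y) z =
          (Y v m z * pd m (pd i (pd j Q)) z + pd m (pd j Q) z * pd i (Y v m) z +
            pd m (pd i Q) z * pd j (Y v m) z) + 2 * (pd m Q z * berwald G x z m i j v) := by
        intro m
        rw [pd_add (((hQ.sm.pd m).pd j).mul (hYs v m)) ((hQ.sm.pd m).mul ((hYs v m).pd j)) i hz,
          pd_mul ((hQ.sm.pd m).pd j) (hYs v m) i hz, pd_mul (hQ.sm.pd m) ((hYs v m).pd j) i hz,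
          hYpd2 z hz, pd2_symm hQ j m hz, pd2_symm hQ i m hz, pd3_symm2 hQ i j m hz,
          pd3_symm1 hQ i m j hz]
        ring
      simp only [e2] at e
      rw [Finset.sum_add_distrib, ← Finset.mul_sum] at e
      have h2 := hL z hz i j v
      unfold landsberg at h2
      have h3 : ∑ m, pd m Q z * berwald G x z m i j v = 0 := by
        have : (∑ i_1, fderiv ℝ (fun u => F x u ^ 2) z (Pi.single i_1 (1 : ℝ) : Fin n → ℝ) *
          berwald G x z i_1 i j v) = ∑ m, pd m Q z * berwald G x z m i j v := rfl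
        rw [this] at h2
        linarith
      rw [h3, mul_zero, add_zero] at e
      exact e
  obtain ⟨c, hc, hcY⟩ := hK (fun v z m => Y v m z) hkill
  -- the Berwald curvature is annihilated by `c`
  have hnull : ∀ z, z ≠ 0 → ∀ m i j, ∑ v, c v * pd i (pd j (pd v (H m))) z = 0 := by
    intro z hz m i j
    have d1 : ∀ u : Fin n → ℝ, u ≠ 0 → ∑ v, c v * pd j (Y v m) u = 0 := by
      intro u hu
      have e := pd_congr (g := fun _ => (0:ℝ)) (fun z hz => hcY z hz m) j hu
      rw [pd_const, pd_sum (fun v _ => (sm_const (c v)).mul (hYs v m)) j hu] at e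
      rw [← e]
      exact Finset.sum_congr rfl fun v _ => (pd_const_mul (hYs v m) (c v) j hu).symm
    have e := pd_congr (g := fun _ => (0:ℝ)) d1 i hz
    rw [pd_const, pd_sum (fun v _ => (sm_const (c v)).mul ((hYs v m).pd j)) i hz] at e
    rw [← e]
    refine Finset.sum_congr rfl fun v _ => ?_
    rw [pd_const_mul ((hYs v m).pd j) (c v) i hz, hYpd2 z hz, hB3 z hz]
  suffices hz : pd j (pd k (pd l (H i))) y = 0 by
    have := hB3 y hy i j k l
    rw [hz] at this
    linarith
  rcases Nat.lt_or_ge n 2 with hn | hn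
  · interval_cases n
    · exact absurd (Subsingleton.elim y 0) hy
    · have h := hnull y hy i j k
      simp only [Fin.sum_univ_one, Fin.isValue] at h
      have h0 : c 0 ≠ 0 := by
        intro h0
        apply hc
        ext a
        have : a = 0 := Subsingleton.elim _ _
        rw [this, h0]; rfl
      have hk : l = 0 := Subsingleton.elim _ _
      rw [hk]
      exact (mul_eq_zero.1 h).resolve_left h0
  · have hbh : Hom (-1) (pd j (pd k (pd l (H i)))) := by
      have h1 := (((hHh i).pd (hHs i) l).pd ((hHs i).pd l) k).pd (((hHs i).pd l).pd k) j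
      norm_num at h1
      exact h1
    refine null_dir hn ((((hHs i).pd l).pd k).pd j) hbh hc (fun z hz => ?_) hy
    have e := pd_congr (g := fun _ => (0:ℝ)) (fun z hz => hnull z hz i j k) l hz
    rw [pd_const, pd_sum (fun v _ => (sm_const (c v)).mul ((((hHs i).pd v).pd k).pd j)) l hz] at e
    rw [← e]
    refine Finset.sum_congr rfl fun v _ => ?_
    rw [pd_const_mul ((((hHs i).pd v).pd k).pd j) (c v) l hz, comm4 (hHs i) l j k v hz]

end Pool.Agent.R774.BW
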