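import Pool.Agent.R774.BW.Tra

/-! # Project BW: the theorem on one fibre, from the three pieces -/

set_option autoImplicit false

open scoped BigOperators ContDiff Topology Matrix
open Filter Set

namespace Pool.Agent.R774.BW

variable {n : ℕ}

section
variable {Q : (Fin n → ℝ) → ℝ} (hQ : MN Q) (w : Fin n → ℝ) (Z : Fin n → (Fin n → ℝ) → ℝ)
  (hZ : ∀ i, Sm (Z i))
  (hA : ∀ y, y ≠ 0 → ∀ l, ∑ i, pd i (pd l Q) y * Z i y = Q y * w l)
  (hL : ∀ y, y ≠ 0 → ∀ l, ∑ j, ∑ k, P Q j k y *
      ∑ i, pd i Q y * pd l (pd k (pd j (Z i))) y = 0)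
include hQ hZ hA hL

theorem dz_N {y : Fin n → ℝ} (hy : y ≠ 0) :
    dz Z (Nn Q) y = - (∑ a, w a * y a) * Nn Q y := by
  have e1 : dz Z (Nn Q) y = ∑ k, ∑ l, (dz Z (P Q k l) y * th Q k y * th Q l y +
      P Q k l y * dz Z (th Q k) y * th Q l y + P Q k l y * th Q k y * dz Z (th Q l) y) := by
    unfold Nn
    rw [dz_sum Z (fun k _ => Sm.sum fun l _ =>
      ((P_sm hQ k l).mul (th_sm hQ k)).mul (th_sm hQ l)) hy]
    refine Finset.sum_congr rfl fun k _ => ?_
    rw [dz_sum Z (fun l _ => ((P_sm hQ k l).mul (th_sm hQ k)).mul (th_sm hQ l)) hy]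
    refine Finset.sum_congr rfl fun l _ => ?_
    rw [dz_mul Z ((P_sm hQ k l).mul (th_sm hQ k)) (th_sm hQ l) hy,
      dz_mul Z (P_sm hQ k l) (th_sm hQ k) hy]
    ring
  set θ : Fin n → ℝ := fun k => th Q k y with hθ
  set u : Fin n → ℝ := (A Q y)⁻¹ *ᵥ θ with hu
  set lam : ℝ := ∑ a, w a * y a with hlam
  have hN : Nn Q y = ∑ l, u l * θ l := by
    unfold Nn
    rw [Finset.sum_comm]
    refine Finset.sum_congr rfl fun l _ => ?_
    rw [hu]
    simp only [Matrix.mulVec, dotProduct, Finset.sum_mul]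
    refine Finset.sum_congr rfl fun k _ => ?_
    have := P_symm hQ hy l k
    unfold P at this ⊢
    rw [this]
  -- the first part
  have p1 : ∑ k, ∑ l, dz Z (P Q k l) y * th Q k y * th Q l y =
      - (θ ⬝ᵥ (((A Q y)⁻¹ * DA Q Z y * (A Q y)⁻¹) *ᵥ θ)) := by
    simp only [dotProduct, Matrix.mulVec, Finset.mul_sum, dz_P hQ Z hy]
    rw [← Finset.sum_neg_distrib]
    refine Finset.sum_congr rfl fun k _ => ?_
    rw [← Finset.sum_neg_distrib]
    refine Finset.sum_congr rfl fun l _ => ?_
    simp only [hθ]; ring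
  have p2 : ∑ k, ∑ l, P Q k l y * th Q k y * dz Z (th Q l) y = ∑ l, u l * dz Z (th Q l) y := by
    rw [Finset.sum_comm]
    refine Finset.sum_congr rfl fun l _ => ?_
    rw [hu]
    simp only [Matrix.mulVec, dotProduct, Finset.sum_mul]
    refine Finset.sum_congr rfl fun k _ => ?_
    have := P_symm hQ hy l k
    unfold P at this ⊢
    rw [this]
  have p3 : ∑ k, ∑ l, P Q k l y * dz Z (th Q k) y * th Q l y = ∑ l, u l * dz Z (th Q l) y := by
    refine Finset.sum_congr rfl fun k _ => ?_
    rw [hu]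
    simp only [Matrix.mulVec, dotProduct, Finset.sum_mul]
    refine Finset.sum_congr rfl fun l _ => ?_
    simp only [P, hθ]; ring
  -- the traced identity against u
  have p4 : 2 * ∑ l, u l * dz Z (th Q l) y =
      - (lam * ∑ l, u l * θ l) - θ ⬝ᵥ (Jc Z y *ᵥ u) := by
    have h1 : ∀ l, 2 * (u l * dz Z (th Q l) y) = - (lam * (u l * θ l)) -
        ∑ i, u l * (th Q i y * Jc Z y i l) := by
      intro l
      have := traced hQ w Z hZ hA hL hy l
      rw [← Finset.mul_sum]
      have h2 : 2 * dz Z (th Q l) y = - (lam * θ l) - ∑ i, th Q i y * Jc Z y i l := by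
        simp only [hθ]; linarith
      calc 2 * (u l * dz Z (th Q l) y) = u l * (2 * dz Z (th Q l) y) := by ring
        _ = _ := by rw [h2]; ring
    rw [Finset.mul_sum]
    simp only [h1]
    rw [Finset.sum_sub_distrib, Finset.sum_neg_distrib, ← Finset.mul_sum]
    congr 1
    simp only [dotProduct, Matrix.mulVec, Finset.mul_sum]
    rw [Finset.sum_comm]
    refine Finset.sum_congr rfl fun i _ => Finset.sum_congr rfl fun l _ => ?_
    simp only [hθ]; ring
  have p5 : Jc Z y *ᵥ u = - ((A Q y)⁻¹ *ᵥ (DA Q Z y *ᵥ u)) := by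
    rw [J_eq hQ w Z hZ hA hy, ← Matrix.mulVec_mulVec, Matrix.sub_mulVec, Matrix.mulVec_sub]
    have h1 : (fun k => pd k Q y) ⬝ᵥ u = 0 := by
      rw [hu, Matrix.dotProduct_mulVec, dQ_P hQ hy]
      have := euler_th hQ hy
      simpa [dotProduct, hθ] using this
    have h2 : Matrix.vecMulVec w (fun k => pd k Q y) *ᵥ u = 0 := by
      ext i
      simp only [Matrix.mulVec, dotProduct, Matrix.vecMulVec_apply, Pi.zero_apply]
      have h3 : ∑ x, w i * pd x Q y * u x = w i * ((fun k => pd k Q y) ⬝ᵥ u) := by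
        simp only [dotProduct, Finset.mul_sum]
        exact Finset.sum_congr rfl fun x _ => by ring
      rw [h3, h1, mul_zero]
    rw [h2, Matrix.mulVec_zero, zero_sub]
  have p6 : θ ⬝ᵥ (((A Q y)⁻¹ * DA Q Z y * (A Q y)⁻¹) *ᵥ θ) =
      θ ⬝ᵥ ((A Q y)⁻¹ *ᵥ (DA Q Z y *ᵥ u)) := by
    rw [hu]
    simp only [Matrix.mulVec_mulVec, Matrix.mul_assoc]
  rw [e1]
  have e2 : ∑ k, ∑ l, (dz Z (P Q k l) y * th Q k y * th Q l y +
      P Q k l y * dz Z (th Q k) y * th Q l y + P Q k l y * th Q k y * dz Z (th Q l) y) =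
      (∑ k, ∑ l, dz Z (P Q k l) y * th Q k y * th Q l y) +
      (∑ k, ∑ l, P Q k l y * dz Z (th Q k) y * th Q l y) +
      ∑ k, ∑ l, P Q k l y * th Q k y * dz Z (th Q l) y := by
    simp only [Finset.sum_add_distrib]
  rw [e2, p1, p2, p3, hN]
  rw [p5] at p4
  rw [dotProduct_neg] at p4
  rw [p6]
  linarith

theorem dz_QN {y : Fin n → ℝ} (hy : y ≠ 0) : dz Z (fun y => Q y * Nn Q y) y = 0 := by
  rw [dz_mul Z hQ.sm (Nn_sm hQ) hy, dz_N hQ w Z hZ hA hL hy]
  have : dz Z Q y = Q y * ∑ a, w a * y a := by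
    rw [← eq1 hQ w Z hZ hA hy]
    exact Finset.sum_congr rfl fun i _ => mul_comm _ _
  rw [this]; ring

/-- the theorem on one fibre -/
theorem fibre (hleg : S_leg) (hjac : S_jac) (hdei : S_dei) (hw : w ≠ 0) {y : Fin n → ℝ}
    (hy : y ≠ 0) (i j k : Fin n) : pd k (pd i (pd j Q)) y = 0 := by
  rcases Nat.lt_or_ge n 2 with hn | hn
  · interval_cases n
    · exact absurd (Subsingleton.elim y 0) hy
    · have h := euler3 hQ i j hy
      simp only [Fin.sum_univ_one, Fin.isValue] at h
      have h0 : y 0 ≠ 0 := by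
        intro h0
        apply hy
        ext a
        have : a = 0 := Subsingleton.elim _ _
        rw [this, h0]; rfl
      have hk : k = 0 := Subsingleton.elim _ _
      rw [hk]
      exact (mul_eq_zero.1 h).resolve_left h0
  · obtain ⟨c, hc⟩ := hleg n hn Q hQ w hw (fun y => Q y * Nn Q y)
      (fun z hz => (hQ.sm.mul (Nn_sm hQ)).diff hz) (fun z hz t ht => QN_hom hQ hz ht)
      (fun z hz v hv => by
        have h1 : fderiv ℝ (fun y => Q y * Nn Q y) z (Q z • v) = 0 := by
          rw [← dz_QN hQ w Z hZ hA hL hz, fderiv_eq_sum]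
          unfold dz
          refine Finset.sum_congr rfl fun m _ => ?_
          congr 1
          have h2 : A Q z *ᵥ (Q z • v) = A Q z *ᵥ (fun m => Z m z) := by
            ext l
            simp only [Matrix.mulVec, dotProduct, A, Matrix.of_apply, Pi.smul_apply, smul_eq_mul]
            have h3 := hv l
            have h4 := hA z hz l
            calc ∑ i, pd l (pd i Q) z * (Q z * v i)
                = Q z * ∑ i, pd i (pd l Q) z * v i := by
                  rw [Finset.mul_sum]
                  exact Finset.sum_congr rfl fun i _ => by rw [pd2_symm hQ l i hz]; ring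
              _ = ∑ i, pd l (pd i Q) z * Z i z := by
                  rw [h3, ← h4]
                  exact Finset.sum_congr rfl fun i _ => by rw [pd2_symm hQ l i hz]
          have h5 := congrArg (fun v => (A Q z)⁻¹ *ᵥ v) h2
          simp only [Matrix.mulVec_mulVec,
            Matrix.nonsing_inv_mul (A Q z) (isUnit_iff_ne_zero.2 (A_det_pos hQ hz).ne'),
            Matrix.one_mulVec] at h5
          exact congrFun h5 m
        rw [map_smul, smul_eq_mul] at h1
        exact (mul_eq_zero.1 h1).resolve_left (hQ.pos z hz).ne')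
    obtain ⟨y0, hy0, hth0⟩ := hjac n (by omega) Q hQ
    have hc0 : c = 0 := by
      rw [← hc y0 hy0]
      simp [Nn, hth0]
    have hNz : ∀ z, z ≠ 0 → Nn Q z = 0 := fun z hz => by
      have := hc z hz
      rw [hc0] at this
      exact (mul_eq_zero.1 this).resolve_left (hQ.pos z hz).ne'
    have hthz : ∀ z, z ≠ 0 → ∀ k, th Q k z = 0 := by
      intro z hz
      by_contra hne
      push_neg at hne
      have hv : (fun k => th Q k z) ≠ 0 := by
        obtain ⟨k, hk⟩ := hne
        intro h; exact hk (congrFun h k)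
      have := (P_posDef hQ hz).dotProduct_mulVec_pos hv
      have hN := hNz z hz
      unfold Nn at hN
      rw [star_trivial] at this
      simp only [dotProduct, Matrix.mulVec, Finset.mul_sum] at this
      apply this.ne'
      rw [← hN]
      refine Finset.sum_congr rfl fun k _ => Finset.sum_congr rfl fun l _ => ?_
      simp only [P]; ring
    exact hdei n Q hQ hthz y hy i j k

end

end Pool.Agent.R774.BW
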