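import Pool.Agent.R774.BW.Set

/-! # Project BW: Finsler metrics on open subsets of `ℝ^n`, definitions and the main theorem -/

set_option autoImplicit false

open scoped BigOperators ContDiff Topology Matrix
open Filter Set

namespace Pool.Agent.R774.BW

/-- `F(x,y)` is a smooth Finsler metric (not necessarily reversible) on the open set `U` of
`ℝ^n`, as in the frozen statement `S13671`. -/
structure IsFinsler {n : ℕ} (U : Set (Fin n → ℝ)) (F : (Fin n → ℝ) → (Fin n → ℝ) → ℝ) : Prop where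
  isOpen : IsOpen U
  smooth : ContDiffOn ℝ ((⊤ : ℕ∞) : WithTop ℕ∞)
    (fun p : (Fin n → ℝ) × (Fin n → ℝ) => F p.1 p.2) (U ×ˢ {y | y ≠ 0})
  pos : ∀ x ∈ U, ∀ y : Fin n → ℝ, y ≠ 0 → 0 < F x y
  hom : ∀ x ∈ U, ∀ y : Fin n → ℝ, ∀ t : ℝ, 0 < t → F x (t • y) = t * F x y
  conv : ∀ x ∈ U, ∀ y : Fin n → ℝ, y ≠ 0 → ∀ v : Fin n → ℝ, v ≠ 0 →
    0 < ∑ i : Fin n, ∑ j : Fin n,
      (1 / 2 : ℝ) * fderiv ℝ (fun w => fderiv ℝ (fun u => F x u ^ 2) w
          (Pi.single j (1 : ℝ) : Fin n → ℝ)) y (Pi.single i (1 : ℝ) : Fin n → ℝ)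
        * v i * v j

/-- the fundamental tensor `g_ij(x,y) = (1/2) ∂²F²/∂y^i∂y^j` as a matrix -/
noncomputable def gmat {n : ℕ} (F : (Fin n → ℝ) → (Fin n → ℝ) → ℝ) (x y : Fin n → ℝ) :
    Matrix (Fin n) (Fin n) ℝ :=
  Matrix.of fun i j => (1 / 2 : ℝ) * fderiv ℝ (fun w => fderiv ℝ (fun u => F x u ^ 2) w
    (Pi.single j (1 : ℝ) : Fin n → ℝ)) y (Pi.single i (1 : ℝ) : Fin n → ℝ)

/-- `G^i(x,y)` are the spray coefficients of `F`:
`g_li G^i = (1/4) ([F²]_{x^k y^l} y^k - [F²]_{x^l})`, as in the frozen statement `S13671`. -/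
def IsSpray {n : ℕ} (U : Set (Fin n → ℝ)) (F : (Fin n → ℝ) → (Fin n → ℝ) → ℝ)
    (G : (Fin n → ℝ) → (Fin n → ℝ) → (Fin n → ℝ)) : Prop :=
  ∀ x ∈ U, ∀ y : Fin n → ℝ, y ≠ 0 → ∀ l : Fin n,
    ∑ i : Fin n,
      (1 / 2 : ℝ) * fderiv ℝ (fun w => fderiv ℝ (fun u => F x u ^ 2) w
          (Pi.single i (1 : ℝ) : Fin n → ℝ)) y (Pi.single l (1 : ℝ) : Fin n → ℝ)
        * G x y i
    = (1 / 4 : ℝ) * ((∑ k : Fin n,
          fderiv ℝ (fun z => fderiv ℝ (fun u => F z u ^ 2) y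
            (Pi.single l (1 : ℝ) : Fin n → ℝ)) x (Pi.single k (1 : ℝ) : Fin n → ℝ) * y k)
        - fderiv ℝ (fun z => F z y ^ 2) x (Pi.single l (1 : ℝ) : Fin n → ℝ))

/-- the Berwald curvature `B^i_jkl(x,y) = ∂³G^i/∂y^j∂y^k∂y^l` -/
noncomputable def berwald {n : ℕ} (G : (Fin n → ℝ) → (Fin n → ℝ) → (Fin n → ℝ))
    (x y : Fin n → ℝ) (i j k l : Fin n) : ℝ :=
  fderiv ℝ (fun w₂ => fderiv ℝ (fun w₁ => fderiv ℝ (fun u => G x u i) w₁
      (Pi.single l (1 : ℝ) : Fin n → ℝ)) w₂ (Pi.single k (1 : ℝ) : Fin n → ℝ)) y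
    (Pi.single j (1 : ℝ) : Fin n → ℝ)

/-- the Landsberg curvature `L_jkl = -(1/2) g_im y^m B^i_jkl = -(1/4) Σ_i [F²]_{y^i} B^i_jkl` -/
noncomputable def landsberg {n : ℕ} (F : (Fin n → ℝ) → (Fin n → ℝ) → ℝ)
    (G : (Fin n → ℝ) → (Fin n → ℝ) → (Fin n → ℝ)) (x y : Fin n → ℝ) (j k l : Fin n) : ℝ :=
  -(1 / 4 : ℝ) * ∑ i, fderiv ℝ (fun u => F x u ^ 2) y (Pi.single i (1 : ℝ) : Fin n → ℝ) *
    berwald G x y i j k l

/-- the mean Landsberg curvature `J_l = Σ_{j,k} g^{jk} L_jkl` (`g^{jk}` the inverse matrix) -/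
noncomputable def meanLandsberg {n : ℕ} (F : (Fin n → ℝ) → (Fin n → ℝ) → ℝ)
    (G : (Fin n → ℝ) → (Fin n → ℝ) → (Fin n → ℝ)) (x y : Fin n → ℝ) (l : Fin n) : ℝ :=
  ∑ j, ∑ k, (gmat F x y)⁻¹ j k * landsberg F G x y j k l

/-- The linear connection with coefficients `Γ^m_kl(x)` (`Γ x k l m`) is compatible with `F`:
`∂F²/∂x^k (x,y) = Σ_{m,l} Γ^m_kl(x) y^l ∂F²/∂y^m (x,y)`, that is, the linear parallel transports
`(y^m)' = - Γ^m_kl (x^k)' y^l` preserve `F`. -/
def Compatible {n : ℕ} (U : Set (Fin n → ℝ)) (F : (Fin n → ℝ) → (Fin n → ℝ) → ℝ)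
    (Γ : (Fin n → ℝ) → Fin n → Fin n → Fin n → ℝ) : Prop :=
  ∀ x ∈ U, ∀ y : Fin n → ℝ, y ≠ 0 → ∀ k : Fin n,
    fderiv ℝ (fun z => F z y ^ 2) x (Pi.single k (1 : ℝ) : Fin n → ℝ) =
      ∑ m, ∑ l, Γ x k l m * y l *
        fderiv ℝ (fun u => F x u ^ 2) y (Pi.single m (1 : ℝ) : Fin n → ℝ)

/-- The connection is semi-symmetric with the `1`-form `η`: its torsion is
`T^m_kl = Γ^m_kl - Γ^m_lk = η_k δ^m_l - η_l δ^m_k`. -/
def SemiSymmetric {n : ℕ} (U : Set (Fin n → ℝ)) (Γ : (Fin n → ℝ) → Fin n → Fin n → Fin n → ℝ)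
    (η : (Fin n → ℝ) → Fin n → ℝ) : Prop :=
  ∀ x ∈ U, ∀ k l m : Fin n, Γ x k l m - Γ x l k m =
    η x k * (if m = l then 1 else 0) - η x l * (if m = k then 1 else 0)

variable {n : ℕ}

theorem IsFinsler.mn {U : Set (Fin n → ℝ)} {F : (Fin n → ℝ) → (Fin n → ℝ) → ℝ}
    (h : IsFinsler U F) {x : Fin n → ℝ} (hx : x ∈ U) : MN (fun u => F x u ^ 2) :=
  mn_of_finsler h.smooth h.pos h.hom h.conv hx

theorem gmat_inv {F : (Fin n → ℝ) → (Fin n → ℝ) → ℝ} (x y : Fin n → ℝ)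
    (hQ : MN (fun u => F x u ^ 2)) (hy : y ≠ 0) (j k : Fin n) :
    (gmat F x y)⁻¹ j k = 2 * P (fun u => F x u ^ 2) j k y := by
  have h1 : gmat F x y = (1 / 2 : ℝ) • A (fun u => F x u ^ 2) y := by
    ext i j; rfl
  have hd := (A_det_pos hQ hy).ne'
  have h2 : (gmat F x y)⁻¹ = (2 : ℝ) • (A (fun u => F x u ^ 2) y)⁻¹ := by
    apply Matrix.inv_eq_left_inv
    rw [h1, Matrix.smul_mul, Matrix.mul_smul,
      Matrix.nonsing_inv_mul _ (isUnit_iff_ne_zero.2 hd), smul_smul]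
    norm_num
  rw [h2]; rfl

/-- `J = 0` on a fibre in the form used by the theorem on one fibre -/
theorem mean_iff {F : (Fin n → ℝ) → (Fin n → ℝ) → ℝ}
    {G : (Fin n → ℝ) → (Fin n → ℝ) → (Fin n → ℝ)} (x y : Fin n → ℝ)
    (hQ : MN (fun u => F x u ^ 2)) (hy : y ≠ 0) (l : Fin n)
    (h : meanLandsberg F G x y l = 0) :
    ∑ j, ∑ k, P (fun u => F x u ^ 2) j k y *
      ∑ i, pd i (fun u => F x u ^ 2) y * berwald G x y i j k l = 0 := by
  have e : meanLandsberg F G x y l = -(1 / 2 : ℝ) * ∑ j, ∑ k, P (fun u => F x u ^ 2) j k y *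
      ∑ i, pd i (fun u => F x u ^ 2) y * berwald G x y i j k l := by
    unfold meanLandsberg
    rw [Finset.mul_sum]
    refine Finset.sum_congr rfl fun j _ => ?_
    rw [Finset.mul_sum]
    refine Finset.sum_congr rfl fun k _ => ?_
    rw [gmat_inv x y hQ hy]
    unfold landsberg pd
    ring
  rw [e] at h
  linarith [h]

theorem main (hleg : S_leg) (hjac : S_jac) (hdei : S_dei)
    {U : Set (Fin n → ℝ)} {F : (Fin n → ℝ) → (Fin n → ℝ) → ℝ}
    {G : (Fin n → ℝ) → (Fin n → ℝ) → (Fin n → ℝ)}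
    {Γ : (Fin n → ℝ) → Fin n → Fin n → Fin n → ℝ} {η : (Fin n → ℝ) → Fin n → ℝ}
    (hF : IsFinsler U F) (hG : IsSpray U F G)
    (hΓ : Compatible U F Γ) (hη : SemiSymmetric U Γ η)
    (hJ : ∀ x ∈ U, ∀ y : Fin n → ℝ, y ≠ 0 → ∀ l, meanLandsberg F G x y l = 0)
    {x : Fin n → ℝ} (hx : x ∈ U) {y : Fin n → ℝ} (hy : y ≠ 0) :
    (∀ i j k l, berwald G x y i j k l = 0) ∧
    (η x ≠ 0 → ∀ i j k, pd k (pd i (pd j (fun u => F x u ^ 2))) y = 0) := by
  set Q : (Fin n → ℝ) → ℝ := fun u => F x u ^ 2 with hQdef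
  have hQ : MN Q := hF.mn hx
  set quad : Fin n → (Fin n → ℝ) → ℝ := fun i z =>
    ∑ k, ∑ j, (1 / 2 * (Γ x k j i + η x k * (if i = j then 1 else 0))) * z k * z j with hquad
  have hquad_sm : ∀ i, Sm (quad i) := fun i => Sm.sum fun k _ => Sm.sum fun j _ =>
    ((sm_const _).mul (sm_coord k)).mul (sm_coord j)
  set Z : Fin n → (Fin n → ℝ) → ℝ := fun i z => quad i z - G x z i with hZdef
  -- the defining equation of `Z`
  have hA : ∀ z, z ≠ 0 → ∀ l, ∑ i, pd i (pd l Q) z * Z i z = Q z * η x l := by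
    intro z hz l
    have hsp := hG x hx z hz l
    -- mixed derivatives
    have hmix : ∀ k, fderiv ℝ (fun z' => fderiv ℝ (fun u => F z' u ^ 2) z
            (Pi.single l (1 : ℝ) : Fin n → ℝ)) x (Pi.single k (1 : ℝ) : Fin n → ℝ) =
        ∑ m, Γ x k l m * pd m Q z + ∑ m, ∑ j, Γ x k j m * z j * pd l (pd m Q) z := by
      intro k
      have hcd : ContDiffAt ℝ ∞ (fun p : (Fin n → ℝ) × (Fin n → ℝ) => F p.1 p.2 ^ 2) (x, z) := by
        have : U ×ˢ {y : Fin n → ℝ | y ≠ 0} ∈ 𝓝 (x, z) :=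
          prod_mem_nhds (hF.isOpen.mem_nhds hx) (isOpen_ne0.mem_nhds hz)
        exact (hF.smooth.contDiffAt this).pow 2
      rw [mixed hcd]
      have e1 : fderiv ℝ (fun u => fderiv ℝ (fun z' => F z' u ^ 2) x
          (Pi.single k (1 : ℝ) : Fin n → ℝ)) z (Pi.single l (1 : ℝ) : Fin n → ℝ) =
          pd l (fun u => ∑ m, ∑ j, Γ x k j m * u j * pd m Q u) z :=
        pd_congr (fun u hu => hΓ x hx u hu k) l hz
      rw [e1, pd_sum (fun m _ => Sm.sum fun j _ =>
        ((sm_const _).mul (sm_coord j)).mul (hQ.sm.pd m)) l hz, ← Finset.sum_add_distrib]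
      refine Finset.sum_congr rfl fun m _ => ?_
      rw [pd_sum (fun j _ => ((sm_const _).mul (sm_coord j)).mul (hQ.sm.pd m)) l hz]
      have e2 : ∀ j, pd l (fun u => Γ x k j m * u j * pd m Q u) z =
          Γ x k j m * (if j = l then 1 else 0) * pd m Q z +
            Γ x k j m * z j * pd l (pd m Q) z := by
        intro j
        rw [pd_mul ((sm_const _).mul (sm_coord j)) (hQ.sm.pd m) l hz,
          pd_const_mul (sm_coord j) _ l hz, pd_coord]
      simp only [e2, Finset.sum_add_distrib]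
      simp
    have hx1 : fderiv ℝ (fun z' => F z' z ^ 2) x (Pi.single l (1 : ℝ) : Fin n → ℝ) =
        ∑ m, ∑ j, Γ x l j m * z j * pd m Q z := hΓ x hx z hz l
    simp only [hmix] at hsp
    rw [hx1] at hsp
    have hsp2 : ∑ i, pd i (pd l Q) z * G x z i = (1 / 2 : ℝ) *
        ((∑ k, (∑ m, Γ x k l m * pd m Q z + ∑ m, ∑ j, Γ x k j m * z j * pd l (pd m Q) z) * z k) -
          ∑ m, ∑ j, Γ x l j m * z j * pd m Q z) := by
      have e3 : ∑ i, pd i (pd l Q) z * G x z i = 2 * ∑ i : Fin n,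
          (1 / 2 : ℝ) * fderiv ℝ (fun w => fderiv ℝ (fun u => F x u ^ 2) w
              (Pi.single i (1 : ℝ) : Fin n → ℝ)) z (Pi.single l (1 : ℝ) : Fin n → ℝ)
            * G x z i := by
        rw [Finset.mul_sum]
        refine Finset.sum_congr rfl fun i _ => ?_
        rw [pd2_symm hQ i l hz]
        unfold pd
        ring
      rw [e3, hsp]; ring
    -- first part: the torsion terms
    have h1 : (∑ k, (∑ m, Γ x k l m * pd m Q z) * z k) - ∑ m, ∑ j, Γ x l j m * z j * pd m Q z =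
        (∑ k, η x k * z k) * pd l Q z - η x l * (2 * Q z) := by
      have a1 : (∑ k, (∑ m, Γ x k l m * pd m Q z) * z k) =
          ∑ m, ∑ k, Γ x k l m * z k * pd m Q z := by
        simp only [Finset.sum_mul]
        rw [Finset.sum_comm]
        exact Finset.sum_congr rfl fun m _ => Finset.sum_congr rfl fun k _ => by ring
      have a2 : ∀ m, ∑ k, Γ x k l m * z k * pd m Q z - ∑ k, Γ x l k m * z k * pd m Q z =
          (∑ k, η x k * z k) * pd m Q z * (if m = l then 1 else 0) -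
            η x l * (z m * pd m Q z) := by
        intro m
        rw [← Finset.sum_sub_distrib]
        have a3 : ∀ k, Γ x k l m * z k * pd m Q z - Γ x l k m * z k * pd m Q z =
            η x k * z k * (pd m Q z * (if m = l then 1 else 0)) -
              (if m = k then 1 else 0) * (η x l * (z k * pd m Q z)) := by
          intro k
          have := hη x hx k l m
          calc _ = (Γ x k l m - Γ x l k m) * (z k * pd m Q z) := by ring
            _ = _ := by rw [this]; ring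
        simp only [a3, Finset.sum_sub_distrib, ← Finset.sum_mul]
        simp
      rw [a1, ← Finset.sum_sub_distrib]
      simp only [a2, Finset.sum_sub_distrib]
      rw [← Finset.mul_sum, euler1 hQ hz]
      simp
    -- second part
    have h2 : (∑ k, (∑ m, ∑ j, Γ x k j m * z j * pd l (pd m Q) z) * z k) =
        ∑ m, pd m (pd l Q) z * ∑ k, ∑ j, Γ x k j m * z k * z j := by
      simp only [Finset.sum_mul, Finset.mul_sum]
      rw [Finset.sum_comm]
      refine Finset.sum_congr rfl fun m _ => Finset.sum_congr rfl fun k _ =>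
        Finset.sum_congr rfl fun j _ => ?_
      rw [pd2_symm hQ l m hz]; ring
    have h3 : ∑ i, pd i (pd l Q) z * quad i z = (1 / 2 : ℝ) *
        ((∑ m, pd m (pd l Q) z * ∑ k, ∑ j, Γ x k j m * z k * z j) +
          (∑ k, η x k * z k) * pd l Q z) := by
      have b1 : ∀ i, quad i z = (1 / 2 : ℝ) * (∑ k, ∑ j, Γ x k j i * z k * z j) +
          (1 / 2 : ℝ) * ((∑ k, η x k * z k) * z i) := by
        intro i
        rw [hquad]
        simp only [Finset.sum_mul, Finset.mul_sum]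
        rw [← Finset.sum_add_distrib]
        refine Finset.sum_congr rfl fun k _ => ?_
        have b2 : ∀ j, 1 / 2 * (Γ x k j i + η x k * (if i = j then 1 else 0)) * z k * z j =
            1 / 2 * (Γ x k j i * z k * z j) +
              (if i = j then 1 else 0) * (1 / 2 * (η x k * z k * z j)) := by
          intro j; ring
        simp only [b2, Finset.sum_add_distrib]
        simp
      simp only [b1, mul_add, Finset.sum_add_distrib]
      rw [Finset.mul_sum, ← euler2 hQ l hz, Finset.mul_sum, Finset.mul_sum]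
      congr 1
      · exact Finset.sum_congr rfl fun i _ => by ring
      · exact Finset.sum_congr rfl fun i _ => by ring
    have h4 : ∑ i, pd i (pd l Q) z * Z i z =
        ∑ i, pd i (pd l Q) z * quad i z - ∑ i, pd i (pd l Q) z * G x z i := by
      rw [← Finset.sum_sub_distrib]
      exact Finset.sum_congr rfl fun i _ => by rw [hZdef]; ring
    have h5 : (∑ k, (∑ m, Γ x k l m * pd m Q z +
        ∑ m, ∑ j, Γ x k j m * z j * pd l (pd m Q) z) * z k) =
        (∑ k, (∑ m, Γ x k l m * pd m Q z) * z k) +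
          ∑ k, (∑ m, ∑ j, Γ x k j m * z j * pd l (pd m Q) z) * z k := by
      rw [← Finset.sum_add_distrib]
      exact Finset.sum_congr rfl fun k _ => by ring
    rw [h4, h3, hsp2, h5, h2]
    linarith
  have hZs : ∀ i, Sm (Z i) := fun i => Z_sm hQ (η x) Z hA i
  have hGs : ∀ i, Sm (fun z => G x z i) := fun i =>
    Sm.congr ((hquad_sm i).sub (hZs i)) fun z _ => by rw [hZdef]; ring
  -- third derivatives
  have h3 : ∀ z, z ≠ 0 → ∀ i j k l, berwald G x z i j k l = - pd j (pd k (pd l (Z i))) z := by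
    intro z hz i j k l
    have c1 : ∀ u : Fin n → ℝ, u ≠ 0 → pd l (Z i) u = pd l (quad i) u - pd l (fun z => G x z i) u :=
      fun u hu => pd_sub (hquad_sm i) (hGs i) l hu
    have c2 : ∀ u : Fin n → ℝ, u ≠ 0 → pd k (pd l (Z i)) u =
        pd k (pd l (quad i)) u - pd k (pd l (fun z => G x z i)) u := fun u hu => by
      rw [pd_congr c1 k hu, pd_sub ((hquad_sm i).pd l) ((hGs i).pd l) k hu]
    have c3 : pd j (pd k (pd l (Z i))) z =
        pd j (pd k (pd l (quad i))) z - pd j (pd k (pd l (fun z => G x z i))) z := by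
      rw [pd_congr c2 j hz, pd_sub (((hquad_sm i).pd l).pd k) (((hGs i).pd l).pd k) j hz]
    have c4 : pd j (pd k (pd l (quad i))) z = 0 := pd3_quad _ j k l hz
    have c5 : berwald G x z i j k l = pd j (pd k (pd l (fun z => G x z i))) z := rfl
    rw [c5]; linarith
  have hL : ∀ z, z ≠ 0 → ∀ l, ∑ j, ∑ k, P Q j k z *
      ∑ i, pd i Q z * pd l (pd k (pd j (Z i))) z = 0 := by
    intro z hz l
    have h := mean_iff x z hQ hz l (hJ x hx z hz l)
    rw [← neg_eq_zero, ← Finset.sum_neg_distrib, ← h]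
    refine Finset.sum_congr rfl fun j _ => ?_
    rw [← Finset.sum_neg_distrib]
    refine Finset.sum_congr rfl fun k _ => ?_
    rw [← mul_neg, ← Finset.sum_neg_distrib]
    congr 1
    refine Finset.sum_congr rfl fun i _ => ?_
    rw [h3 z hz i j k l, mul_neg]
    congr 2
    -- reorder the derivatives
    rw [pd_comm ((hZs i).pd j) l k hz, pd_congr (fun u hu => pd_comm (hZs i) l j hu) k hz,
      pd_comm ((hZs i).pd l) k j hz]
  refine ⟨fun i j k l => ?_, fun hne i j k => ?_⟩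
  · rw [h3 y hy i j k l, Z3 hleg hjac hdei hQ (η x) Z hA hL hy i j k l, neg_zero]
  · exact fibre hQ (η x) Z hZs hA hL hleg hjac hdei hne hy i j k

end Pool.Agent.R774.BW
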