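import Pool.Agent.R774.BW.Stm

/-! # BW-JAC: the mean Cartan form vanishes somewhere

`det A` is a positive `0`-homogeneous function, so it attains a maximum on the unit sphere, which
is a local maximum on the open set `y ≠ 0`; there the logarithmic derivative of `det A`, the mean
Cartan form, vanishes by the Jacobi formula. -/

set_option autoImplicit false

open scoped BigOperators ContDiff Topology
open Filter Set

namespace Pool.Agent.R774.BW.X

theorem hasDerivAt_det {n : ℕ} {A : ℝ → Matrix (Fin n) (Fin n) ℝ} {A' : Matrix (Fin n) (Fin n) ℝ}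
    {t : ℝ} (h : ∀ i j, HasDerivAt (fun s => A s i j) (A' i j) t) :
    HasDerivAt (fun s => (A s).det) (∑ i, ((A t).updateRow i (A' i)).det) t := by
  have h1 : ∀ s, (A s).det =
      ∑ σ : Equiv.Perm (Fin n), ((Equiv.Perm.sign σ : ℤ) : ℝ) * ∏ l, A s l (σ l) := by
    intro s
    rw [← Matrix.det_transpose, Matrix.det_apply']
    rfl
  have h2 : (∑ i, ((A t).updateRow i (A' i)).det) =
      ∑ σ : Equiv.Perm (Fin n), ((Equiv.Perm.sign σ : ℤ) : ℝ) *
        ∑ i, (∏ l ∈ Finset.univ.erase i, A t l (σ l)) * A' i (σ i) := by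
    simp only [Finset.mul_sum]
    rw [Finset.sum_comm]
    apply Finset.sum_congr rfl
    intro i _
    rw [← Matrix.det_transpose, Matrix.det_apply']
    apply Finset.sum_congr rfl
    intro σ _
    congr 1
    rw [← Finset.mul_prod_erase Finset.univ _ (Finset.mem_univ i), mul_comm]
    congr 1
    · apply Finset.prod_congr rfl
      intro l hl
      rw [Matrix.transpose_apply, Matrix.updateRow_ne (Finset.mem_erase.mp hl).1]
    · simp [Matrix.updateRow_self]
  rw [h2]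
  simp only [h1]
  apply HasDerivAt.fun_sum
  intro σ _
  apply HasDerivAt.const_mul
  have h3 := HasDerivAt.fun_finsetProd (u := (Finset.univ : Finset (Fin n)))
    (f := fun l s => A s l (σ l)) (f' := fun l => A' l (σ l)) (x := t) (fun l _ => h l (σ l))
  simpa [smul_eq_mul] using h3

theorem opn {n : ℕ} : IsOpen {y : Fin n → ℝ | y ≠ 0} := isOpen_ne

theorem pd_smooth {n : ℕ} {f : (Fin n → ℝ) → ℝ} (hf : ContDiffOn ℝ ∞ f {y | y ≠ 0}) (k : Fin n) :
    ContDiffOn ℝ ∞ (pd k f) {y | y ≠ 0} := by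
  unfold pd
  have h1 : ContDiffOn ℝ ∞ (fderiv ℝ f) {y | y ≠ 0} :=
    hf.fderiv_of_isOpen opn (by simp)
  exact h1.clm_apply contDiffOn_const

theorem diffAt {n : ℕ} {f : (Fin n → ℝ) → ℝ} (hf : ContDiffOn ℝ ∞ f {y | y ≠ 0})
    {y : Fin n → ℝ} (hy : y ≠ 0) : DifferentiableAt ℝ f y :=
  (hf.contDiffAt (opn.mem_nhds hy)).differentiableAt (by simp)

theorem pd_hom {n : ℕ} {f : (Fin n → ℝ) → ℝ} (hf : ContDiffOn ℝ ∞ f {y | y ≠ 0}) {t c : ℝ}
    (ht : 0 < t) (h : ∀ y, y ≠ 0 → f (t • y) = c * f y) (k : Fin n) (y : Fin n → ℝ)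
    (hy : y ≠ 0) : t * pd k f (t • y) = c * pd k f y := by
  have hty : t • y ≠ 0 := smul_ne_zero ht.ne' hy
  have h1 : HasFDerivAt (fun z : Fin n → ℝ => t • z) (t • ContinuousLinearMap.id ℝ (Fin n → ℝ)) y :=
    (hasFDerivAt_id y).const_smul t
  have h2 : HasFDerivAt f (fderiv ℝ f (t • y)) (t • y) := (diffAt hf hty).hasFDerivAt
  have h3 := h2.comp y h1
  have h4 : HasFDerivAt (fun z => c * f z) (c • fderiv ℝ f y) y :=
    (diffAt hf hy).hasFDerivAt.const_mul c
  have h5 : (fun z => c * f z) =ᶠ[𝓝 y] (f ∘ fun z : Fin n → ℝ => t • z) := by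
    filter_upwards [opn.mem_nhds hy] with z hz
    exact (h z hz).symm
  have h6 := (h3.congr_of_eventuallyEq h5).unique h4
  have h7 := congrArg (fun L : (Fin n → ℝ) →L[ℝ] ℝ => L (Pi.single k (1 : ℝ))) h6
  simp only [ContinuousLinearMap.coe_comp', Function.comp_apply, ContinuousLinearMap.coe_smul',
    Pi.smul_apply, ContinuousLinearMap.coe_id', id_eq, map_smul, smul_eq_mul] at h7
  exact h7

theorem hess_hom {n : ℕ} {Q : (Fin n → ℝ) → ℝ} (hQ : MN Q) {t : ℝ} (ht : 0 < t) (i j : Fin n)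
    (y : Fin n → ℝ) (hy : y ≠ 0) : pd i (pd j Q) (t • y) = pd i (pd j Q) y := by
  have h1 : ∀ y, y ≠ 0 → pd j Q (t • y) = t * pd j Q y := by
    intro y hy
    have := pd_hom hQ.smooth ht (c := t ^ 2) (fun y hy => hQ.hom y hy t ht) j y hy
    have h2 : t * (pd j Q (t • y) - t * pd j Q y) = 0 := by linear_combination this
    rcases mul_eq_zero.mp h2 with h | h
    · exact absurd h ht.ne'
    · linarith
  have h2 := pd_hom (pd_smooth hQ.smooth j) ht (c := t) h1 i y hy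
  exact mul_left_cancel₀ ht.ne' h2

theorem hess_symm {n : ℕ} {Q : (Fin n → ℝ) → ℝ} (hQ : ContDiffOn ℝ ∞ Q {y | y ≠ 0}) (i j : Fin n)
    (y : Fin n → ℝ) (hy : y ≠ 0) : pd i (pd j Q) y = pd j (pd i Q) y := by
  have h0 : ContDiffAt ℝ ∞ Q y := hQ.contDiffAt (opn.mem_nhds hy)
  have hd : DifferentiableAt ℝ (fderiv ℝ Q) y := by
    have h1 : ContDiffOn ℝ ∞ (fderiv ℝ Q) {y | y ≠ 0} := hQ.fderiv_of_isOpen opn (by simp)
    exact (h1.contDiffAt (opn.mem_nhds hy)).differentiableAt (by simp)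
  have e : ∀ k l : Fin n, pd k (pd l Q) y =
      fderiv ℝ (fderiv ℝ Q) y (Pi.single k 1) (Pi.single l 1) := by
    intro k l
    have h2 : HasFDerivAt (pd l Q)
        (((ContinuousLinearMap.apply ℝ ℝ (Pi.single l (1 : ℝ) : Fin n → ℝ))).comp
          (fderiv ℝ (fderiv ℝ Q) y)) y :=
      (ContinuousLinearMap.hasFDerivAt (ContinuousLinearMap.apply ℝ ℝ
        (Pi.single l (1 : ℝ) : Fin n → ℝ))).comp y hd.hasFDerivAt
    show fderiv ℝ (pd l Q) y (Pi.single k 1) = _
    rw [h2.fderiv]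
    rfl
  rw [e, e]
  have h2 : (2 : WithTop ℕ∞) ≤ ∞ := by
    have : ((2 : ℕ∞) : WithTop ℕ∞) ≤ ((⊤ : ℕ∞) : WithTop ℕ∞) := WithTop.coe_le_coe.mpr le_top
    exact this
  have hs : IsSymmSndFDerivAt ℝ Q y := h0.isSymmSndFDerivAt (by simpa using h2)
  exact hs.eq _ _

theorem A_symm {n : ℕ} {Q : (Fin n → ℝ) → ℝ} (hQ : MN Q) (y : Fin n → ℝ) (hy : y ≠ 0) :
    (A Q y).transpose = A Q y := by
  ext i j
  exact hess_symm hQ.smooth j i y hy

theorem det_ne {n : ℕ} {Q : (Fin n → ℝ) → ℝ} (hQ : MN Q) (y : Fin n → ℝ) (hy : y ≠ 0) :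
    (A Q y).det ≠ 0 := by
  intro h
  obtain ⟨v, hv, hv0⟩ := Matrix.exists_mulVec_eq_zero_iff.mpr h
  have h1 := hQ.conv y hy v hv
  have h2 : ∑ i, ∑ j, pd i (pd j Q) y * v i * v j = ∑ i, v i * ((A Q y).mulVec v) i := by
    apply Finset.sum_congr rfl
    intro i _
    rw [Matrix.mulVec, dotProduct, Finset.mul_sum]
    apply Finset.sum_congr rfl
    intro j _
    simp only [A, Matrix.of_apply]
    ring
  rw [h2, hv0] at h1
  simp at h1

theorem det_cont {n : ℕ} {Q : (Fin n → ℝ) → ℝ} (hQ : MN Q) :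
    ContinuousOn (fun y => (A Q y).det) {y | y ≠ 0} := by
  have h1 : ∀ y, (A Q y).det =
      ∑ σ : Equiv.Perm (Fin n), ((Equiv.Perm.sign σ : ℤ) : ℝ) * ∏ l, pd (σ l) (pd l Q) y := by
    intro y
    rw [Matrix.det_apply']
    rfl
  simp only [h1]
  apply continuousOn_finsetSum
  intro σ _
  apply ContinuousOn.mul continuousOn_const
  apply continuousOn_finsetProd
  intro l _
  exact (pd_smooth (pd_smooth hQ.smooth l) (σ l)).continuousOn

theorem deriv_det {n : ℕ} {Q : (Fin n → ℝ) → ℝ} (hQ : MN Q) (y : Fin n → ℝ) (hy : y ≠ 0)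
    (k : Fin n) :
    HasDerivAt (fun s : ℝ => (A Q (y + s • Pi.single k (1 : ℝ))).det)
      ((A Q y).det * th Q k y) 0 := by
  have h1 : ∀ i j, HasDerivAt (fun s : ℝ => A Q (y + s • Pi.single k (1 : ℝ)) i j)
      ((Matrix.of fun i j => pd k (pd i (pd j Q)) y : Matrix (Fin n) (Fin n) ℝ) i j) 0 := by
    intro i j
    have h2 : HasDerivAt (fun s : ℝ => y + s • (Pi.single k (1 : ℝ) : Fin n → ℝ))
        (Pi.single k (1 : ℝ)) 0 := by
      have := ((hasDerivAt_id (0 : ℝ)).smul_const (Pi.single k (1 : ℝ) : Fin n → ℝ)).const_add y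
      simpa using this
    have h3 : HasFDerivAt (pd i (pd j Q)) (fderiv ℝ (pd i (pd j Q)) y)
        (y + (0 : ℝ) • (Pi.single k (1 : ℝ) : Fin n → ℝ)) := by
      rw [zero_smul, add_zero]
      exact (diffAt (pd_smooth (pd_smooth hQ.smooth j) i) hy).hasFDerivAt
    exact h3.comp_hasDerivAt (0 : ℝ) h2
  have h4 := hasDerivAt_det h1
  convert h4 using 1
  rw [zero_smul, add_zero]
  have h5 : ∀ (i : Fin n) (b : Fin n → ℝ), ((A Q y).updateRow i b).det =
      ∑ j, (A Q y).det * P Q i j y * b j := by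
    intro i b
    rw [← Matrix.cramer_transpose_apply, A_symm hQ y hy, Matrix.cramer_eq_adjugate_mulVec,
      Matrix.mulVec, dotProduct]
    apply Finset.sum_congr rfl
    intro j _
    congr 1
    unfold P
    rw [Matrix.inv_def, Matrix.smul_apply, smul_eq_mul, Ring.inverse_eq_inv']
    field_simp [det_ne hQ y hy]
  unfold th
  rw [Finset.mul_sum]
  apply Finset.sum_congr rfl
  intro i _
  rw [h5, Finset.mul_sum]
  apply Finset.sum_congr rfl
  intro j _
  rw [mul_assoc]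
  rfl

end Pool.Agent.R774.BW.X

namespace Pool.Agent.R774.BW

open X in
theorem t_jac : S_jac := by
  intro n hn Q hQ
  haveI : Nonempty (Fin n) := ⟨⟨0, hn⟩⟩
  have hsub : Metric.sphere (0 : Fin n → ℝ) 1 ⊆ {y | y ≠ 0} := by
    intro y hy h0
    rw [mem_sphere_zero_iff_norm] at hy
    rw [h0] at hy
    simp at hy
  have hne : (Metric.sphere (0 : Fin n → ℝ) 1).Nonempty := by
    refine ⟨Pi.single ⟨0, hn⟩ 1, ?_⟩
    rw [mem_sphere_zero_iff_norm, Pi.norm_single]
    simp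
  obtain ⟨y0, hy0, hmax⟩ := (isCompact_sphere (0 : Fin n → ℝ) 1).exists_isMaxOn hne
    ((det_cont hQ).mono hsub)
  have hy00 : y0 ≠ 0 := hsub hy0
  have hglob : ∀ y, y ≠ 0 → (A Q y).det ≤ (A Q y0).det := by
    intro y hy
    have hpos : 0 < ‖y‖⁻¹ := inv_pos.mpr (norm_pos_iff.mpr hy)
    have h1 : A Q (‖y‖⁻¹ • y) = A Q y := by
      ext i j
      exact hess_hom hQ hpos i j y hy
    have h2 : ‖y‖⁻¹ • y ∈ Metric.sphere (0 : Fin n → ℝ) 1 := by
      rw [mem_sphere_zero_iff_norm, norm_smul, norm_inv, norm_norm]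
      exact inv_mul_cancel₀ (norm_ne_zero_iff.mpr hy)
    have h3 := hmax h2
    simp only [mem_setOf_eq] at h3
    rw [h1] at h3
    exact h3
  refine ⟨y0, hy00, fun k => ?_⟩
  have hd := deriv_det hQ y0 hy00 k
  have hloc : IsLocalMax (fun s : ℝ => (A Q (y0 + s • Pi.single k (1 : ℝ))).det) 0 := by
    have hc : Tendsto (fun s : ℝ => y0 + s • (Pi.single k (1 : ℝ) : Fin n → ℝ)) (𝓝 0) (𝓝 y0) := by
      have : Continuous (fun s : ℝ => y0 + s • (Pi.single k (1 : ℝ) : Fin n → ℝ)) := by fun_prop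
      have h := this.tendsto 0
      simpa using h
    filter_upwards [hc (opn.mem_nhds hy00)] with s hs
    have := hglob _ hs
    simpa using this
  have hz := hloc.hasDerivAt_eq_zero hd
  rcases mul_eq_zero.mp hz with h | h
  · exact absurd h (det_ne hQ y0 hy00)
  · exact h

end Pool.Agent.R774.BW
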