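import Pool.Agent.R774.BW.Stm

/-! # BW-LEG: Legendre transform, invariant functions are constant -/

set_option autoImplicit false

open scoped BigOperators ContDiff Topology
open Filter Set

namespace Pool.Agent.R774.BW

namespace LegX

variable {n : ℕ} {Q : (Fin n → ℝ) → ℝ}

theorem openU : IsOpen {y : Fin n → ℝ | y ≠ 0} := isOpen_ne

theorem cda (h : MN Q) {y : Fin n → ℝ} (hy : y ≠ 0) : ContDiffAt ℝ ∞ Q y :=
  (h.smooth y hy).contDiffAt (openU.mem_nhds hy)

theorem pd_cda (h : MN Q) (l : Fin n) {y : Fin n → ℝ} (hy : y ≠ 0) : ContDiffAt ℝ ∞ (pd l Q) y := by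
  have h1 : ContDiffAt ℝ ∞ (fderiv ℝ Q) y := (cda h hy).fderiv_right (m := ∞) (by simp)
  exact h1.clm_apply contDiffAt_const

/-- the Legendre transform -/
noncomputable def T (Q : (Fin n → ℝ) → ℝ) (y : Fin n → ℝ) : Fin n → ℝ := fun l => pd l Q y

theorem T_cda (h : MN Q) {y : Fin n → ℝ} (hy : y ≠ 0) : ContDiffAt ℝ ∞ (T Q) y :=
  contDiffAt_pi.2 fun l => pd_cda h l hy

theorem clm_sum (L : (Fin n → ℝ) →L[ℝ] ℝ) (v : Fin n → ℝ) :
    L v = ∑ i, L (Pi.single i 1) * v i := by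
  have h : v = ∑ i, v i • (Pi.single i (1 : ℝ) : Fin n → ℝ) := by
    ext j
    rw [Finset.sum_apply, Finset.sum_eq_single j]
    · simp
    · intro i _ hij
      simp [Pi.single_apply, hij.symm]
    · intro h
      exact absurd (Finset.mem_univ j) h
  conv_lhs => rw [h]
  rw [map_sum]
  refine Finset.sum_congr rfl fun i _ => ?_
  rw [map_smul, smul_eq_mul, mul_comm]

theorem fd_sum (y v : Fin n → ℝ) : fderiv ℝ Q y v = ∑ l, T Q y l * v l :=
  clm_sum (fderiv ℝ Q y) v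

theorem T'_apply (h : MN Q) {y : Fin n → ℝ} (hy : y ≠ 0) (v : Fin n → ℝ) (l : Fin n) :
    fderiv ℝ (T Q) y v l = ∑ i, pd i (pd l Q) y * v i := by
  have h1 : fderiv ℝ (T Q) y = ContinuousLinearMap.pi fun l => fderiv ℝ (pd l Q) y :=
    fderiv_pi fun l => (pd_cda h l hy).differentiableAt (by simp)
  rw [h1, ContinuousLinearMap.pi_apply, clm_sum (fderiv ℝ (pd l Q) y) v]
  rfl

theorem T'_pos (h : MN Q) {y : Fin n → ℝ} (hy : y ≠ 0) {v : Fin n → ℝ} (hv : v ≠ 0) :
    0 < ∑ l, fderiv ℝ (T Q) y v l * v l := by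
  have h1 := h.conv y hy v hv
  rw [Finset.sum_comm] at h1
  refine lt_of_lt_of_eq h1 (Finset.sum_congr rfl fun l _ => ?_)
  rw [T'_apply h hy, Finset.sum_mul]

theorem T'_inj (h : MN Q) {y : Fin n → ℝ} (hy : y ≠ 0) :
    Function.Injective (fderiv ℝ (T Q) y) := by
  rw [injective_iff_map_eq_zero]
  intro v hv
  by_contra hne
  have h1 := T'_pos h hy hne
  rw [hv] at h1
  simp at h1

/-- the derivative as an equivalence -/
theorem exists_equiv (h : MN Q) {y : Fin n → ℝ} (hy : y ≠ 0) :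
    ∃ e : (Fin n → ℝ) ≃L[ℝ] (Fin n → ℝ), (e : (Fin n → ℝ) →L[ℝ] (Fin n → ℝ)) =
      fderiv ℝ (T Q) y := by
  refine ⟨(LinearEquiv.ofInjectiveEndo (fderiv ℝ (T Q) y).toLinearMap
    (T'_inj h hy)).toContinuousLinearEquiv, ?_⟩
  ext v : 1
  rfl

theorem euler (h : MN Q) {y : Fin n → ℝ} (hy : y ≠ 0) : ∑ l, T Q y l * y l = 2 * Q y := by
  rw [← fd_sum]
  have h1 : HasDerivAt (fun t : ℝ => Q (t • y)) (fderiv ℝ Q y y) 1 := by
    have h2 : HasFDerivAt Q (fderiv ℝ Q y) ((1 : ℝ) • y) := by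
      rw [one_smul]
      exact ((cda h hy).differentiableAt (by simp)).hasFDerivAt
    have h3 : HasDerivAt (fun t : ℝ => t • y) ((1 : ℝ) • y) 1 := (hasDerivAt_id 1).smul_const y
    rw [one_smul] at h3
    exact h2.comp_hasDerivAt 1 h3
  have h4 : HasDerivAt (fun t : ℝ => t ^ 2 * Q y) (2 * Q y) 1 := by
    have h5 := (hasDerivAt_pow 2 (1 : ℝ)).mul_const (Q y)
    simpa using h5
  have h6 : (fun t : ℝ => t ^ 2 * Q y) =ᶠ[𝓝 1] fun t : ℝ => Q (t • y) := by
    filter_upwards [lt_mem_nhds (zero_lt_one (α := ℝ))] with t ht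
    exact (h.hom y hy t ht).symm
  exact (h4.congr_of_eventuallyEq h6.symm).unique h1 |>.symm

theorem T_ne (h : MN Q) {y : Fin n → ℝ} (hy : y ≠ 0) : T Q y ≠ 0 := by
  intro h1
  have h2 := euler h hy
  have h3 := h.pos y hy
  rw [h1] at h2
  simp at h2
  linarith

theorem T_smul (h : MN Q) {y : Fin n → ℝ} (hy : y ≠ 0) {t : ℝ} (ht : 0 < t) :
    T Q (t • y) = t • T Q y := by
  have hty : t • y ≠ 0 := smul_ne_zero ht.ne' hy
  have h1 : HasFDerivAt (fun x : Fin n → ℝ => Q (t • x))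
      ((fderiv ℝ Q (t • y)).comp (t • ContinuousLinearMap.id ℝ (Fin n → ℝ))) y := by
    have h2 : HasFDerivAt Q (fderiv ℝ Q (t • y)) (t • y) :=
      ((cda h hty).differentiableAt (by simp)).hasFDerivAt
    have h3 : HasFDerivAt (fun x : Fin n → ℝ => t • x)
      (t • ContinuousLinearMap.id ℝ (Fin n → ℝ)) y := (hasFDerivAt_id y).const_smul t
    exact h2.comp y h3
  have h4 : HasFDerivAt (fun x : Fin n → ℝ => t ^ 2 * Q x) (t ^ 2 • fderiv ℝ Q y) y :=
    (((cda h hy).differentiableAt (by simp)).hasFDerivAt).const_mul (t ^ 2)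
  have h5 : (fun x : Fin n → ℝ => t ^ 2 * Q x) =ᶠ[𝓝 y] fun x => Q (t • x) := by
    filter_upwards [openU.mem_nhds hy] with x hx
    exact (h.hom x hx t ht).symm
  have h6 := (h4.congr_of_eventuallyEq h5.symm).unique h1
  funext l
  have h7 := congrArg (fun L : (Fin n → ℝ) →L[ℝ] ℝ => L (Pi.single l 1)) h6
  have h8 : t ^ 2 * pd l Q y = fderiv ℝ Q (t • y) (t • (Pi.single l (1 : ℝ) : Fin n → ℝ)) := h7
  rw [map_smul, smul_eq_mul] at h8
  show pd l Q (t • y) = t * pd l Q y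
  have h9 : t * (t * pd l Q y) = t * pd l Q (t • y) := by
    unfold pd at h8 ⊢
    rw [← h8]
    ring
  exact (mul_left_cancel₀ ht.ne' h9).symm

theorem T_hfd (h : MN Q) {y : Fin n → ℝ} (hy : y ≠ 0) :
    HasStrictFDerivAt (T Q) (fderiv ℝ (T Q) y) y :=
  (T_cda h hy).hasStrictFDerivAt (by simp)

theorem T_inj (h : MN Q) {y z : Fin n → ℝ} (hy : y ≠ 0) (hz : z ≠ 0) (hT : T Q y = T Q z) :
    y = z := by
  by_contra hne
  have hd : z - y ≠ 0 := sub_ne_zero.2 (Ne.symm hne)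
  by_cases hs : ∃ s ∈ Icc (0 : ℝ) 1, y + s • (z - y) = 0
  · obtain ⟨s, ⟨hs0, hs1⟩, hsz⟩ := hs
    have h1 : ∑ l, T Q y l * (y + s • (z - y)) l = 0 := by
      rw [hsz]
      simp
    have h2 : ∑ l, T Q y l * (y + s • (z - y)) l =
        (1 - s) * ∑ l, T Q y l * y l + s * ∑ l, T Q y l * z l := by
      rw [Finset.mul_sum, Finset.mul_sum, ← Finset.sum_add_distrib]
      refine Finset.sum_congr rfl fun l _ => ?_
      simp only [Pi.add_apply, Pi.smul_apply, Pi.sub_apply, smul_eq_mul]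
      ring
    rw [h2, euler h hy, hT, euler h hz] at h1
    have h3 := h.pos y hy
    have h4 := h.pos z hz
    rcases hs0.lt_or_eq with h5 | h5
    · have h6 : 0 ≤ (1 - s) * (2 * Q y) := mul_nonneg (by linarith) (by linarith)
      have h7 : 0 < s * (2 * Q z) := mul_pos h5 (by linarith)
      linarith
    · rw [← h5] at h1
      linarith
  · push Not at hs
    have hder : ∀ s ∈ Icc (0 : ℝ) 1, HasDerivAt
        (fun s : ℝ => ∑ l, T Q (y + s • (z - y)) l * (z - y) l)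
        (∑ l, fderiv ℝ (T Q) (y + s • (z - y)) (z - y) l * (z - y) l) s := by
      intro s hs'
      have h1 : HasFDerivAt (T Q) (fderiv ℝ (T Q) (y + s • (z - y))) (y + s • (z - y)) :=
        (T_hfd h (hs s hs')).hasFDerivAt
      have h2 : HasDerivAt (fun s : ℝ => y + s • (z - y)) ((1 : ℝ) • (z - y)) s :=
        ((hasDerivAt_id s).smul_const (z - y)).const_add y
      rw [one_smul] at h2
      have h3 := h1.comp_hasDerivAt s h2
      have h4 := hasDerivAt_pi.1 h3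
      exact HasDerivAt.fun_sum fun l _ => (h4 l).mul_const _
    obtain ⟨s, hs', hs0⟩ := exists_hasDerivAt_eq_zero (zero_lt_one (α := ℝ))
      (fun s hs' => (hder s hs').continuousAt.continuousWithinAt)
      (by simp only [zero_smul, add_zero, one_smul, add_sub_cancel, hT])
      (fun s hs' => hder s (Ioo_subset_Icc_self hs'))
    have h5 := T'_pos h (hs s (Ioo_subset_Icc_self hs')) hd
    linarith

theorem T_surj (h : MN Q) {p : Fin n → ℝ} (hp : p ≠ 0) : ∃ y, y ≠ 0 ∧ T Q y = p := by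
  have hpp : 0 < ∑ l, p l * p l := by
    obtain ⟨i, hi⟩ := Function.ne_iff.1 hp
    have hi' : p i ≠ 0 := hi
    exact Finset.sum_pos' (fun j _ => mul_self_nonneg _)
      ⟨i, Finset.mem_univ i, mul_self_pos.2 hi'⟩
  obtain ⟨R, hR⟩ : ∃ R : (Fin n → ℝ) → ℝ, ∀ y, R y = (∑ l, p l * y l) / Real.sqrt (Q y) :=
    ⟨_, fun _ => rfl⟩
  have hRc : ContinuousOn R {y | y ≠ 0} := by
    have h1 : ContinuousOn (fun y : Fin n → ℝ => (∑ l, p l * y l) / Real.sqrt (Q y))
        {y | y ≠ 0} := by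
      refine ContinuousOn.div (by fun_prop) (h.smooth.continuousOn.sqrt) ?_
      intro y hy
      exact (Real.sqrt_pos.2 (h.pos y hy)).ne'
    exact h1.congr fun y _ => hR y
  have hRh : ∀ y, y ≠ 0 → ∀ t : ℝ, 0 < t → R (t • y) = R y := by
    intro y hy t ht
    rw [hR, hR, h.hom y hy t ht, Real.sqrt_mul (by positivity), Real.sqrt_sq ht.le]
    have h1 : ∑ l, p l * (t • y) l = t * ∑ l, p l * y l := by
      rw [Finset.mul_sum]
      refine Finset.sum_congr rfl fun l _ => ?_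
      rw [Pi.smul_apply, smul_eq_mul]
      ring
    rw [h1, mul_div_mul_left _ _ ht.ne']
  have hpn : 0 < ‖p‖ := norm_pos_iff.2 hp
  have hK : IsCompact (Metric.sphere (0 : Fin n → ℝ) 1) := isCompact_sphere _ _
  have hsub : ∀ y : Fin n → ℝ, y ∈ Metric.sphere (0 : Fin n → ℝ) 1 → y ≠ 0 := by
    intro y hy h0
    rw [h0, mem_sphere_zero_iff_norm, norm_zero] at hy
    exact zero_ne_one hy
  have hnorm : ∀ y : Fin n → ℝ, y ≠ 0 → ‖y‖⁻¹ • y ∈ Metric.sphere (0 : Fin n → ℝ) 1 := by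
    intro y hy
    rw [mem_sphere_zero_iff_norm, norm_smul, norm_inv, norm_norm,
      inv_mul_cancel₀ (norm_ne_zero_iff.2 hy)]
  obtain ⟨y, hyS, hymax⟩ := hK.exists_isMaxOn ⟨_, hnorm p hp⟩
    (hRc.mono fun y hy => hsub y hy)
  have hy : y ≠ 0 := hsub y hyS
  have hmax : ∀ x, x ≠ 0 → R x ≤ R y := by
    intro x hx
    have h1 := hymax (hnorm x hx)
    have h2 : R (‖x‖⁻¹ • x) = R x := hRh x hx _ (inv_pos.2 (norm_pos_iff.2 hx))
    rw [← h2]
    exact h1
  have hm : 0 < R y := by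
    refine lt_of_lt_of_le ?_ (hmax p hp)
    rw [hR]
    exact div_pos hpp (Real.sqrt_pos.2 (h.pos p hp))
  have hsy : 0 < Real.sqrt (Q y) := Real.sqrt_pos.2 (h.pos y hy)
  have hpy : ∑ l, p l * y l = R y * Real.sqrt (Q y) := by
    rw [hR, div_mul_cancel₀ _ hsy.ne']
  have hpy0 : 0 < ∑ l, p l * y l := by
    rw [hpy]
    exact mul_pos hm hsy
  -- the local minimum
  have hlin : ∀ x : Fin n → ℝ, HasFDerivAt (fun x : Fin n → ℝ => ∑ l, p l * x l)
      (∑ l, p l • (ContinuousLinearMap.proj l : (Fin n → ℝ) →L[ℝ] ℝ)) x := by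
    intro x
    exact HasFDerivAt.fun_sum fun l _ => (ContinuousLinearMap.hasFDerivAt
      (ContinuousLinearMap.proj l : (Fin n → ℝ) →L[ℝ] ℝ)).const_mul (p l)
  have hg : HasFDerivAt (fun x => R y ^ 2 * Q x - (∑ l, p l * x l) ^ 2)
      (R y ^ 2 • fderiv ℝ Q y - (2 * (∑ l, p l * y l)) •
        (∑ l, p l • (ContinuousLinearMap.proj l : (Fin n → ℝ) →L[ℝ] ℝ))) y := by
    have h1 := (((cda h hy).differentiableAt (by simp)).hasFDerivAt).const_mul (R y ^ 2)
    have h2 := (hlin y).pow 2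
    have h3 := h1.sub h2
    refine h3.congr_fderiv ?_
    simp
  have hmin : IsLocalMin (fun x => R y ^ 2 * Q x - (∑ l, p l * x l) ^ 2) y := by
    have h1 : ∀ᶠ x in 𝓝 y, 0 < ∑ l, p l * x l :=
      (hlin y).continuousAt.eventually (lt_mem_nhds hpy0)
    filter_upwards [h1, openU.mem_nhds hy] with x hx hx0
    have h2 : R y ^ 2 * Q y - (∑ l, p l * y l) ^ 2 = 0 := by
      rw [hpy, mul_pow, Real.sq_sqrt (h.pos y hy).le, sub_self]
    have hsx : 0 < Real.sqrt (Q x) := Real.sqrt_pos.2 (h.pos x hx0)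
    have h3 : ∑ l, p l * x l ≤ R y * Real.sqrt (Q x) := by
      have h4 := hmax x hx0
      rw [hR x, div_le_iff₀ hsx] at h4
      exact h4
    have h4 : (∑ l, p l * x l) ^ 2 ≤ R y ^ 2 * Q x := by
      have h5 := pow_le_pow_left₀ hx.le h3 2
      rwa [mul_pow, Real.sq_sqrt (h.pos x hx0).le] at h5
    show R y ^ 2 * Q y - (∑ l, p l * y l) ^ 2 ≤ R y ^ 2 * Q x - (∑ l, p l * x l) ^ 2
    rw [h2]
    linarith
  have h0 := hmin.hasFDerivAt_eq_zero hg
  refine ⟨(R y ^ 2 / (2 * ∑ l, p l * y l)) • y, smul_ne_zero (by positivity) hy, ?_⟩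
  rw [T_smul h hy (by positivity)]
  funext l
  have h1 := congrArg (fun L : (Fin n → ℝ) →L[ℝ] ℝ => L (Pi.single l 1)) h0
  have h2 : R y ^ 2 * pd l Q y - (2 * ∑ l, p l * y l) * p l = 0 := by
    have h3 : (∑ i, p i • (ContinuousLinearMap.proj i : (Fin n → ℝ) →L[ℝ] ℝ))
        (Pi.single l 1) = p l := by
      rw [ContinuousLinearMap.sum_apply, Finset.sum_eq_single l]
      · simp
      · intro i _ hi
        simp [Pi.single_apply, hi]
      · intro h
        exact absurd (Finset.mem_univ l) h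
    have h4 : R y ^ 2 * fderiv ℝ Q y (Pi.single l 1) - (2 * ∑ l, p l * y l) *
      (∑ i, p i • (ContinuousLinearMap.proj i : (Fin n → ℝ) →L[ℝ] ℝ)) (Pi.single l 1) = 0 := h1
    rw [h3] at h4
    exact h4
  show R y ^ 2 / (2 * ∑ l, p l * y l) * pd l Q y = p l
  rw [div_mul_eq_mul_div, div_eq_iff (by positivity)]
  linarith

end LegX

open LegX in
theorem t_leg : S_leg := by
  intro n hn Q hQ w hw Φ hΦd hΦh hΦ
  -- the inverse map
  obtain ⟨Y, hY⟩ : ∃ Y : (Fin n → ℝ) → (Fin n → ℝ), ∀ p, p ≠ 0 → Y p ≠ 0 ∧ T Q (Y p) = p := by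
    have h1 : ∀ p : Fin n → ℝ, ∃ y : Fin n → ℝ, p ≠ 0 → y ≠ 0 ∧ T Q y = p := by
      intro p
      by_cases hp : p = 0
      · exact ⟨0, fun h => absurd hp h⟩
      · obtain ⟨y, hy⟩ := T_surj hQ hp
        exact ⟨y, fun _ => hy⟩
    choose Y hY using h1
    exact ⟨Y, hY⟩
  have hYT : ∀ y, y ≠ 0 → Y (T Q y) = y := fun y hy =>
    T_inj hQ (hY _ (T_ne hQ hy)).1 hy (hY _ (T_ne hQ hy)).2
  have hYc : ∀ p, p ≠ 0 → ContinuousAt Y p := by
    intro p hp
    obtain ⟨hy, hT⟩ := hY p hp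
    obtain ⟨e, he⟩ := exists_equiv hQ hy
    have h1 : HasStrictFDerivAt (T Q) (e : (Fin n → ℝ) →L[ℝ] (Fin n → ℝ)) (Y p) := by
      rw [he]
      exact T_hfd hQ hy
    have h2 := h1.map_nhds_eq_of_equiv
    rw [hT] at h2
    rw [ContinuousAt, ← h2, tendsto_map'_iff]
    refine tendsto_id.congr' ?_
    filter_upwards [openU.mem_nhds hy] with y hy'
    exact (hYT y hy').symm
  have hYd : ∀ p, p ≠ 0 → ∀ z, fderiv ℝ (T Q) (Y p) z = w →
      HasDerivAt (fun t : ℝ => Φ (Y (p + t • w))) 0 0 := by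
    intro p hp z hz
    obtain ⟨hy, hT⟩ := hY p hp
    obtain ⟨e, he⟩ := exists_equiv hQ hy
    have h1 : HasFDerivAt (T Q) (e : (Fin n → ℝ) →L[ℝ] (Fin n → ℝ)) (Y p) := by
      rw [he]
      exact (T_hfd hQ hy).hasFDerivAt
    have h2 : HasFDerivAt Y (e.symm : (Fin n → ℝ) →L[ℝ] (Fin n → ℝ)) p := by
      refine HasFDerivAt.of_local_left_inverse (hYc p hp) h1 ?_
      filter_upwards [openU.mem_nhds hp] with q hq
      exact (hY q hq).2
    have h3 : HasFDerivAt Φ (fderiv ℝ Φ (Y p)) (Y p) := (hΦd _ hy).hasFDerivAt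
    have h4 : HasFDerivAt (fun q => Φ (Y q)) ((fderiv ℝ Φ (Y p)).comp
      (e.symm : (Fin n → ℝ) →L[ℝ] (Fin n → ℝ))) p := h3.comp p h2
    have h5 : HasDerivAt (fun t : ℝ => p + t • w) ((1 : ℝ) • w) 0 :=
      ((hasDerivAt_id (0 : ℝ)).smul_const w).const_add p
    have h6 : HasFDerivAt (fun q => Φ (Y q)) ((fderiv ℝ Φ (Y p)).comp
      (e.symm : (Fin n → ℝ) →L[ℝ] (Fin n → ℝ))) (p + (0 : ℝ) • w) := by
      rw [zero_smul, add_zero]
      exact h4
    have h7 := h6.comp_hasDerivAt (0 : ℝ) h5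
    have h8 : e.symm w = z := by
      rw [ContinuousLinearEquiv.symm_apply_eq]
      have h9 : e z = (e : (Fin n → ℝ) →L[ℝ] (Fin n → ℝ)) z := rfl
      rw [h9, he, hz]
    have h10 : ((fderiv ℝ Φ (Y p)).comp (e.symm : (Fin n → ℝ) →L[ℝ] (Fin n → ℝ)))
        ((1 : ℝ) • w) = 0 := by
      rw [one_smul]
      show fderiv ℝ Φ (Y p) (e.symm w) = 0
      rw [h8]
      refine hΦ _ hy z fun l => ?_
      rw [← T'_apply hQ hy z l, hz]
    rw [h10] at h7
    exact h7
  have hYd' : ∀ p : Fin n → ℝ, ∀ t : ℝ, p + t • w ≠ 0 →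
      HasDerivAt (fun t : ℝ => Φ (Y (p + t • w))) 0 t := by
    intro p t hpt
    obtain ⟨hy, hT⟩ := hY _ hpt
    obtain ⟨e, he⟩ := exists_equiv hQ hy
    have h1 := hYd _ hpt (e.symm w) (by
      rw [← he]
      exact e.apply_symm_apply w)
    have h2 : HasDerivAt (fun s : ℝ => s - t) 1 t := (hasDerivAt_id t).sub_const t
    have h3 : HasDerivAt (fun s : ℝ => Φ (Y ((p + t • w) + (s - t) • w))) (0 * 1) t := by
      have h4 : HasDerivAt (fun t_1 : ℝ => Φ (Y (p + t • w + t_1 • w))) 0 (t - t) := by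
        rw [sub_self]
        exact h1
      exact HasDerivAt.comp (h := fun s : ℝ => s - t) t h4 h2
    rw [zero_mul] at h3
    refine h3.congr_of_eventuallyEq (Filter.Eventually.of_forall fun s => ?_)
    show Φ (Y (p + s • w)) = Φ (Y (p + t • w + (s - t) • w))
    rw [add_assoc, ← add_smul, add_sub_cancel]
  have hconst : ∀ p : Fin n → ℝ, (∀ t : ℝ, 0 ≤ t → p + t • w ≠ 0) → ∀ t : ℝ, 0 ≤ t →
      Φ (Y (p + t • w)) = Φ (Y p) := by
    intro p hp t ht
    have h1 := constant_of_has_deriv_right_zero (f := fun t : ℝ => Φ (Y (p + t • w)))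
      (a := 0) (b := t) (fun s hs => (hYd' p s (hp s hs.1)).continuousAt.continuousWithinAt)
      (fun s hs => (hYd' p s (hp s hs.1)).hasDerivWithinAt) t ⟨ht, le_rfl⟩
    simpa using h1
  have hΨh : ∀ p, p ≠ 0 → ∀ t : ℝ, 0 < t → Φ (Y (t • p)) = Φ (Y p) := by
    intro p hp t ht
    obtain ⟨hy, hT⟩ := hY p hp
    have h1 : Y (t • p) = t • Y p := by
      have h2 := hYT (t • Y p) (smul_ne_zero ht.ne' hy)
      rwa [T_smul hQ hy ht, hT] at h2
    rw [h1, hΦh _ hy t ht]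
  have hΨc : ∀ p, p ≠ 0 → ContinuousAt (fun q => Φ (Y q)) p := fun p hp =>
    ContinuousAt.comp (g := Φ) (hΦd _ (hY p hp).1).continuousAt (hYc p hp)
  have hray : ∀ p : Fin n → ℝ, p ≠ 0 → (∀ t : ℝ, 0 ≤ t → p + t • w ≠ 0) →
      Φ (Y p) = Φ (Y w) := by
    intro p hp0 hp
    have h1 : Tendsto (fun s : ℝ => Φ (Y (s • p + (1 - s) • w))) (𝓝[>] 0) (𝓝 (Φ (Y w))) := by
      have h2 : Tendsto (fun s : ℝ => s • p + (1 - s) • w) (𝓝 0) (𝓝 w) := by
        have h3 : Continuous fun s : ℝ => s • p + (1 - s) • w := by fun_prop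
        have h4 := h3.tendsto 0
        simpa using h4
      exact ((hΨc w hw).tendsto.comp h2).mono_left nhdsWithin_le_nhds
    have h5 : ∀ᶠ s : ℝ in 𝓝[>] 0, Φ (Y (s • p + (1 - s) • w)) = Φ (Y p) := by
      filter_upwards [Ioo_mem_nhdsGT (zero_lt_one (α := ℝ))] with s hs
      have h6 : s • p + (1 - s) • w = s • (p + ((1 - s) / s) • w) := by
        rw [smul_add, smul_smul, mul_div_cancel₀ _ hs.1.ne']
      have h7 : 0 ≤ (1 - s) / s := div_nonneg (by linarith [hs.2]) hs.1.le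
      rw [h6, hΨh _ (hp _ h7) s hs.1, hconst p hp _ h7]
    exact tendsto_nhds_unique (tendsto_const_nhds.congr' (h5.mono fun _ h => h.symm)) h1
  -- a vector which is not parallel to `w`
  obtain ⟨q, hq⟩ : ∃ q : Fin n → ℝ, q ∉ Submodule.span ℝ {w} := by
    by_contra hcon
    push Not at hcon
    have h1 : Submodule.span ℝ {w} = ⊤ := by
      rw [Submodule.eq_top_iff']
      exact hcon
    have h2 : Module.finrank ℝ (Submodule.span ℝ {w}) = 1 := finrank_span_singleton hw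
    rw [h1, finrank_top, Module.finrank_fin_fun] at h2
    omega
  have hall : ∀ p : Fin n → ℝ, p ≠ 0 → Φ (Y p) = Φ (Y w) := by
    intro p hp
    by_cases hps : p ∈ Submodule.span ℝ {w}
    · have h1 : Tendsto (fun s : ℝ => Φ (Y (p + s • q))) (𝓝[>] 0) (𝓝 (Φ (Y p))) := by
        have h2 : Tendsto (fun s : ℝ => p + s • q) (𝓝 0) (𝓝 p) := by
          have h3 : Continuous fun s : ℝ => p + s • q := by fun_prop
          have h4 := h3.tendsto 0
          simpa using h4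
        exact ((hΨc p hp).tendsto.comp h2).mono_left nhdsWithin_le_nhds
      have h5 : ∀ᶠ s : ℝ in 𝓝[>] 0, Φ (Y (p + s • q)) = Φ (Y w) := by
        filter_upwards [self_mem_nhdsWithin] with s hs
        have hs' : s ≠ 0 := (ne_of_gt hs)
        have h6 : ∀ t : ℝ, p + s • q + t • w ≠ 0 := by
          intro t h0
          apply hq
          have h7 : s • q = -(p + t • w) := by
            rw [eq_neg_iff_add_eq_zero, ← h0]
            abel
          have h8 : s • q ∈ Submodule.span ℝ {w} := by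
            rw [h7]
            exact Submodule.neg_mem _ (Submodule.add_mem _ hps
              (Submodule.smul_mem _ t (Submodule.mem_span_singleton_self w)))
          exact (Submodule.smul_mem_iff _ hs').1 h8
        refine hray _ ?_ fun t _ => h6 t
        have h9 := h6 0
        rwa [zero_smul, add_zero] at h9
      exact tendsto_nhds_unique h1 (tendsto_const_nhds.congr' (h5.mono fun _ h => h.symm))
    · refine hray p hp fun t _ h0 => hps ?_
      rw [eq_neg_of_add_eq_zero_left h0]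
      exact Submodule.neg_mem _ (Submodule.smul_mem _ t (Submodule.mem_span_singleton_self w))
  refine ⟨Φ (Y w), fun y hy => ?_⟩
  rw [← hall (T Q y) (T_ne hQ hy), hYT y hy]

end Pool.Agent.R774.BW
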