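import Pool.Agent.R774.BW.Fib

/-! # Project BW: from the Finsler metric to the fibre -/

set_option autoImplicit false

open scoped BigOperators ContDiff Topology Matrix
open Filter Set

namespace Pool.Agent.R774.BW

variable {n : ℕ}

/-- Schwarz for the mixed derivative in `x` and `y` -/
theorem mixed {f : (Fin n → ℝ) → (Fin n → ℝ) → ℝ} {x y : Fin n → ℝ}
    (h : ContDiffAt ℝ ∞ (fun p : (Fin n → ℝ) × (Fin n → ℝ) => f p.1 p.2) (x, y))
    (a b : Fin n → ℝ) :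
    fderiv ℝ (fun z => fderiv ℝ (fun u => f z u) y a) x b =
      fderiv ℝ (fun u => fderiv ℝ (fun z => f z u) x b) y a := by
  set Ψ : (Fin n → ℝ) × (Fin n → ℝ) → ℝ := fun p => f p.1 p.2 with hΨ
  have hev : ∀ᶠ p in 𝓝 (x, y), DifferentiableAt ℝ Ψ p := by
    have h1 : ContDiffAt ℝ 1 Ψ (x, y) := h.of_le (by exact_mod_cast le_top)
    filter_upwards [h1.eventually (by simp)] with p hp using hp.differentiableAt one_ne_zero
  have hs : IsSymmSndFDerivAt ℝ Ψ (x, y) := h.isSymmSndFDerivAt (by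
    simp only [minSmoothness_of_isRCLikeNormedField]
    exact WithTop.coe_le_coe.2 (by exact le_top))
  have hd : DifferentiableAt ℝ (fderiv ℝ Ψ) (x, y) :=
    (h.fderiv_right (m := ∞) (by simp)).differentiableAt (by simp)
  -- the two first derivatives
  have e1 : (fun z => fderiv ℝ (fun u => f z u) y a) =ᶠ[𝓝 x] fun z => fderiv ℝ Ψ (z, y) (0, a) := by
    have ht : Tendsto (fun z : Fin n → ℝ => (z, y)) (𝓝 x) (𝓝 (x, y)) :=
      (Continuous.prodMk_left y).tendsto x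
    filter_upwards [ht.eventually hev] with z hz
    have h2 : HasFDerivAt (fun u : Fin n → ℝ => (z, u))
        ((0 : (Fin n → ℝ) →L[ℝ] (Fin n → ℝ)).prod (ContinuousLinearMap.id ℝ (Fin n → ℝ))) y :=
      (hasFDerivAt_const z y).prodMk (hasFDerivAt_id y)
    have h3 := (show HasFDerivAt Ψ (fderiv ℝ Ψ (z, y)) ((fun u : Fin n → ℝ => (z, u)) y) from
      hz.hasFDerivAt).comp y h2
    have h4 : fderiv ℝ (fun u => f z u) y = _ := h3.fderiv
    rw [h4]; simp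
  have e2 : (fun u => fderiv ℝ (fun z => f z u) x b) =ᶠ[𝓝 y] fun u => fderiv ℝ Ψ (x, u) (b, 0) := by
    have ht : Tendsto (fun u : Fin n → ℝ => (x, u)) (𝓝 y) (𝓝 (x, y)) :=
      (Continuous.prodMk_right x).tendsto y
    filter_upwards [ht.eventually hev] with u hu
    have h2 : HasFDerivAt (fun z : Fin n → ℝ => (z, u))
        ((ContinuousLinearMap.id ℝ (Fin n → ℝ)).prod (0 : (Fin n → ℝ) →L[ℝ] (Fin n → ℝ))) x :=
      (hasFDerivAt_id x).prodMk (hasFDerivAt_const u x)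
    have h3 := (show HasFDerivAt Ψ (fderiv ℝ Ψ (x, u)) ((fun z : Fin n → ℝ => (z, u)) x) from
      hu.hasFDerivAt).comp x h2
    have h4 : fderiv ℝ (fun z => f z u) x = _ := h3.fderiv
    rw [h4]; simp
  rw [e1.fderiv_eq, e2.fderiv_eq]
  have h2 : HasFDerivAt (fun u : Fin n → ℝ => (x, u))
      ((0 : (Fin n → ℝ) →L[ℝ] (Fin n → ℝ)).prod (ContinuousLinearMap.id ℝ (Fin n → ℝ))) y :=
    (hasFDerivAt_const x y).prodMk (hasFDerivAt_id y)
  have h2' : HasFDerivAt (fun z : Fin n → ℝ => (z, y))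
      ((ContinuousLinearMap.id ℝ (Fin n → ℝ)).prod (0 : (Fin n → ℝ) →L[ℝ] (Fin n → ℝ))) x :=
    (hasFDerivAt_id x).prodMk (hasFDerivAt_const y x)
  have h3 := ((show HasFDerivAt (fderiv ℝ Ψ) (fderiv ℝ (fderiv ℝ Ψ) (x, y))
    ((fun u : Fin n → ℝ => (x, u)) y) from hd.hasFDerivAt).comp y h2).clm_apply
    (hasFDerivAt_const ((b, 0) : (Fin n → ℝ) × (Fin n → ℝ)) y)
  have h3' := ((show HasFDerivAt (fderiv ℝ Ψ) (fderiv ℝ (fderiv ℝ Ψ) (x, y))
    ((fun z : Fin n → ℝ => (z, y)) x) from hd.hasFDerivAt).comp x h2').clm_apply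
    (hasFDerivAt_const ((0, a) : (Fin n → ℝ) × (Fin n → ℝ)) x)
  have h4 : fderiv ℝ (fun u => fderiv ℝ Ψ (x, u) (b, 0)) y = _ := h3.fderiv
  have h4' : fderiv ℝ (fun z => fderiv ℝ Ψ (z, y) (0, a)) x = _ := h3'.fderiv
  rw [h4, h4']
  simp only [ContinuousLinearMap.comp_zero, zero_add, ContinuousLinearMap.flip_apply,
    ContinuousLinearMap.comp_apply, ContinuousLinearMap.prod_apply,
    ContinuousLinearMap.zero_apply, ContinuousLinearMap.id_apply]
  exact hs (b, 0) (0, a)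

theorem pd_quad (c : Fin n → Fin n → ℝ) (l : Fin n) {y : Fin n → ℝ} (hy : y ≠ 0) :
    pd l (fun y : Fin n → ℝ => ∑ k, ∑ j, c k j * y k * y j) y = ∑ j, (c l j + c j l) * y j := by
  have s1 : ∀ k j, Sm (fun y : Fin n → ℝ => c k j * y k * y j) := fun k j =>
    ((sm_const (c k j)).mul (sm_coord k)).mul (sm_coord j)
  rw [pd_sum (fun k _ => Sm.sum fun j _ => s1 k j) l hy]
  have e : ∀ k, pd l (fun y : Fin n → ℝ => ∑ j, c k j * y k * y j) y =
      ∑ j, (c k j * (if k = l then 1 else 0) * y j + c k j * y k * (if j = l then 1 else 0)) := by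
    intro k
    rw [pd_sum (fun j _ => s1 k j) l hy]
    refine Finset.sum_congr rfl fun j _ => ?_
    rw [pd_mul ((sm_const (c k j)).mul (sm_coord k)) (sm_coord j) l hy,
      pd_const_mul (sm_coord k) (c k j) l hy, pd_coord, pd_coord]
  simp only [e, Finset.sum_add_distrib, add_mul]
  congr 1
  · rw [Finset.sum_comm]
    simp
  · simp

theorem pd3_quad (c : Fin n → Fin n → ℝ) (j k l : Fin n) {y : Fin n → ℝ} (hy : y ≠ 0) :
    pd j (pd k (pd l (fun y : Fin n → ℝ => ∑ k, ∑ j, c k j * y k * y j))) y = 0 := by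
  have h1 : ∀ z : Fin n → ℝ, z ≠ 0 →
      pd k (pd l (fun y : Fin n → ℝ => ∑ k, ∑ j, c k j * y k * y j)) z = c l k + c k l := by
    intro z hz
    rw [pd_congr (fun u hu => pd_quad c l hu) k hz, pd_lin (fun j => c l j + c j l) k hz]
  rw [pd_congr h1 j hy, pd_const]

/-- the fibre of a Finsler metric -/
theorem mn_of_finsler {U : Set (Fin n → ℝ)} {F : (Fin n → ℝ) → (Fin n → ℝ) → ℝ}
    (hF : ContDiffOn ℝ ((⊤ : ℕ∞) : WithTop ℕ∞)
        (fun p : (Fin n → ℝ) × (Fin n → ℝ) => F p.1 p.2) (U ×ˢ {y | y ≠ 0}))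
    (hpos : ∀ x ∈ U, ∀ y : Fin n → ℝ, y ≠ 0 → 0 < F x y)
    (hhom : ∀ x ∈ U, ∀ y : Fin n → ℝ, ∀ t : ℝ, 0 < t → F x (t • y) = t * F x y)
    (hconv : ∀ x ∈ U, ∀ y : Fin n → ℝ, y ≠ 0 → ∀ v : Fin n → ℝ, v ≠ 0 →
        0 < ∑ i : Fin n, ∑ j : Fin n,
          (1 / 2 : ℝ) * fderiv ℝ (fun w => fderiv ℝ (fun u => F x u ^ 2) w
              (Pi.single j (1 : ℝ) : Fin n → ℝ)) y (Pi.single i (1 : ℝ) : Fin n → ℝ)
            * v i * v j)
    {x : Fin n → ℝ} (hx : x ∈ U) : MN (fun u => F x u ^ 2) := by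
  refine ⟨?_, fun y hy => pow_pos (hpos x hx y hy) 2, fun y hy t ht => ?_, fun y hy v hv => ?_⟩
  · have h1 : ContDiffOn ℝ ∞ (fun u : Fin n → ℝ => (x, u)) {y | y ≠ 0} :=
      (contDiff_prodMk_right x).contDiffOn
    have h2 : ContDiffOn ℝ ∞ (fun u => F x u) {y : Fin n → ℝ | y ≠ 0} :=
      hF.comp h1 fun u hu => ⟨hx, hu⟩
    exact h2.pow 2
  · rw [hhom x hx y t ht]; ring
  · have h := hconv x hx y hy v hv
    have e : ∑ i, ∑ j, pd i (pd j (fun u => F x u ^ 2)) y * v i * v j =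
        2 * ∑ i : Fin n, ∑ j : Fin n,
          (1 / 2 : ℝ) * fderiv ℝ (fun w => fderiv ℝ (fun u => F x u ^ 2) w
              (Pi.single j (1 : ℝ) : Fin n → ℝ)) y (Pi.single i (1 : ℝ) : Fin n → ℝ)
            * v i * v j := by
      rw [Finset.mul_sum]
      refine Finset.sum_congr rfl fun i _ => ?_
      rw [Finset.mul_sum]
      refine Finset.sum_congr rfl fun j _ => ?_
      unfold pd
      ring
    rw [e]; linarith

/-- the algebraic equation determines `Z` -/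
theorem Z_eq {Q : (Fin n → ℝ) → ℝ} (hQ : MN Q) (w : Fin n → ℝ) (Z : Fin n → (Fin n → ℝ) → ℝ)
    (hA : ∀ y, y ≠ 0 → ∀ l, ∑ i, pd i (pd l Q) y * Z i y = Q y * w l)
    {y : Fin n → ℝ} (hy : y ≠ 0) (i : Fin n) : Z i y = Q y * ∑ l, P Q i l y * w l := by
  have h1 : A Q y *ᵥ (fun m => Z m y) = Q y • w := by
    ext l
    simp only [Matrix.mulVec, dotProduct, A, Matrix.of_apply, Pi.smul_apply, smul_eq_mul]
    rw [← hA y hy l]
    exact Finset.sum_congr rfl fun i _ => by rw [pd2_symm hQ l i hy]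
  have h5 := congrArg (fun v => (A Q y)⁻¹ *ᵥ v) h1
  simp only [Matrix.mulVec_mulVec,
    Matrix.nonsing_inv_mul (A Q y) (isUnit_iff_ne_zero.2 (A_det_pos hQ hy).ne'),
    Matrix.one_mulVec] at h5
  have h6 := congrFun h5 i
  rw [h6]
  simp only [Matrix.mulVec, dotProduct, Pi.smul_apply, smul_eq_mul, Finset.mul_sum, P]
  exact Finset.sum_congr rfl fun l _ => by ring

theorem Z_sm {Q : (Fin n → ℝ) → ℝ} (hQ : MN Q) (w : Fin n → ℝ) (Z : Fin n → (Fin n → ℝ) → ℝ)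
    (hA : ∀ y, y ≠ 0 → ∀ l, ∑ i, pd i (pd l Q) y * Z i y = Q y * w l) (i : Fin n) :
    Sm (Z i) :=
  Sm.congr (hQ.sm.mul (Sm.sum fun l _ => (P_sm hQ i l).mul (sm_const (w l))))
    fun _ hy => Z_eq hQ w Z hA hy i

/-- the third derivatives of `Z` vanish -/
theorem Z3 (hleg : S_leg) (hjac : S_jac) (hdei : S_dei)
    {Q : (Fin n → ℝ) → ℝ} (hQ : MN Q) (w : Fin n → ℝ) (Z : Fin n → (Fin n → ℝ) → ℝ)
    (hA : ∀ y, y ≠ 0 → ∀ l, ∑ i, pd i (pd l Q) y * Z i y = Q y * w l)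
    (hL : ∀ y, y ≠ 0 → ∀ l, ∑ j, ∑ k, P Q j k y *
      ∑ i, pd i Q y * pd l (pd k (pd j (Z i))) y = 0)
    {y : Fin n → ℝ} (hy : y ≠ 0) (i j k l : Fin n) : pd j (pd k (pd l (Z i))) y = 0 := by
  by_cases hw : w = 0
  · have h0 : ∀ z : Fin n → ℝ, z ≠ 0 → Z i z = (fun _ => (0:ℝ)) z := fun z hz => by
      rw [Z_eq hQ w Z hA hz i, hw]; simp
    have h1 : ∀ z : Fin n → ℝ, z ≠ 0 → pd l (Z i) z = (fun _ => (0:ℝ)) z := fun z hz => by
      rw [pd_congr h0 l hz, pd_const]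
    have h2 : ∀ z : Fin n → ℝ, z ≠ 0 → pd k (pd l (Z i)) z = (fun _ => (0:ℝ)) z := fun z hz => by
      rw [pd_congr h1 k hz, pd_const]
    rw [pd_congr h2 j hy, pd_const]
  · have hC : ∀ z : Fin n → ℝ, z ≠ 0 → ∀ a b c, pd c (pd a (pd b Q)) z = 0 := fun z hz a b c =>
      fibre hQ w Z (fun i => Z_sm hQ w Z hA i) hA hL hleg hjac hdei hw hz a b c
    set c : (Fin n → ℝ) → ℝ := fun z => ∑ l, P Q i l z * w l with hc
    have hcs : Sm c := Sm.sum fun l _ => (P_sm hQ i l).mul (sm_const (w l))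
    have hcd : ∀ z : Fin n → ℝ, z ≠ 0 → ∀ a, pd a c z = 0 := by
      intro z hz a
      rw [hc, pd_sum (fun l _ => (P_sm hQ i l).mul (sm_const (w l))) a hz]
      refine Finset.sum_eq_zero fun l _ => ?_
      rw [pd_mul_const (P_sm hQ i l) (w l) a hz, pd_P hQ a i l hz]
      simp [hC z hz]
    have h0 : ∀ z : Fin n → ℝ, z ≠ 0 → Z i z = Q z * c z := fun z hz => Z_eq hQ w Z hA hz i
    have h1 : ∀ z : Fin n → ℝ, z ≠ 0 → pd l (Z i) z = pd l Q z * c z := fun z hz => by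
      rw [pd_congr h0 l hz, pd_mul hQ.sm hcs l hz, hcd z hz, mul_zero, add_zero]
    have h2 : ∀ z : Fin n → ℝ, z ≠ 0 → pd k (pd l (Z i)) z = pd k (pd l Q) z * c z :=
      fun z hz => by
        rw [pd_congr h1 k hz, pd_mul (hQ.sm.pd l) hcs k hz, hcd z hz, mul_zero, add_zero]
    rw [pd_congr h2 j hy, pd_mul ((hQ.sm.pd l).pd k) hcs j hy, hcd y hy, mul_zero, add_zero,
      hC y hy, zero_mul]

end Pool.Agent.R774.BW
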