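import Mathlib

/-! # Project BW: Landsberg metrics with a compatible semi-symmetric linear connection are
Berwald metrics.  Definitions and statements of the pieces.  Everything takes place on one fibre
`Fin n → ℝ`, with `Q = F ^ 2` the square of a Minkowski norm. -/

set_option autoImplicit false

open scoped BigOperators ContDiff Topology
open Filter Set

namespace Pool.Agent.R774.BW

/-- the partial derivative `∂f/∂y^k` -/
noncomputable def pd {n : ℕ} (k : Fin n) (f : (Fin n → ℝ) → ℝ) : (Fin n → ℝ) → ℝ :=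
  fun y => fderiv ℝ f y (Pi.single k (1 : ℝ))

/-- `Q` is the square of a (not necessarily reversible) Minkowski norm -/
structure MN {n : ℕ} (Q : (Fin n → ℝ) → ℝ) : Prop where
  smooth : ContDiffOn ℝ ∞ Q {y | y ≠ 0}
  pos : ∀ y, y ≠ 0 → 0 < Q y
  hom : ∀ y, y ≠ 0 → ∀ t : ℝ, 0 < t → Q (t • y) = t ^ 2 * Q y
  conv : ∀ y, y ≠ 0 → ∀ v : Fin n → ℝ, v ≠ 0 → 0 < ∑ i, ∑ j, pd i (pd j Q) y * v i * v j

/-- the Hessian matrix of `Q` -/
noncomputable def A {n : ℕ} (Q : (Fin n → ℝ) → ℝ) (y : Fin n → ℝ) : Matrix (Fin n) (Fin n) ℝ :=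
  Matrix.of fun i j => pd i (pd j Q) y

/-- the entries of the inverse of the Hessian matrix of `Q` -/
noncomputable def P {n : ℕ} (Q : (Fin n → ℝ) → ℝ) (i j : Fin n) (y : Fin n → ℝ) : ℝ :=
  (A Q y)⁻¹ i j

/-- the mean Cartan form `θ_k = Σ_{i,j} P^{ij} ∂_k ∂_i ∂_j Q` (the derivative of `log det A`) -/
noncomputable def th {n : ℕ} (Q : (Fin n → ℝ) → ℝ) (k : Fin n) (y : Fin n → ℝ) : ℝ :=
  ∑ i, ∑ j, P Q i j y * pd k (pd i (pd j Q)) y

/-- BW-LEG: a `0`-homogeneous function whose derivative along `A⁻¹ w` vanishes is constant -/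
def S_leg : Prop := ∀ (n : ℕ), 2 ≤ n → ∀ Q : (Fin n → ℝ) → ℝ, MN Q → ∀ w : Fin n → ℝ, w ≠ 0 →
  ∀ Φ : (Fin n → ℝ) → ℝ, (∀ y, y ≠ 0 → DifferentiableAt ℝ Φ y) →
  (∀ y, y ≠ 0 → ∀ t : ℝ, 0 < t → Φ (t • y) = Φ y) →
  (∀ y, y ≠ 0 → ∀ z : Fin n → ℝ, (∀ l, ∑ i, pd i (pd l Q) y * z i = w l) →
    fderiv ℝ Φ y z = 0) →
  ∃ c, ∀ y, y ≠ 0 → Φ y = c

/-- BW-JAC: the mean Cartan form vanishes somewhere -/
def S_jac : Prop := ∀ (n : ℕ), 1 ≤ n → ∀ Q : (Fin n → ℝ) → ℝ, MN Q →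
  ∃ y, y ≠ 0 ∧ ∀ k, th Q k y = 0

/-- BW-DEI (Deicke's theorem): if the mean Cartan form vanishes identically then so does the
Cartan tensor -/
def S_dei : Prop := ∀ (n : ℕ) (Q : (Fin n → ℝ) → ℝ), MN Q →
  (∀ y, y ≠ 0 → ∀ k, th Q k y = 0) → ∀ y, y ≠ 0 → ∀ i j k, pd k (pd i (pd j Q)) y = 0

end Pool.Agent.R774.BW
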