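import Pool.Agent.R774.BW.Base

/-! # Project BW: the tensor identity -/

set_option autoImplicit false

open scoped BigOperators ContDiff Topology Matrix
open Filter Set

namespace Pool.Agent.R774.BW

variable {n : ℕ}

/-- squared length of the mean Cartan form -/
noncomputable def Nn (Q : (Fin n → ℝ) → ℝ) (y : Fin n → ℝ) : ℝ :=
  ∑ k, ∑ l, P Q k l y * th Q k y * th Q l y

section
variable {Q : (Fin n → ℝ) → ℝ} (hQ : MN Q)
include hQ

theorem th_sm (k : Fin n) : Sm (th Q k) := by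
  unfold th
  exact Sm.sum fun i _ => Sm.sum fun j _ => (P_sm hQ i j).mul (((hQ.sm.pd j).pd i).pd k)

theorem Nn_sm : Sm (Nn Q) := by
  unfold Nn
  exact Sm.sum fun i _ => Sm.sum fun j _ => ((P_sm hQ i j).mul (th_sm hQ i)).mul (th_sm hQ j)

theorem th_hom (k : Fin n) : Hom (-1) (th Q k) := by
  intro y hy t ht
  unfold th
  rw [Finset.mul_sum]
  refine Finset.sum_congr rfl fun i _ => ?_
  rw [Finset.mul_sum]
  refine Finset.sum_congr rfl fun j _ => ?_
  rw [P_hom hQ i j y hy t ht, hom_pd3 hQ k i j y hy t ht]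
  simp; ring

theorem QN_hom {y : Fin n → ℝ} (hy : y ≠ 0) {t : ℝ} (ht : 0 < t) :
    Q (t • y) * Nn Q (t • y) = Q y * Nn Q y := by
  have h1 : Nn Q (t • y) = t ^ (-2 : ℤ) * Nn Q y := by
    unfold Nn
    rw [Finset.mul_sum]
    refine Finset.sum_congr rfl fun i _ => ?_
    rw [Finset.mul_sum]
    refine Finset.sum_congr rfl fun j _ => ?_
    rw [P_hom hQ i j y hy t ht, th_hom hQ i y hy t ht, th_hom hQ j y hy t ht]
    simp only [zpow_zero, zpow_neg, zpow_one]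
    field_simp
  rw [h1, hQ.hom y hy t ht]
  simp only [zpow_neg]
  field_simp

theorem euler_th {y : Fin n → ℝ} (hy : y ≠ 0) : ∑ k, y k * th Q k y = 0 := by
  unfold th
  simp only [Finset.mul_sum]
  rw [Finset.sum_comm]
  refine Finset.sum_eq_zero fun i _ => ?_
  rw [Finset.sum_comm]
  refine Finset.sum_eq_zero fun j _ => ?_
  have := euler3 hQ i j hy
  calc ∑ k, y k * (P Q i j y * pd k (pd i (pd j Q)) y)
      = P Q i j y * ∑ k, y k * pd k (pd i (pd j Q)) y := by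
        rw [Finset.mul_sum]; exact Finset.sum_congr rfl fun k _ => by ring
    _ = 0 := by rw [this, mul_zero]

/-- `Σ_k P_jk Q_k = y_j` -/
theorem P_grad {y : Fin n → ℝ} (hy : y ≠ 0) (j : Fin n) :
    ∑ k, P Q j k y * pd k Q y = y j := by
  have h1 : ∀ k, pd k Q y = ∑ a, pd k (pd a Q) y * y a := fun k => by
    rw [← euler2 hQ k hy]
    exact Finset.sum_congr rfl fun a _ => by rw [pd2_symm hQ a k hy, mul_comm]
  simp only [h1, Finset.mul_sum]
  rw [Finset.sum_comm]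
  have h2 : ∀ a, ∑ k, P Q j k y * (pd k (pd a Q) y * y a) = (if j = a then 1 else 0) * y a := by
    intro a
    rw [← P_mul_A hQ hy j a, Finset.sum_mul]
    exact Finset.sum_congr rfl fun k _ => by ring
  simp [h2]

end

/-- derivative along the field `Z` -/
noncomputable def dz (Z : Fin n → (Fin n → ℝ) → ℝ) (f : (Fin n → ℝ) → ℝ) (y : Fin n → ℝ) : ℝ :=
  ∑ m, Z m y * pd m f y

theorem dz_mul (Z : Fin n → (Fin n → ℝ) → ℝ) {f g : (Fin n → ℝ) → ℝ} (hf : Sm f) (hg : Sm g)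
    {y : Fin n → ℝ} (hy : y ≠ 0) :
    dz Z (fun y => f y * g y) y = dz Z f y * g y + f y * dz Z g y := by
  unfold dz
  rw [Finset.sum_mul, Finset.mul_sum, ← Finset.sum_add_distrib]
  refine Finset.sum_congr rfl fun m _ => ?_
  rw [pd_mul hf hg m hy]; ring

theorem dz_sum (Z : Fin n → (Fin n → ℝ) → ℝ) {ι : Type*} {s : Finset ι}
    {f : ι → (Fin n → ℝ) → ℝ} (hf : ∀ i ∈ s, Sm (f i)) {y : Fin n → ℝ} (hy : y ≠ 0) :
    dz Z (fun y => ∑ i ∈ s, f i y) y = ∑ i ∈ s, dz Z (f i) y := by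
  unfold dz
  rw [Finset.sum_comm]
  refine Finset.sum_congr rfl fun m _ => ?_
  rw [pd_sum hf m hy, Finset.mul_sum]

section
variable {Q : (Fin n → ℝ) → ℝ} (hQ : MN Q) (w : Fin n → ℝ) (Z : Fin n → (Fin n → ℝ) → ℝ)
  (hZ : ∀ i, Sm (Z i))
  (hA : ∀ y, y ≠ 0 → ∀ l, ∑ i, pd i (pd l Q) y * Z i y = Q y * w l)
include hQ hZ hA

theorem eq1 {y : Fin n → ℝ} (hy : y ≠ 0) :
    ∑ i, pd i Q y * Z i y = Q y * ∑ j, w j * y j := by
  have h1 : ∀ i, pd i Q y * Z i y = ∑ j, y j * (pd i (pd j Q) y * Z i y) := fun i => by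
    rw [← euler2 hQ i hy, Finset.sum_mul]
    exact Finset.sum_congr rfl fun a _ => by rw [pd2_symm hQ a i hy, mul_assoc]
  simp only [h1]
  rw [Finset.sum_comm, Finset.mul_sum]
  refine Finset.sum_congr rfl fun j _ => ?_
  rw [← Finset.mul_sum, hA y hy j]; ring

/-- first derivative of the defining equation -/
theorem eq3 {y : Fin n → ℝ} (hy : y ≠ 0) (j k : Fin n) :
    ∑ i, (pd j (pd i (pd k Q)) y * Z i y + pd i (pd k Q) y * pd j (Z i) y) = pd j Q y * w k := by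
  have e := pd_congr (fun z hz => hA z hz k) j hy
  rw [pd_mul_const hQ.sm (w k) j hy,
    pd_sum (fun i _ => ((hQ.sm.pd k).pd i).mul (hZ i)) j hy] at e
  rw [← e]
  exact Finset.sum_congr rfl fun i _ => (pd_mul ((hQ.sm.pd k).pd i) (hZ i) j hy).symm

omit hQ hZ hA in
theorem pd_lin {y : Fin n → ℝ} (k : Fin n) (hy : y ≠ 0) :
    pd k (fun y : Fin n → ℝ => ∑ j, w j * y j) y = w k := by
  rw [pd_sum (fun j _ => (sm_const (w j)).mul (sm_coord j)) k hy]
  have : ∀ j, pd k (fun y : Fin n → ℝ => w j * y j) y = w j * if j = k then 1 else 0 := by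
    intro j
    rw [pd_const_mul (sm_coord j) (w j) k hy, pd_coord]
  simp [this]

omit hQ hZ hA in
theorem lin_sm : Sm (fun y : Fin n → ℝ => ∑ j, w j * y j) :=
  Sm.sum fun j _ => (sm_const (w j)).mul (sm_coord j)

theorem eq1j {y : Fin n → ℝ} (hy : y ≠ 0) (j : Fin n) :
    ∑ i, pd i Q y * pd j (Z i) y = pd j Q y * ∑ a, w a * y a := by
  have e := pd_congr (fun z hz => eq1 hQ w Z hZ hA hz) j hy
  rw [pd_mul hQ.sm (lin_sm w) j hy, pd_lin w j hy,
    pd_sum (fun i _ => (hQ.sm.pd i).mul (hZ i)) j hy] at e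
  have e2 : ∑ i, pd j (fun y => pd i Q y * Z i y) y =
      ∑ i, pd i (pd j Q) y * Z i y + ∑ i, pd i Q y * pd j (Z i) y := by
    rw [← Finset.sum_add_distrib]
    refine Finset.sum_congr rfl fun i _ => ?_
    rw [pd_mul (hQ.sm.pd i) (hZ i) j hy, pd2_symm hQ j i hy]
  rw [e2, hA y hy j] at e
  linarith

theorem eq4 {y : Fin n → ℝ} (hy : y ≠ 0) (j k : Fin n) :
    ∑ i, pd i Q y * pd k (pd j (Z i)) y = pd k (pd j Q) y * (∑ a, w a * y a) +
      ∑ i, pd j (pd i (pd k Q)) y * Z i y := by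
  have e := pd_congr (fun z hz => eq1j hQ w Z hZ hA hz j) k hy
  rw [pd_mul (hQ.sm.pd j) (lin_sm w) k hy, pd_lin w k hy,
    pd_sum (fun i _ => (hQ.sm.pd i).mul ((hZ i).pd j)) k hy] at e
  have e2 : ∑ i, pd k (fun y => pd i Q y * pd j (Z i) y) y =
      ∑ i, pd i (pd k Q) y * pd j (Z i) y + ∑ i, pd i Q y * pd k (pd j (Z i)) y := by
    rw [← Finset.sum_add_distrib]
    refine Finset.sum_congr rfl fun i _ => ?_
    rw [pd_mul (hQ.sm.pd i) ((hZ i).pd j) k hy, pd2_symm hQ k i hy]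
  have e3 := eq3 hQ w Z hZ hA hy j k
  rw [Finset.sum_add_distrib] at e3
  rw [e2] at e
  linarith

theorem eqL {y : Fin n → ℝ} (hy : y ≠ 0) (j k l : Fin n) :
    pd l (pd k (pd j Q)) y * (∑ a, w a * y a) +
      ∑ i, pd l (pd j (pd i (pd k Q))) y * Z i y + ∑ i, pd j (pd i (pd k Q)) y * pd l (Z i) y +
      ∑ i, pd k (pd j (pd i (pd l Q))) y * Z i y + ∑ i, pd j (pd i (pd l Q)) y * pd k (Z i) y +
      ∑ i, pd k (pd i (pd l Q)) y * pd j (Z i) y =
      ∑ i, pd i Q y * pd l (pd k (pd j (Z i))) y := by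
  have s3 : ∀ a b c : Fin n, Sm (pd a (pd b (pd c Q))) := fun a b c =>
    ((hQ.sm.pd c).pd b).pd a
  have e := pd_congr (fun z hz => eq4 hQ w Z hZ hA hz j k) l hy
  rw [pd_add (((hQ.sm.pd j).pd k).mul (lin_sm w)) (Sm.sum fun i _ => (s3 j i k).mul (hZ i)) l hy,
    pd_mul ((hQ.sm.pd j).pd k) (lin_sm w) l hy, pd_lin w l hy,
    pd_sum (fun i _ => (hQ.sm.pd i).mul (((hZ i).pd j).pd k)) l hy,
    pd_sum (fun i _ => (s3 j i k).mul (hZ i)) l hy] at e
  have e2 : ∑ i, pd l (fun y => pd i Q y * pd k (pd j (Z i)) y) y =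
      ∑ i, pd i (pd l Q) y * pd k (pd j (Z i)) y +
        ∑ i, pd i Q y * pd l (pd k (pd j (Z i))) y := by
    rw [← Finset.sum_add_distrib]
    refine Finset.sum_congr rfl fun i _ => ?_
    rw [pd_mul (hQ.sm.pd i) (((hZ i).pd j).pd k) l hy, pd2_symm hQ l i hy]
  have e3 : ∑ i, pd l (fun y => pd j (pd i (pd k Q)) y * Z i y) y =
      ∑ i, pd l (pd j (pd i (pd k Q))) y * Z i y +
        ∑ i, pd j (pd i (pd k Q)) y * pd l (Z i) y := by
    rw [← Finset.sum_add_distrib]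
    refine Finset.sum_congr rfl fun i _ => ?_
    rw [pd_mul (s3 j i k) (hZ i) l hy]
  have f := pd_congr (fun z hz => eq3 hQ w Z hZ hA hz j l) k hy
  rw [pd_mul_const (hQ.sm.pd j) (w l) k hy,
    pd_sum (fun i _ => ((s3 j i l).mul (hZ i)).add (((hQ.sm.pd l).pd i).mul ((hZ i).pd j)))
      k hy] at f
  have f2 : ∑ i, pd k (fun y => pd j (pd i (pd l Q)) y * Z i y +
      pd i (pd l Q) y * pd j (Z i) y) y =
      ∑ i, pd k (pd j (pd i (pd l Q))) y * Z i y + ∑ i, pd j (pd i (pd l Q)) y * pd k (Z i) y +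
      ∑ i, pd k (pd i (pd l Q)) y * pd j (Z i) y +
      ∑ i, pd i (pd l Q) y * pd k (pd j (Z i)) y := by
    rw [← Finset.sum_add_distrib, ← Finset.sum_add_distrib, ← Finset.sum_add_distrib]
    refine Finset.sum_congr rfl fun i _ => ?_
    rw [pd_add ((s3 j i l).mul (hZ i)) (((hQ.sm.pd l).pd i).mul ((hZ i).pd j)) k hy,
      pd_mul (s3 j i l) (hZ i) k hy, pd_mul ((hQ.sm.pd l).pd i) ((hZ i).pd j) k hy]
    ring
  rw [e2, e3] at e
  rw [f2] at f
  linarith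

end

end Pool.Agent.R774.BW
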