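import Pool.Agent.R774.BW.Ten

/-! # Project BW: the traced identity -/

set_option autoImplicit false

open scoped BigOperators ContDiff Topology Matrix
open Filter Set

namespace Pool.Agent.R774.BW

variable {n : ℕ}

/-- third derivatives -/
noncomputable def B (Q : (Fin n → ℝ) → ℝ) (y : Fin n → ℝ) (l : Fin n) : Matrix (Fin n) (Fin n) ℝ :=
  Matrix.of fun i j => pd l (pd i (pd j Q)) y

/-- derivative of the Hessian along `Z` -/
noncomputable def DA (Q : (Fin n → ℝ) → ℝ) (Z : Fin n → (Fin n → ℝ) → ℝ) (y : Fin n → ℝ) :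
    Matrix (Fin n) (Fin n) ℝ :=
  Matrix.of fun i j => dz Z (pd i (pd j Q)) y

noncomputable def DB (Q : (Fin n → ℝ) → ℝ) (Z : Fin n → (Fin n → ℝ) → ℝ) (y : Fin n → ℝ)
    (l : Fin n) : Matrix (Fin n) (Fin n) ℝ :=
  Matrix.of fun i j => dz Z (pd l (pd i (pd j Q))) y

noncomputable def Jc (Z : Fin n → (Fin n → ℝ) → ℝ) (y : Fin n → ℝ) :
    Matrix (Fin n) (Fin n) ℝ :=
  Matrix.of fun i j => pd j (Z i) y

theorem sum_eq_trace (M N : Matrix (Fin n) (Fin n) ℝ) (hM : Mᵀ = M) :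
    ∑ i, ∑ j, M i j * N i j = Matrix.trace (M * N) := by
  simp only [Matrix.trace, Matrix.diag, Matrix.mul_apply]
  rw [Finset.sum_comm]
  refine Finset.sum_congr rfl fun j _ => Finset.sum_congr rfl fun i _ => ?_
  have := congrFun (congrFun hM j) i
  rw [Matrix.transpose_apply] at this
  rw [this]

section
variable {Q : (Fin n → ℝ) → ℝ} (hQ : MN Q)
include hQ

theorem pd3_13 (i j k : Fin n) {y : Fin n → ℝ} (hy : y ≠ 0) :
    pd i (pd j (pd k Q)) y = pd k (pd j (pd i Q)) y := by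
  rw [pd3_symm1 hQ i j k hy, pd3_symm2 hQ j i k hy, pd3_symm1 hQ j k i hy]

theorem P_transpose {y : Fin n → ℝ} (hy : y ≠ 0) : ((A Q y)⁻¹)ᵀ = (A Q y)⁻¹ := by
  rw [Matrix.transpose_nonsing_inv, A_symm hQ hy]

theorem B_transpose {y : Fin n → ℝ} (hy : y ≠ 0) (l : Fin n) : (B Q y l)ᵀ = B Q y l := by
  ext i j
  exact pd3_symm2 hQ l j i hy

theorem th_eq_trace {y : Fin n → ℝ} (hy : y ≠ 0) (l : Fin n) :
    th Q l y = Matrix.trace ((A Q y)⁻¹ * B Q y l) := by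
  rw [← sum_eq_trace _ _ (P_transpose hQ hy)]
  rfl

theorem y_B {y : Fin n → ℝ} (hy : y ≠ 0) (l : Fin n) : y ᵥ* B Q y l = 0 := by
  ext j
  simp only [Matrix.vecMul, dotProduct, B, Matrix.of_apply, Pi.zero_apply]
  rw [← euler3 hQ l j hy]
  exact Finset.sum_congr rfl fun i _ => by rw [pd3_symm1 hQ l i j hy]

theorem dQ_P {y : Fin n → ℝ} (hy : y ≠ 0) : (fun k => pd k Q y) ᵥ* (A Q y)⁻¹ = y := by
  ext j
  rw [← P_grad hQ hy j]
  simp only [Matrix.vecMul, dotProduct]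
  refine Finset.sum_congr rfl fun k _ => ?_
  rw [mul_comm]
  congr 1
  exact P_symm hQ hy k j

variable (w : Fin n → ℝ) (Z : Fin n → (Fin n → ℝ) → ℝ)
  (hZ : ∀ i, Sm (Z i))
  (hA : ∀ y, y ≠ 0 → ∀ l, ∑ i, pd i (pd l Q) y * Z i y = Q y * w l)
include hZ hA

theorem AJ {y : Fin n → ℝ} (hy : y ≠ 0) :
    A Q y * Jc Z y = Matrix.vecMulVec w (fun k => pd k Q y) - DA Q Z y := by
  ext k j
  have e := eq3 hQ w Z hZ hA hy j k
  rw [Finset.sum_add_distrib] at e
  rw [Matrix.mul_apply, Matrix.sub_apply, Matrix.vecMulVec_apply]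
  simp only [A, Jc, DA, dz, Matrix.of_apply]
  have e1 : ∑ i, pd j (pd i (pd k Q)) y * Z i y = ∑ m, Z m y * pd m (pd k (pd j Q)) y := by
    refine Finset.sum_congr rfl fun i _ => ?_
    rw [pd3_symm1 hQ j i k hy, pd3_symm2 hQ i j k hy, mul_comm]
  have e2 : ∑ i, pd i (pd k Q) y * pd j (Z i) y = ∑ i, pd k (pd i Q) y * pd j (Z i) y :=
    Finset.sum_congr rfl fun i _ => by rw [pd2_symm hQ i k hy]
  rw [e1, e2] at e
  linarith

theorem J_eq {y : Fin n → ℝ} (hy : y ≠ 0) :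
    Jc Z y = (A Q y)⁻¹ * (Matrix.vecMulVec w (fun k => pd k Q y) - DA Q Z y) := by
  rw [← AJ hQ w Z hZ hA hy, ← Matrix.mul_assoc,
    Matrix.nonsing_inv_mul (A Q y) (isUnit_iff_ne_zero.2 (A_det_pos hQ hy).ne'), Matrix.one_mul]

omit hZ hA in
theorem dz_P {y : Fin n → ℝ} (hy : y ≠ 0) (i j : Fin n) :
    dz Z (P Q i j) y = - ((A Q y)⁻¹ * DA Q Z y * (A Q y)⁻¹) i j := by
  unfold dz
  simp only [pd_P hQ _ i j hy]
  simp only [Matrix.mul_apply, DA, dz, Matrix.of_apply, P, mul_neg, Finset.sum_neg_distrib,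
    neg_inj, Finset.mul_sum, Finset.sum_mul]
  rw [Finset.sum_comm]
  conv_rhs => rw [Finset.sum_comm]
  refine Finset.sum_congr rfl fun a _ => ?_
  rw [Finset.sum_comm]
  refine Finset.sum_congr rfl fun b _ => Finset.sum_congr rfl fun m _ => ?_
  ring

omit hA in
theorem dz_th {y : Fin n → ℝ} (hy : y ≠ 0) (l : Fin n) :
    dz Z (th Q l) y = Matrix.trace ((A Q y)⁻¹ * DB Q Z y l) -
      Matrix.trace ((A Q y)⁻¹ * DA Q Z y * (A Q y)⁻¹ * B Q y l) := by
  have s3 : ∀ a b c : Fin n, Sm (pd a (pd b (pd c Q))) := fun a b c =>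
    ((hQ.sm.pd c).pd b).pd a
  have e1 : dz Z (th Q l) y = ∑ i, ∑ j, (dz Z (P Q i j) y * pd l (pd i (pd j Q)) y +
      P Q i j y * dz Z (pd l (pd i (pd j Q))) y) := by
    unfold th
    rw [dz_sum Z (fun i _ => Sm.sum fun j _ => (P_sm hQ i j).mul (s3 l i j)) hy]
    refine Finset.sum_congr rfl fun i _ => ?_
    rw [dz_sum Z (fun j _ => (P_sm hQ i j).mul (s3 l i j)) hy]
    refine Finset.sum_congr rfl fun j _ => ?_
    rw [dz_mul Z (P_sm hQ i j) (s3 l i j) hy]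
  rw [e1, ← sum_eq_trace _ _ (P_transpose hQ hy)]
  have hDA : (DA Q Z y)ᵀ = DA Q Z y := by
    ext i j
    simp only [DA, dz, Matrix.transpose_apply, Matrix.of_apply]
    exact Finset.sum_congr rfl fun m _ => by rw [pd3_symm2 hQ m j i hy]
  have hs : ((A Q y)⁻¹ * DA Q Z y * (A Q y)⁻¹)ᵀ = (A Q y)⁻¹ * DA Q Z y * (A Q y)⁻¹ := by
    rw [Matrix.transpose_mul, Matrix.transpose_mul, P_transpose hQ hy, hDA, Matrix.mul_assoc]
  rw [← sum_eq_trace _ _ hs, ← Finset.sum_sub_distrib]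
  refine Finset.sum_congr rfl fun i _ => ?_
  rw [← Finset.sum_sub_distrib]
  refine Finset.sum_congr rfl fun j _ => ?_
  rw [dz_P hQ Z hy i j]
  simp only [B, DB, Matrix.of_apply, P]
  ring

theorem trace_BJ {y : Fin n → ℝ} (hy : y ≠ 0) (l : Fin n) :
    Matrix.trace ((A Q y)⁻¹ * (B Q y l * Jc Z y)) =
      - Matrix.trace ((A Q y)⁻¹ * DA Q Z y * (A Q y)⁻¹ * B Q y l) := by
  rw [J_eq hQ w Z hZ hA hy]
  have h1 : (A Q y)⁻¹ * (B Q y l * ((A Q y)⁻¹ * (Matrix.vecMulVec w (fun k => pd k Q y) -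
      DA Q Z y))) = (A Q y)⁻¹ * B Q y l * (A Q y)⁻¹ * Matrix.vecMulVec w (fun k => pd k Q y) -
      (A Q y)⁻¹ * B Q y l * ((A Q y)⁻¹ * DA Q Z y) := by
    simp only [Matrix.mul_sub, Matrix.mul_assoc]
  rw [h1, Matrix.trace_sub]
  have h2 : Matrix.trace ((A Q y)⁻¹ * B Q y l * (A Q y)⁻¹ *
      Matrix.vecMulVec w (fun k => pd k Q y)) = 0 := by
    rw [Matrix.trace_mul_comm, ← Matrix.mul_assoc, ← Matrix.mul_assoc, Matrix.vecMulVec_mul,
      dQ_P hQ hy, Matrix.vecMulVec_mul, y_B hQ hy]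
    simp [Matrix.trace, Matrix.vecMulVec_apply, Matrix.mul_apply]
  rw [h2, zero_sub, Matrix.trace_mul_comm, ← Matrix.mul_assoc]

/-- the traced Landsberg identity -/
theorem traced (hL : ∀ y, y ≠ 0 → ∀ l, ∑ j, ∑ k, P Q j k y *
      ∑ i, pd i Q y * pd l (pd k (pd j (Z i))) y = 0)
    {y : Fin n → ℝ} (hy : y ≠ 0) (l : Fin n) :
    2 * dz Z (th Q l) y + (∑ a, w a * y a) * th Q l y + ∑ i, th Q i y * Jc Z y i l = 0 := by
  have s2 : ∀ b c : Fin n, Sm (pd b (pd c Q)) := fun b c => (hQ.sm.pd c).pd b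
  have hL2 : ∀ j k, (∑ a, w a * y a) * B Q y l j k + 2 * DB Q Z y l j k +
      ∑ i, Jc Z y i l * B Q y i j k + (B Q y l * Jc Z y) j k + (B Q y l * Jc Z y) k j =
      ∑ i, pd i Q y * pd l (pd k (pd j (Z i))) y := by
    intro j k
    have e := eqL hQ w Z hZ hA hy j k l
    have t2 : ∑ i, pd l (pd j (pd i (pd k Q))) y * Z i y = DB Q Z y l j k := by
      simp only [DB, dz, Matrix.of_apply]
      refine Finset.sum_congr rfl fun i _ => ?_
      rw [pd_congr (fun z hz => pd3_symm1 hQ j i k hz) l hy, pd_comm (s2 j k) l i hy, mul_comm]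
    have t4 : ∑ i, pd k (pd j (pd i (pd l Q))) y * Z i y = DB Q Z y l j k := by
      simp only [DB, dz, Matrix.of_apply]
      refine Finset.sum_congr rfl fun i _ => ?_
      rw [pd_congr (fun z hz => pd3_symm1 hQ j i l hz) k hy, pd_comm (s2 j l) k i hy,
        pd_congr (fun z hz => pd3_13 hQ k j l hz) i hy, mul_comm]
    have t3 : ∑ i, pd j (pd i (pd k Q)) y * pd l (Z i) y = ∑ i, Jc Z y i l * B Q y i j k := by
      refine Finset.sum_congr rfl fun i _ => ?_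
      simp only [Jc, B, Matrix.of_apply]
      rw [pd3_symm1 hQ j i k hy, mul_comm]
    have t5 : ∑ i, pd j (pd i (pd l Q)) y * pd k (Z i) y = (B Q y l * Jc Z y) j k := by
      rw [Matrix.mul_apply]
      refine Finset.sum_congr rfl fun i _ => ?_
      simp only [Jc, B, Matrix.of_apply]
      rw [pd3_symm2 hQ j i l hy, pd3_symm1 hQ j l i hy]
    have t6 : ∑ i, pd k (pd i (pd l Q)) y * pd j (Z i) y = (B Q y l * Jc Z y) k j := by
      rw [Matrix.mul_apply]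
      refine Finset.sum_congr rfl fun i _ => ?_
      simp only [Jc, B, Matrix.of_apply]
      rw [pd3_symm2 hQ k i l hy, pd3_symm1 hQ k l i hy]
    have t1 : pd l (pd k (pd j Q)) y = B Q y l j k := by
      simp only [B, Matrix.of_apply]
      rw [pd3_symm2 hQ l k j hy]
    rw [t1, t2, t3, t4, t5, t6] at e
    linarith
  -- contract
  have hc : ∑ j, ∑ k, (A Q y)⁻¹ j k * ((∑ a, w a * y a) * B Q y l j k + 2 * DB Q Z y l j k +
      ∑ i, Jc Z y i l * B Q y i j k + (B Q y l * Jc Z y) j k + (B Q y l * Jc Z y) k j) = 0 := by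
    rw [← hL y hy l]
    exact Finset.sum_congr rfl fun j _ => Finset.sum_congr rfl fun k _ => by rw [hL2 j k]; rfl
  have hsplit : ∑ j, ∑ k, (A Q y)⁻¹ j k * ((∑ a, w a * y a) * B Q y l j k + 2 * DB Q Z y l j k +
      ∑ i, Jc Z y i l * B Q y i j k + (B Q y l * Jc Z y) j k + (B Q y l * Jc Z y) k j) =
      (∑ a, w a * y a) * (∑ j, ∑ k, (A Q y)⁻¹ j k * B Q y l j k) +
      2 * (∑ j, ∑ k, (A Q y)⁻¹ j k * DB Q Z y l j k) +
      (∑ j, ∑ k, (A Q y)⁻¹ j k * ∑ i, Jc Z y i l * B Q y i j k) +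
      (∑ j, ∑ k, (A Q y)⁻¹ j k * (B Q y l * Jc Z y) j k) +
      (∑ j, ∑ k, (A Q y)⁻¹ j k * (B Q y l * Jc Z y) k j) := by
    rw [Finset.mul_sum, Finset.mul_sum, ← Finset.sum_add_distrib, ← Finset.sum_add_distrib,
      ← Finset.sum_add_distrib, ← Finset.sum_add_distrib]
    refine Finset.sum_congr rfl fun j _ => ?_
    rw [Finset.mul_sum, Finset.mul_sum, ← Finset.sum_add_distrib, ← Finset.sum_add_distrib,
      ← Finset.sum_add_distrib, ← Finset.sum_add_distrib]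
    refine Finset.sum_congr rfl fun k _ => ?_
    ring
  have h3 : (∑ j, ∑ k, (A Q y)⁻¹ j k * ∑ i, Jc Z y i l * B Q y i j k) =
      ∑ i, th Q i y * Jc Z y i l := by
    have : ∀ i, th Q i y * Jc Z y i l = ∑ j, ∑ k, (A Q y)⁻¹ j k * (Jc Z y i l * B Q y i j k) := by
      intro i
      unfold th
      rw [Finset.sum_mul]
      refine Finset.sum_congr rfl fun j _ => ?_
      rw [Finset.sum_mul]
      refine Finset.sum_congr rfl fun k _ => ?_
      simp only [P, B, Matrix.of_apply]; ring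
    simp only [this, Finset.mul_sum]
    rw [Finset.sum_comm (s := (Finset.univ : Finset (Fin n))) (t := Finset.univ)
      (f := fun i j => ∑ k, (A Q y)⁻¹ j k * (Jc Z y i l * B Q y i j k))]
    refine Finset.sum_congr rfl fun j _ => ?_
    rw [Finset.sum_comm]
  have h5 : (∑ j, ∑ k, (A Q y)⁻¹ j k * (B Q y l * Jc Z y) k j) =
      ∑ j, ∑ k, (A Q y)⁻¹ j k * (B Q y l * Jc Z y) j k := by
    rw [Finset.sum_comm]
    refine Finset.sum_congr rfl fun j _ => Finset.sum_congr rfl fun k _ => ?_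
    have := P_symm hQ hy k j
    unfold P at this
    rw [this]
  rw [hsplit, h3, h5, sum_eq_trace _ _ (P_transpose hQ hy), sum_eq_trace _ _ (P_transpose hQ hy),
    sum_eq_trace _ _ (P_transpose hQ hy), trace_BJ hQ w Z hZ hA hy, ← th_eq_trace hQ hy] at hc
  have hd := dz_th hQ Z hZ hy l
  linarith

end

end Pool.Agent.R774.BW
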